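import Mathlib

/-!
Project PS (MP_203158_an): packing measure of slices with singular projection.
-/

namespace Pool.Agent.R244.PS

open MeasureTheory Set Metric Topology
open scoped ENNReal NNReal

/-- The Euclidean plane. -/
abbrev E2 : Type := EuclideanSpace ℝ (Fin 2)

/-- Digit pairs. -/
abbrev Dg : Type := Fin 3 × Fin 3

/-- Infinite words. -/
abbrev Om : Type := ℕ → Dg

/-- The digits `0, 2, 4`. -/
def dg (i : Fin 3) : ℝ := 2 * (i : ℕ)

/-- Offset of a digit pair in direction `l`. -/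
def off (l : ℝ) (i : Dg) : ℝ := dg i.1 + l * dg i.2

/-- Prefix of length `n`. -/
def pre (ω : Om) (n : ℕ) : List Dg := (List.range n).map ω

/-- Cylinder set of a finite word. -/
def cyl (I : List Dg) : Set Om := {ω | pre ω I.length = I}

/-- The shift. -/
def shf (n : ℕ) (ω : Om) : Om := fun k => ω (n + k)

/-- Left endpoint of the projection of a cylinder. -/
noncomputable def lft (l : ℝ) : List Dg → ℝ
  | [] => 0
  | i :: I => (off l i + lft l I) / 5

/-- Rescaling map of a finite word. -/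
noncomputable def T (l : ℝ) (I : List Dg) (t : ℝ) : ℝ := 5 ^ I.length * (t - lft l I)

/-- Projection of the coded point in direction `(1, l)`. -/
noncomputable def F (l : ℝ) (ω : Om) : ℝ := ∑' k, off l (ω k) / 5 ^ (k + 1)

/-- The coded point. -/
noncomputable def pt (ω : Om) : E2 :=
  !₂[∑' k, dg (ω k).1 / 5 ^ (k + 1), ∑' k, dg (ω k).2 / 5 ^ (k + 1)]

/-- The self-similar set. -/
noncomputable def K : Set E2 := range pt

/-- Translation vector of a digit pair. -/
noncomputable def vec (i : Dg) : E2 := !₂[dg i.1 / 5, dg i.2 / 5]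

/-- The similarity dimension. -/
noncomputable def sd : ℝ := Real.log 9 / Real.log 5

/-- Uniform product measure on the infinite words. -/
def IsUnif (μ : Measure Om) : Prop :=
  IsProbabilityMeasure μ ∧ ∀ I : List Dg, μ (cyl I) = (9⁻¹ : ℝ≥0∞) ^ I.length

/-- Richness of the slice at height `t`: a finite antichain of long words whose cylinders are hit
by the line and whose weights add up to more than `M`. -/
def Rich (l M : ℝ) (k₀ : ℕ) (t : ℝ) : Prop :=
  ∃ Q : Finset (List Dg), (∀ I ∈ Q, k₀ ≤ I.length ∧ 0 < T l I t ∧ T l I t < 1 + l) ∧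
    (∀ I ∈ Q, ∀ J ∈ Q, I ≠ J → ¬ I <+: J) ∧ M < ∑ I ∈ Q, (5 / 9 : ℝ) ^ I.length

/-- Packing premeasure at scale `δ`. -/
noncomputable def packPre (a δ : ℝ) (A : Set E2) : ℝ≥0∞ :=
  ⨆ (s : Finset (E2 × ℝ)) (_ : (∀ p ∈ s, p.1 ∈ A ∧ 0 < p.2 ∧ p.2 ≤ δ) ∧
    (∀ p ∈ s, ∀ q ∈ s, p ≠ q → Disjoint (closedBall p.1 p.2) (closedBall q.1 q.2))),
    ∑ p ∈ s, (ENNReal.ofReal (2 * p.2)) ^ a

/-- Packing premeasure. -/
noncomputable def pack0 (a : ℝ) (A : Set E2) : ℝ≥0∞ := ⨅ (δ : ℝ) (_ : 0 < δ), packPre a δ A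

/-- Packing (outer) measure of dimension `a`. -/
noncomputable def packM (a : ℝ) (A : Set E2) : ℝ≥0∞ :=
  ⨅ (B : ℕ → Set E2) (_ : A ⊆ ⋃ n, B n), ∑' n, pack0 a (B n)

/-- The stopping antichain at height `t` for the target set `U`: words of length between `k₀` and
`N` with `T l I t ∈ U` and no proper prefix of length at least `k₀` with this property. -/
def Stop (l : ℝ) (U : Set ℝ) (k₀ N : ℕ) (t : ℝ) : Set (List Dg) :=
  {I | k₀ ≤ I.length ∧ I.length ≤ N ∧ T l I t ∈ U ∧
    ∀ k, k₀ ≤ k → k < I.length → T l (I.take k) t ∉ U}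

/-- The weight of the stopping antichain. -/
noncomputable def stopSum (l : ℝ) (U : Set ℝ) (k₀ N : ℕ) (t : ℝ) : ℝ≥0∞ :=
  ∑' I : List Dg, (Stop l U k₀ N t).indicator (fun I => (5 / 9 : ℝ≥0∞) ^ I.length) I

end Pool.Agent.R244.PS
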