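import Pool.Agent.R244.PS.Stm

namespace Pool.Agent.R244.PS

open MeasureTheory Set Metric Topology Filter
open scoped ENNReal NNReal Classical

theorem t_DENR (hU : S_UNIF) (hA1 : S_AC1) (hA2 : S_AC2) (hR : S_RICHAC) : S_DENR := by
  intro a b ha hab hb
  obtain ⟨μ, hμ⟩ := hU
  obtain ⟨l, hl, hC⟩ := hA1 a b ha hab hb
  have h1 : 1 / 2 ≤ l := ha.trans hl.1.le
  have h2 : l ≤ 1 := hl.2.le.trans hb
  exact ⟨l, hl, hR μ hμ l h1 h2 (hA2 μ hμ l h1 h2 hC)⟩

theorem aff_null {a b : ℝ} (ha : a ≠ 0) {N : Set ℝ} (hN : volume N = 0) :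
    volume {t : ℝ | a * (t - b) ∈ N} = 0 := by
  have h1 : {t : ℝ | a * (t - b) ∈ N} = (fun t => t + (-b)) ⁻¹' ((fun t => a * t) ⁻¹' N) := by
    ext t; simp [sub_eq_add_neg]
  rw [h1, measure_preimage_add_right, Real.volume_preimage_mul_left ha, hN, mul_zero]

theorem aff_ae {a b : ℝ} (ha : a ≠ 0) {P : ℝ → Prop} (hP : ∀ᵐ t : ℝ, P t) :
    ∀ᵐ t : ℝ, P (a * (t - b)) := by
  rw [ae_iff] at hP ⊢
  exact aff_null ha hP

theorem rich_mono {l M M' : ℝ} {k : ℕ} {t : ℝ} (h : M' ≤ M) (hr : Rich l M k t) :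
    Rich l M' k t := by
  obtain ⟨Q, h1, h2, h3⟩ := hr
  exact ⟨Q, h1, h2, lt_of_le_of_lt h h3⟩

theorem t_MAIN (hU : S_UNIF) (hPr : S_PROJ) (hG : S_GEN) (hSelf : S_SELF) (hSep : S_SEP)
    (hB : S_BAS) (hHD : S_HD) (hPk : S_PACK) : S_MAIN := by
  obtain ⟨μ, hμ⟩ := hU
  obtain ⟨l, hl1, hl2, hsing, hrich⟩ := hG μ hμ
  obtain ⟨hKc, hKne, hKu, hKd⟩ := hSelf
  obtain ⟨-, -, hcoord, hptc⟩ := hSep
  obtain ⟨hdim, hHm⟩ := hHD
  have hl0 : 0 ≤ l := by linarith
  set c : ℝ := Real.sqrt (1 + l ^ 2) with hc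
  have hc0 : 0 < c := Real.sqrt_pos.2 (by positivity)
  have hc2 : c ^ 2 = 1 + l ^ 2 := Real.sq_sqrt (by positivity)
  let e : E2 := !₂[1 / c, l / c]
  have hin : ∀ x : E2, (inner ℝ e x : ℝ) = (x 0 + l * x 1) / c := by
    intro x
    simp only [PiLp.inner_apply, Fin.sum_univ_two, e]
    simp
    ring
  let eqv : Dg ≃ Fin (3 * 3) := finProdFinEquiv
  refine ⟨3 * 3, fun _ => 1 / 5, fun j => vec (eqv.symm j), K, sd, e, ?_, hKne, hKc, ?_, ?_, ?_,
    hdim, ?_, ?_, ?_, ?_⟩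
  · unfold sd
    rw [lt_div_iff₀ (Real.log_pos (by norm_num)), one_mul]
    exact Real.log_lt_log (by norm_num) (by norm_num)
  · intro j; norm_num
  · conv_lhs => rw [hKu]
    exact (Equiv.iSup_congr eqv (fun i => by simp)) 
  · intro i j hij
    exact hKd _ _ (fun h => hij (eqv.symm.injective h))
  · have : ‖e‖ ^ 2 = 1 := by
      rw [EuclideanSpace.norm_sq_eq, Fin.sum_univ_two]
      simp only [e, Real.norm_eq_abs, sq_abs]
      simp
      rw [div_pow, hc2]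
      have : (1 + l ^ 2 : ℝ) ≠ 0 := by positivity
      field_simp
    have h0 : 0 ≤ ‖e‖ := norm_nonneg _
    nlinarith [sq_nonneg (‖e‖ - 1)]
  · have hsub : Icc 0 ((1 + l) / c) ⊆ (fun x : E2 => (inner ℝ e x : ℝ)) '' K := by
      rintro t ⟨ht0, ht1⟩
      obtain ⟨ω, hω⟩ := hPr l hl1.le hl2.le (c * t) (by positivity) (by
        rw [le_div_iff₀ hc0] at ht1; linarith)
      refine ⟨pt ω, ⟨ω, rfl⟩, ?_⟩
      simp only [hin, hcoord, hω]
      field_simp
    refine lt_of_lt_of_le ?_ (measure_mono hsub)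
    rw [Real.volume_Icc]
    simp
    positivity
  · obtain ⟨S, hS, hS1, hS2⟩ := hsing
    refine ⟨{t | c * t ∈ S}, (measurable_const_mul c) hS, ?_, ?_⟩
    · obtain ⟨C, hC⟩ := hHm μ hμ
      have hg : Measurable (fun x : E2 => (inner ℝ e x : ℝ)) := by fun_prop
      have hS' : MeasurableSet {t : ℝ | c * t ∈ S} := (measurable_const_mul c) hS
      rw [Measure.map_apply hg hS', Measure.restrict_apply (hg hS')]
      have h1 := hC _ (hg hS')
      have h2 : (μ.map pt) ((fun x : E2 => (inner ℝ e x : ℝ)) ⁻¹' {t | c * t ∈ S}) = 0 := by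
        rw [Measure.map_apply hptc.measurable (hg hS')]
        rw [Measure.map_apply (hB.2.2.2.2 l).measurable hS] at hS1
        convert hS1 using 2
        ext ω
        simp only [mem_preimage, mem_setOf_eq, hin, hcoord]
        rw [mul_div_cancel₀ _ hc0.ne']
      rw [h2, mul_zero] at h1
      exact le_antisymm h1 bot_le
    · have h3 : {t : ℝ | c * t ∈ S}ᶜ = {t : ℝ | c * (t - 0) ∈ Sᶜ} := by
        ext t; simp
      rw [h3]
      exact aff_null hc0.ne' hS2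
  · -- almost every height
    have hA : ∀ᵐ t : ℝ, ∀ I : List Dg, 0 ≤ T l I t → T l I t ≤ 1 + l →
        0 < T l I t ∧ T l I t < 1 + l := by
      rw [ae_all_iff]
      intro I
      have h1 : ∀ᵐ u : ℝ, 0 ≤ u → u ≤ 1 + l → 0 < u ∧ u < 1 + l := by
        have h2 : ∀ᵐ u : ℝ, u ≠ 0 := by
          rw [ae_iff]; simp
        have h3 : ∀ᵐ u : ℝ, u ≠ 1 + l := by
          rw [ae_iff]; simp
        filter_upwards [h2, h3] with u hu2 hu3 hu4 hu5
        exact ⟨lt_of_le_of_ne hu4 (Ne.symm hu2), lt_of_le_of_ne hu5 hu3⟩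
      exact aff_ae (a := 5 ^ I.length) (b := lft l I) (by positivity) h1
    have hR : ∀ᵐ t : ℝ, ∀ I : List Dg, ∀ M : ℕ, ∀ k₀ : ℕ, 0 < T l I t → T l I t < 1 + l →
        Rich l M k₀ (T l I t) := by
      rw [ae_all_iff]
      intro I
      rw [ae_all_iff]
      intro M
      rw [ae_all_iff]
      intro k₀
      exact aff_ae (a := 5 ^ I.length) (b := lft l I)
        (P := fun u => 0 < u → u < 1 + l → Rich l M k₀ u) (by positivity) (hrich M k₀)
    have hA' := aff_ae (a := c) (b := 0) hc0.ne' hA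
    have hR' := aff_ae (a := c) (b := 0) hc0.ne' hR
    filter_upwards [hA', hR'] with t htA htR ht
    simp only [sub_zero] at htA htR
    obtain ⟨x, ⟨ω, rfl⟩, hx⟩ := ht
    simp only [hin, hcoord] at hx
    have hct : c * t = F l ω := by
      rw [← hx]; field_simp
    have hTnil : T l [] (c * t) = c * t := by simp [T, lft]
    have hF := hB.2.1 l ω hl0
    have h0 := htA [] (by rw [hTnil, hct]; exact hF.1) (by rw [hTnil, hct]; exact hF.2)
    rw [hTnil] at h0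
    have hset : K ∩ {x : E2 | (inner ℝ e x : ℝ) = t} = K ∩ {x : E2 | x 0 + l * x 1 = c * t} := by
      ext x
      simp only [mem_inter_iff, mem_setOf_eq, hin]
      constructor
      · rintro ⟨h1, h2⟩
        exact ⟨h1, by rw [← h2]; field_simp⟩
      · rintro ⟨h1, h2⟩
        exact ⟨h1, by rw [h2]; field_simp⟩
    rw [hset]
    refine hPk l hl1.le hl2.le (c * t) h0.1 h0.2 htA ?_
    intro I hI1 hI2 M k₀
    obtain ⟨m, hm⟩ := exists_nat_ge M
    exact rich_mono hm (htR I m k₀ hI1 hI2)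

end Pool.Agent.R244.PS
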