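import Pool.Agent.R244.PS.Stm

/-!
# Piece PS-AC1 (helper310): transversality, bounded discrete energies
-/

set_option autoImplicit false

namespace Pool.Agent.R244.PS

open MeasureTheory Set Metric Topology Filter
open scoped ENNReal NNReal

namespace AC1

/-- first coordinate of the left endpoint -/
noncomputable def cx : List Dg → ℝ
  | [] => 0
  | i :: I => (dg i.1 + cx I) / 5

/-- second coordinate of the left endpoint -/
noncomputable def cy : List Dg → ℝ
  | [] => 0
  | i :: I => (dg i.2 + cy I) / 5

theorem lft_eq (l : ℝ) (I : List Dg) : lft l I = cx I + l * cy I := by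
  induction I with
  | nil => simp [lft, cx, cy]
  | cons i I ih => simp only [lft, cx, cy, off, ih]; ring

theorem dg_nonneg (i : Fin 3) : 0 ≤ dg i := by unfold dg; positivity

theorem dg_le (i : Fin 3) : dg i ≤ 4 := by
  unfold dg
  have h : ((i : ℕ) : ℝ) ≤ 2 := by exact_mod_cast Nat.lt_succ_iff.1 i.2
  linarith

theorem dg_sep (i j : Fin 3) (h : i ≠ j) : 2 ≤ |dg i - dg j| := by
  unfold dg
  have h1 : (i : ℕ) ≠ (j : ℕ) := fun h' => h (Fin.ext h')
  rcases lt_or_gt_of_ne h1 with h2 | h2
  · have h3 : ((i : ℕ) : ℝ) + 1 ≤ ((j : ℕ) : ℝ) := by exact_mod_cast h2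
    rw [abs_of_nonpos (by linarith)]; linarith
  · have h3 : ((j : ℕ) : ℝ) + 1 ≤ ((i : ℕ) : ℝ) := by exact_mod_cast h2
    rw [abs_of_nonneg (by linarith)]; linarith

theorem cx_bd (I : List Dg) : 0 ≤ cx I ∧ cx I ≤ 1 := by
  induction I with
  | nil => simp [cx]
  | cons i I ih =>
    have h1 := dg_nonneg i.1
    have h2 := dg_le i.1
    simp only [cx]
    constructor <;> linarith

theorem cy_bd (I : List Dg) : 0 ≤ cy I ∧ cy I ≤ 1 := by
  induction I with
  | nil => simp [cy]
  | cons i I ih =>
    have h1 := dg_nonneg i.2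
    have h2 := dg_le i.2
    simp only [cy]
    constructor <;> linarith

/-- separation at the first difference -/
theorem sep (I : List Dg) : ∀ J : List Dg, I.length = J.length → I ≠ J →
    ∃ j, j < I.length ∧ (∀ k, k < j → I[k]? = J[k]?) ∧
      ((1 / 5 : ℝ) ^ (j + 1) ≤ |cx I - cx J| ∨ (1 / 5 : ℝ) ^ (j + 1) ≤ |cy I - cy J|) := by
  induction I with
  | nil =>
    intro J hJ hne
    exact absurd (List.length_eq_zero_iff.1 hJ.symm).symm hne
  | cons i I ih =>
    intro J hJ hne
    cases J with
    | nil => simp at hJ
    | cons j J =>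
      have hl : I.length = J.length := by simpa using hJ
      by_cases hij : i = j
      · subst hij
        have hIJ : I ≠ J := fun h => hne (by rw [h])
        obtain ⟨k, hk, hag, hsep⟩ := ih J hl hIJ
        refine ⟨k + 1, by simpa using hk, ?_, ?_⟩
        · intro m hm
          cases m with
          | zero => simp
          | succ m =>
            simp only [List.getElem?_cons_succ]
            exact hag m (by omega)
        · have e1 : cx (i :: I) - cx (i :: J) = (cx I - cx J) / 5 := by
            simp only [cx]; ring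
          have e2 : cy (i :: I) - cy (i :: J) = (cy I - cy J) / 5 := by
            simp only [cy]; ring
          rw [e1, e2, abs_div, abs_div, abs_of_pos (by norm_num : (0 : ℝ) < 5), pow_succ]
          rcases hsep with h | h
          · left; linarith
          · right; linarith
      · refine ⟨0, by simp, fun k hk => absurd hk (Nat.not_lt_zero _), ?_⟩
        have hx := cx_bd I
        have hx' := cx_bd J
        have hy := cy_bd I
        have hy' := cy_bd J
        by_cases h1 : i.1 = j.1
        · have h2 : i.2 ≠ j.2 := fun h => hij (Prod.ext h1 h)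
          right
          have h3 := dg_sep _ _ h2
          simp only [cy]
          have e : (dg i.2 + cy I) / 5 - (dg j.2 + cy J) / 5
              = ((dg i.2 - dg j.2) + (cy I - cy J)) / 5 := by ring
          rw [e, abs_div, abs_of_pos (by norm_num : (0 : ℝ) < 5)]
          have h4 : |dg i.2 - dg j.2| - |cy I - cy J| ≤ |(dg i.2 - dg j.2) + (cy I - cy J)| := by
            have := abs_sub_abs_le_abs_sub (dg i.2 - dg j.2) (-(cy I - cy J))
            rw [abs_neg, sub_neg_eq_add] at this
            exact this
          have h5 : |cy I - cy J| ≤ 1 := by rw [abs_le]; constructor <;> linarith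
          norm_num
          linarith
        · left
          have h3 := dg_sep _ _ h1
          simp only [cx]
          have e : (dg i.1 + cx I) / 5 - (dg j.1 + cx J) / 5
              = ((dg i.1 - dg j.1) + (cx I - cx J)) / 5 := by ring
          rw [e, abs_div, abs_of_pos (by norm_num : (0 : ℝ) < 5)]
          have h4 : |dg i.1 - dg j.1| - |cx I - cx J| ≤ |(dg i.1 - dg j.1) + (cx I - cx J)| := by
            have := abs_sub_abs_le_abs_sub (dg i.1 - dg j.1) (-(cx I - cx J))
            rw [abs_neg, sub_neg_eq_add] at this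
            exact this
          have h5 : |cx I - cx J| ≤ 1 := by rw [abs_le]; constructor <;> linarith
          norm_num
          linarith

/-- the measure of the bad directions -/
theorem meas_bad (x y r ρ a b : ℝ) (ha : 1 / 2 ≤ a) (hab : a < b) (hb : b ≤ 1) (hr : 0 < r)
    (hρ : 0 < ρ) (h : ρ ≤ |x| ∨ ρ ≤ |y|) :
    volume ({l : ℝ | |x + l * y| ≤ r} ∩ Ioo a b) ≤ ENNReal.ofReal (10 * (r / ρ)) := by
  by_cases hy : ρ / 4 ≤ |y|
  · have hy0 : 0 < |y| := by linarith
    have hyne : y ≠ 0 := abs_pos.1 hy0
    have hsub : {l : ℝ | |x + l * y| ≤ r} ∩ Ioo a b ⊆ Icc (-x / y - r / |y|) (-x / y + r / |y|) := by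
      rintro l ⟨hl, _⟩
      have e : l - (-x / y) = (x + l * y) / y := by field_simp; ring
      have h2 : |l - (-x / y)| ≤ r / |y| := by
        rw [e, abs_div]
        exact div_le_div_of_nonneg_right hl hy0.le
      rw [abs_le] at h2
      exact ⟨by linarith [h2.1], by linarith [h2.2]⟩
    refine (measure_mono hsub).trans ?_
    rw [Real.volume_Icc]
    apply ENNReal.ofReal_le_ofReal
    have h3 : r / |y| ≤ r / (ρ / 4) := div_le_div_of_nonneg_left hr.le (by linarith) hy
    have h4 : r / (ρ / 4) = 4 * (r / ρ) := by field_simp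
    have h5 : 0 < r / ρ := div_pos hr hρ
    linarith
  · push Not at hy
    have hx : ρ ≤ |x| := by
      rcases h with h | h
      · exact h
      · linarith
    by_cases hr2 : r < 3 / 4 * ρ
    · have hemp : {l : ℝ | |x + l * y| ≤ r} ∩ Ioo a b = ∅ := by
        rw [Set.eq_empty_iff_forall_notMem]
        rintro l ⟨hl, hl1, hl2⟩
        have h1 : |x| - |l * y| ≤ |x + l * y| := by
          have := abs_sub_abs_le_abs_sub x (-(l * y))
          rw [abs_neg, sub_neg_eq_add] at this
          exact this
        have h2 : |l * y| ≤ |y| := by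
          rw [abs_mul, abs_of_pos (by linarith : 0 < l)]
          nlinarith [abs_nonneg y]
        have h3 : |x + l * y| ≤ r := hl
        linarith
      rw [hemp]
      simp
    · push Not at hr2
      refine (measure_mono Set.inter_subset_right).trans ?_
      rw [Real.volume_Ioo]
      apply ENNReal.ofReal_le_ofReal
      have h1 : 3 / 4 ≤ r / ρ := by rw [le_div_iff₀ hρ]; exact hr2
      linarith

/-- counting the words with a given prefix -/
theorem count_agree (n j : ℕ) (hj : j ≤ n) (u : Fin n → Dg) :
    ((Finset.univ.filter (fun v : Fin n → Dg => ∀ k : Fin n, (k : ℕ) < j → u k = v k)).card : ℝ)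
      = 9 ^ (n - j) := by
  classical
  have h1 : Finset.univ.filter (fun v : Fin n → Dg => ∀ k : Fin n, (k : ℕ) < j → u k = v k)
      = Fintype.piFinset (fun k : Fin n => if (k : ℕ) < j then {u k} else Finset.univ) := by
    ext v
    simp only [Finset.mem_filter, Finset.mem_univ, true_and, Fintype.mem_piFinset]
    refine forall_congr' fun k => ?_
    by_cases hk : (k : ℕ) < j
    · simp [hk, eq_comm]
    · simp [hk]
  rw [h1, Fintype.card_piFinset]
  have h2 : ∀ k : Fin n, (if (k : ℕ) < j then ({u k} : Finset Dg) else Finset.univ).card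
      = if (k : ℕ) < j then 1 else 9 := by
    intro k
    by_cases hk : (k : ℕ) < j
    · simp [hk]
    · simp [hk]
  simp only [h2]
  rw [Fin.prod_univ_eq_prod_range (fun k => if k < j then 1 else 9) n,
    ← Finset.prod_range_mul_prod_Ico _ hj]
  have h3 : ∏ k ∈ Finset.range j, (if k < j then 1 else 9) = 1 := by
    apply Finset.prod_eq_one
    intro k hk
    rw [if_pos (Finset.mem_range.1 hk)]
  have h4 : ∏ k ∈ Finset.Ico j n, (if k < j then 1 else 9) = 9 ^ (n - j) := by
    rw [Finset.prod_congr rfl (g := fun _ => 9)]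
    · simp
    · intro k hk
      rw [if_neg (by have := (Finset.mem_Ico.1 hk).1; omega)]
  rw [h3, h4]
  push_cast
  ring

/-- the bound of a pair -/
noncomputable def Bd (n : ℕ) (u v : Fin n → Dg) : ℝ := by
  classical
  exact (∑ j ∈ Finset.range n, if (∀ k : Fin n, (k : ℕ) < j → u k = v k) then
    100 * 5 ^ j / 5 ^ n else 0) + if u = v then 1 else 0

theorem Bd_nonneg (n : ℕ) (u v : Fin n → Dg) : 0 ≤ Bd n u v := by
  classical
  unfold Bd
  apply add_nonneg
  · apply Finset.sum_nonneg
    intro j _
    split_ifs
    · positivity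
    · exact le_refl _
  · split_ifs
    · exact zero_le_one
    · exact le_refl _

theorem sum_Bd (n : ℕ) : ∑ u : Fin n → Dg, ∑ v : Fin n → Dg, (1 / 81 : ℝ) ^ n * 5 ^ n * Bd n u v
    ≤ 226 := by
  classical
  have h1 : ∀ u : Fin n → Dg, ∑ v : Fin n → Dg, Bd n u v
      = (∑ j ∈ Finset.range n, 100 * 5 ^ j / 5 ^ n * (9 : ℝ) ^ (n - j)) + 1 := by
    intro u
    unfold Bd
    rw [Finset.sum_add_distrib, Finset.sum_comm]
    congr 1
    · apply Finset.sum_congr rfl
      intro j hj
      rw [← Finset.sum_filter, Finset.sum_const, nsmul_eq_mul]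
      rw [count_agree n j (Finset.mem_range.1 hj).le u]
      ring
    · simp
  simp only [← Finset.mul_sum, h1, Finset.sum_const, nsmul_eq_mul]
  have hc : ((Finset.univ : Finset (Fin n → Dg)).card : ℝ) = 9 ^ n := by
    rw [Finset.card_univ, Fintype.card_fun]
    simp
  rw [hc]
  have h2 : (1 / 81 : ℝ) ^ n * 5 ^ n * 9 ^ n = (5 / 9) ^ n := by
    rw [← mul_pow, ← mul_pow]; norm_num
  have h3 : (1 / 81 : ℝ) ^ n * 5 ^ n * (9 ^ n * ((∑ j ∈ Finset.range n,
      100 * 5 ^ j / 5 ^ n * (9 : ℝ) ^ (n - j)) + 1))
      = (∑ j ∈ Finset.range n, 100 * (5 / 9 : ℝ) ^ j) + (5 / 9) ^ n := by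
    rw [← mul_assoc, h2, mul_add, Finset.mul_sum, mul_one]
    congr 1
    apply Finset.sum_congr rfl
    intro j hj
    have hjn : j ≤ n := (Finset.mem_range.1 hj).le
    obtain ⟨m, rfl⟩ := Nat.exists_eq_add_of_le hjn
    rw [Nat.add_sub_cancel_left, div_pow, div_pow, pow_add, pow_add]
    field_simp
  rw [h3, ← Finset.mul_sum]
  have h4 : ∑ j ∈ Finset.range n, (5 / 9 : ℝ) ^ j ≤ 9 / 4 := by
    rw [geom_sum_eq (by norm_num)]
    have : (0 : ℝ) ≤ (5 / 9) ^ n := by positivity
    rw [div_le_iff_of_neg (by norm_num)]
    linarith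
  have h5 : (5 / 9 : ℝ) ^ n ≤ 1 := pow_le_one₀ (by norm_num) (by norm_num)
  linarith

/-- the measure for a pair of words -/
theorem meas_pair (n : ℕ) (u v : Fin n → Dg) (a b : ℝ) (ha : 1 / 2 ≤ a) (hab : a < b)
    (hb : b ≤ 1) :
    volume ({l : ℝ | |lft l (List.ofFn u) - lft l (List.ofFn v)| ≤ 2 / 5 ^ n} ∩ Ioo a b)
      ≤ ENNReal.ofReal (Bd n u v) := by
  classical
  by_cases huv : u = v
  · subst huv
    refine (measure_mono Set.inter_subset_right).trans ?_
    rw [Real.volume_Ioo]
    apply ENNReal.ofReal_le_ofReal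
    unfold Bd
    have h0 : 0 ≤ ∑ j ∈ Finset.range n, if (∀ k : Fin n, (k : ℕ) < j → u k = u k) then
        (100 * 5 ^ j / 5 ^ n : ℝ) else 0 := by
      apply Finset.sum_nonneg
      intro j _
      split_ifs
      · positivity
      · exact le_refl _
    rw [if_pos rfl]
    linarith
  · have hne : List.ofFn u ≠ List.ofFn v := fun h => huv (List.ofFn_injective h)
    obtain ⟨j, hj, hag, hsep⟩ := sep (List.ofFn u) (List.ofFn v) (by simp) hne
    rw [List.length_ofFn] at hj
    have hset : {l : ℝ | |lft l (List.ofFn u) - lft l (List.ofFn v)| ≤ 2 / 5 ^ n}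
        = {l : ℝ | |(cx (List.ofFn u) - cx (List.ofFn v))
            + l * (cy (List.ofFn u) - cy (List.ofFn v))| ≤ 2 / 5 ^ n} := by
      ext l
      simp only [Set.mem_ofPred_eq]
      rw [lft_eq, lft_eq]
      have e : cx (List.ofFn u) + l * cy (List.ofFn u) - (cx (List.ofFn v) + l * cy (List.ofFn v))
          = (cx (List.ofFn u) - cx (List.ofFn v))
            + l * (cy (List.ofFn u) - cy (List.ofFn v)) := by ring
      rw [e]
    rw [hset]
    refine (meas_bad _ _ (2 / 5 ^ n) ((1 / 5) ^ (j + 1)) a b ha hab hb (by positivity)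
      (by positivity) hsep).trans ?_
    apply ENNReal.ofReal_le_ofReal
    have hagree : ∀ k : Fin n, (k : ℕ) < j → u k = v k := by
      intro k hk
      have h1 := hag k hk
      rw [List.getElem?_ofFn, List.getElem?_ofFn] at h1
      simpa using h1
    have e1 : (10 : ℝ) * (2 / 5 ^ n / (1 / 5) ^ (j + 1)) = 100 * 5 ^ j / 5 ^ n := by
      rw [div_pow, one_pow, pow_succ]
      field_simp
      norm_num
    rw [e1]
    unfold Bd
    have h2 : (100 * 5 ^ j / 5 ^ n : ℝ) ≤ ∑ j ∈ Finset.range n,
        if (∀ k : Fin n, (k : ℕ) < j → u k = v k) then (100 * 5 ^ j / 5 ^ n : ℝ) else 0 := by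
      have h3 := Finset.single_le_sum (s := Finset.range n)
        (f := fun j => if (∀ k : Fin n, (k : ℕ) < j → u k = v k) then
          (100 * 5 ^ j / 5 ^ n : ℝ) else 0) (fun i _ => by
            split_ifs
            · positivity
            · exact le_refl _) (Finset.mem_range.2 hj)
      simp only [if_pos hagree] at h3
      exact h3
    rw [if_neg huv]
    linarith

theorem lft_cont (I : List Dg) : Continuous fun l : ℝ => lft l I := by
  have : (fun l : ℝ => lft l I) = fun l => cx I + l * cy I := funext fun l => lft_eq l I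
  rw [this]
  fun_prop

end AC1

open AC1

/-- Piece PS-AC1. -/
theorem t_AC1 : S_AC1 := by
  intro a b ha hab hb
  have hbound : ∀ n : ℕ, ∫⁻ l in Ioo a b, ENNReal.ofReal (En l n) ≤ ENNReal.ofReal 226 := by
    intro n
    have hc : (0 : ℝ) ≤ (1 / 81 : ℝ) ^ n * 5 ^ n := by positivity
    have h1 : ∀ l, ENNReal.ofReal (En l n) = ∑ u : Fin n → Dg, ∑ v : Fin n → Dg,
        {l : ℝ | |lft l (List.ofFn u) - lft l (List.ofFn v)| ≤ 2 / 5 ^ n}.indicator
          (fun _ => ENNReal.ofReal ((1 / 81 : ℝ) ^ n * 5 ^ n)) l := by
      intro l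
      unfold En
      rw [ENNReal.ofReal_sum_of_nonneg]
      · apply Finset.sum_congr rfl
        intro u _
        rw [ENNReal.ofReal_sum_of_nonneg]
        · apply Finset.sum_congr rfl
          intro v _
          by_cases h : |lft l (List.ofFn u) - lft l (List.ofFn v)| ≤ 2 / 5 ^ n
          · rw [if_pos h]
            symm
            apply Set.indicator_of_mem
            exact h
          · rw [if_neg h, ENNReal.ofReal_zero]
            symm
            apply Set.indicator_of_notMem
            exact h
        · intro v _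
          split_ifs
          · exact hc
          · exact le_refl _
      · intro u _
        apply Finset.sum_nonneg
        intro v _
        split_ifs
        · exact hc
        · exact le_refl _
    have hms : ∀ u v : Fin n → Dg,
        MeasurableSet {l : ℝ | |lft l (List.ofFn u) - lft l (List.ofFn v)| ≤ 2 / 5 ^ n} := by
      intro u v
      exact (isClosed_le ((lft_cont _).sub (lft_cont _)).abs continuous_const).measurableSet
    calc ∫⁻ l in Ioo a b, ENNReal.ofReal (En l n)
        = ∫⁻ l in Ioo a b, ∑ u : Fin n → Dg, ∑ v : Fin n → Dg,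
          {l : ℝ | |lft l (List.ofFn u) - lft l (List.ofFn v)| ≤ 2 / 5 ^ n}.indicator
            (fun _ => ENNReal.ofReal ((1 / 81 : ℝ) ^ n * 5 ^ n)) l := by
          apply lintegral_congr
          intro l
          exact h1 l
      _ = ∑ u : Fin n → Dg, ∑ v : Fin n → Dg, ∫⁻ l in Ioo a b,
          {l : ℝ | |lft l (List.ofFn u) - lft l (List.ofFn v)| ≤ 2 / 5 ^ n}.indicator
            (fun _ => ENNReal.ofReal ((1 / 81 : ℝ) ^ n * 5 ^ n)) l := by
          rw [lintegral_finsetSum]
          · apply Finset.sum_congr rfl
            intro u _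
            rw [lintegral_finsetSum]
            intro v _
            exact measurable_const.indicator (hms u v)
          · intro u _
            apply Finset.measurable_sum
            intro v _
            exact measurable_const.indicator (hms u v)
      _ ≤ ∑ u : Fin n → Dg, ∑ v : Fin n → Dg,
            ENNReal.ofReal ((1 / 81 : ℝ) ^ n * 5 ^ n * Bd n u v) := by
          apply Finset.sum_le_sum
          intro u _
          apply Finset.sum_le_sum
          intro v _
          rw [lintegral_indicator_const (hms u v), Measure.restrict_apply (hms u v),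
            ENNReal.ofReal_mul hc]
          exact mul_le_mul_right (meas_pair n u v a b ha hab hb) _
      _ = ENNReal.ofReal (∑ u : Fin n → Dg, ∑ v : Fin n → Dg,
            (1 / 81 : ℝ) ^ n * 5 ^ n * Bd n u v) := by
          rw [ENNReal.ofReal_sum_of_nonneg]
          · apply Finset.sum_congr rfl
            intro u _
            rw [ENNReal.ofReal_sum_of_nonneg]
            intro v _
            exact mul_nonneg hc (Bd_nonneg n u v)
          · intro u _
            apply Finset.sum_nonneg
            intro v _
            exact mul_nonneg hc (Bd_nonneg n u v)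
      _ ≤ ENNReal.ofReal 226 := ENNReal.ofReal_le_ofReal (sum_Bd n)
  by_contra hcon
  push Not at hcon
  have hmeas : ∀ n, Measurable fun l : ℝ => ENNReal.ofReal (En l n) := by
    intro n
    apply ENNReal.measurable_ofReal.comp
    unfold En
    apply Finset.measurable_sum
    intro u _
    apply Finset.measurable_sum
    intro v _
    apply Measurable.ite
    · exact (isClosed_le ((lft_cont _).sub (lft_cont _)).abs continuous_const).measurableSet
    · exact measurable_const
    · exact measurable_const
  have hF := lintegral_liminf_le (μ := volume.restrict (Ioo a b)) (u := (atTop : Filter ℕ)) hmeas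
  have hinf : ∫⁻ l in Ioo a b, liminf (fun n => ENNReal.ofReal (En l n)) atTop = ⊤ := by
    have e : ∫⁻ l in Ioo a b, liminf (fun n => ENNReal.ofReal (En l n)) atTop
        = ∫⁻ _l in Ioo a b, ⊤ := by
      apply setLIntegral_congr_fun measurableSet_Ioo
      intro l hl
      dsimp only
      apply Tendsto.liminf_eq
      apply ENNReal.tendsto_ofReal_atTop.comp
      rw [Filter.tendsto_atTop]
      intro C
      filter_upwards [hcon l hl C] with n hn
      exact hn.le
    rw [e, lintegral_const, Measure.restrict_apply MeasurableSet.univ, Set.univ_inter,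
      Real.volume_Ioo, ENNReal.top_mul]
    rw [Ne, ENNReal.ofReal_eq_zero]
    push Not
    linarith
  rw [hinf] at hF
  have h2 : liminf (fun n => ∫⁻ l in Ioo a b, ENNReal.ofReal (En l n)) atTop
      ≤ ENNReal.ofReal 226 :=
    liminf_le_of_frequently_le' (Eventually.of_forall hbound).frequently
  exact absurd (hF.trans h2) (by simp)

end Pool.Agent.R244.PS
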