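import Pool.Agent.R244.PS.Stm

/-! # Project PS, piece AC2: bounded discrete energies give absolute continuity -/

namespace Pool.Agent.R244.PS

open MeasureTheory Set Metric Topology Filter
open scoped ENNReal NNReal Classical

namespace AC2aux

theorem ofFn_pre (ω : Om) (n : ℕ) : List.ofFn (fun i : Fin n => ω i) = pre ω n := by
  unfold pre
  apply List.ext_getElem
  · simp
  · intro i h1 h2
    simp

/-- The ball around the left end point of the cylinder of a word. -/
noncomputable def Bl (l : ℝ) (n : ℕ) (u : Fin n → Dg) : Set ℝ :=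
  closedBall (lft l (List.ofFn u)) (1 / 5 ^ n)

theorem Bl_vol (l : ℝ) (n : ℕ) (u : Fin n → Dg) :
    (volume : Measure ℝ).real (Bl l n u) = 2 / 5 ^ n := by
  unfold Bl
  rw [measureReal_def, Real.volume_closedBall, ENNReal.toReal_ofReal (by positivity)]
  ring

theorem Bl_inter (l : ℝ) (n : ℕ) (u v : Fin n → Dg)
    (h : ¬ |lft l (List.ofFn u) - lft l (List.ofFn v)| ≤ 2 / 5 ^ n) :
    Bl l n u ∩ Bl l n v = ∅ := by
  ext t
  simp only [Bl, mem_inter_iff, mem_closedBall, Real.dist_eq, mem_empty_iff_false, iff_false,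
    not_and]
  intro h1 h2
  apply h
  have h3 : lft l (List.ofFn u) - lft l (List.ofFn v) =
      (t - lft l (List.ofFn v)) - (t - lft l (List.ofFn u)) := by ring
  rw [h3]
  refine (abs_sub _ _).trans ?_
  have : (2 : ℝ) / 5 ^ n = 1 / 5 ^ n + 1 / 5 ^ n := by ring
  linarith

theorem count (l : ℝ) (n : ℕ) (U : Set ℝ) (hU : MeasurableSet U) (hV : volume U ≠ ⊤)
    (C σ : ℝ) (hσ : 0 < σ) (hE : En l n ≤ C) (A : Finset (Fin n → Dg))
    (hA : ∀ u ∈ A, Bl l n u ⊆ U) :
    (A.card : ℝ) / 9 ^ n ≤ (2 * σ * C + (volume : Measure ℝ).real U / σ) / 4 := by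
  set ρ : Measure ℝ := volume.restrict U with hρ
  have : IsFiniteMeasure ρ := ⟨by rw [hρ, Measure.restrict_apply_univ]; exact hV.lt_top⟩
  set x : ℝ := 1 / 9 ^ n with hx
  set s : ℝ := 5 ^ n * σ with hs
  have hs0 : 0 < s := by positivity
  have hx0 : 0 < x := by positivity
  have hmB : ∀ u, MeasurableSet (Bl l n u) := fun u => measurableSet_closedBall
  -- pointwise inequality
  have key : ∀ t : ℝ, 0 ≤ s * x ^ 2 * (∑ u : Fin n → Dg, ∑ v : Fin n → Dg,
      (Bl l n u ∩ Bl l n v).indicator (1 : ℝ → ℝ) t) -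
      2 * x * (∑ u : Fin n → Dg, (Bl l n u).indicator (1 : ℝ → ℝ) t) + 1 / s := by
    intro t
    have h1 : (∑ u : Fin n → Dg, ∑ v : Fin n → Dg,
        (Bl l n u ∩ Bl l n v).indicator (1 : ℝ → ℝ) t) =
        (∑ u : Fin n → Dg, (Bl l n u).indicator (1 : ℝ → ℝ) t) ^ 2 := by
      rw [pow_two, Finset.sum_mul_sum]
      refine Finset.sum_congr rfl fun u _ => Finset.sum_congr rfl fun v _ => ?_
      by_cases h1 : t ∈ Bl l n u <;> by_cases h2 : t ∈ Bl l n v <;>
        simp [indicator, h1, h2]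
    rw [h1]
    set G := ∑ u : Fin n → Dg, (Bl l n u).indicator (1 : ℝ → ℝ) t
    have h2 : s * x ^ 2 * G ^ 2 - 2 * x * G + 1 / s = (s * x * G - 1) ^ 2 / s := by
      field_simp
      ring
    rw [h2]
    positivity
  have hint1 : ∀ u, Integrable (fun t => (Bl l n u).indicator (1 : ℝ → ℝ) t) ρ := fun u =>
    (integrable_const (1 : ℝ)).indicator (hmB u)
  have hint2 : ∀ u v, Integrable (fun t => (Bl l n u ∩ Bl l n v).indicator (1 : ℝ → ℝ) t) ρ :=
    fun u v => (integrable_const (1 : ℝ)).indicator ((hmB u).inter (hmB v))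
  have hI : 0 ≤ ∫ t, (s * x ^ 2 * (∑ u : Fin n → Dg, ∑ v : Fin n → Dg,
      (Bl l n u ∩ Bl l n v).indicator (1 : ℝ → ℝ) t) -
      2 * x * (∑ u : Fin n → Dg, (Bl l n u).indicator (1 : ℝ → ℝ) t) + 1 / s) ∂ρ :=
    integral_nonneg (fun t => key t)
  rw [integral_add, integral_sub, integral_const_mul, integral_const_mul,
    integral_finset_sum _ (fun u _ => hint1 u),
    integral_finset_sum _ (fun u _ => integrable_finset_sum _ (fun v _ => hint2 u v))] at hI
  rotate_left
  · exact (integrable_finset_sum _ (fun u _ => integrable_finset_sum _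
      (fun v _ => hint2 u v))).const_mul _
  · exact (integrable_finset_sum _ (fun u _ => hint1 u)).const_mul _
  · exact ((integrable_finset_sum _ (fun u _ => integrable_finset_sum _
      (fun v _ => hint2 u v))).const_mul _).sub
      ((integrable_finset_sum _ (fun u _ => hint1 u)).const_mul _)
  · exact integrable_const _
  have h3 : ∀ u, ∫ t, ∑ v : Fin n → Dg, (Bl l n u ∩ Bl l n v).indicator (1 : ℝ → ℝ) t ∂ρ =
      ∑ v : Fin n → Dg, ρ.real (Bl l n u ∩ Bl l n v) := by
    intro u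
    rw [integral_finset_sum _ (fun v _ => hint2 u v)]
    exact Finset.sum_congr rfl fun v _ => integral_indicator_one ((hmB u).inter (hmB v))
  have h4 : ∀ u, ∫ t, (Bl l n u).indicator (1 : ℝ → ℝ) t ∂ρ = ρ.real (Bl l n u) :=
    fun u => integral_indicator_one (hmB u)
  simp only [h3, h4] at hI
  rw [integral_const, smul_eq_mul] at hI
  have hρu : ρ.real univ = (volume : Measure ℝ).real U := by
    rw [measureReal_def, measureReal_def, hρ, Measure.restrict_apply_univ]
  rw [hρu] at hI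
  -- upper bound for the double sum
  have hle : ∀ u, ρ.real (Bl l n u) ≤ 2 / 5 ^ n := by
    intro u
    rw [← Bl_vol l n u, measureReal_def, measureReal_def]
    refine ENNReal.toReal_mono ?_ (Measure.restrict_apply_le _ _)
    unfold Bl
    rw [Real.volume_closedBall]
    exact ENNReal.ofReal_ne_top
  have h5 : ∑ u : Fin n → Dg, ∑ v : Fin n → Dg, ρ.real (Bl l n u ∩ Bl l n v) ≤
      ∑ u : Fin n → Dg, ∑ v : Fin n → Dg,
        (if |lft l (List.ofFn u) - lft l (List.ofFn v)| ≤ 2 / 5 ^ n then (2 : ℝ) / 5 ^ n else 0) := by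
    refine Finset.sum_le_sum fun u _ => Finset.sum_le_sum fun v _ => ?_
    split_ifs with h
    · exact (measureReal_mono inter_subset_left).trans (hle u)
    · rw [Bl_inter l n u v h]
      simp
  have h6 : ∑ u : Fin n → Dg, ∑ v : Fin n → Dg,
        (if |lft l (List.ofFn u) - lft l (List.ofFn v)| ≤ 2 / 5 ^ n then (2 : ℝ) / 5 ^ n else 0) =
      (2 / 5 ^ n) * (81 ^ n / 5 ^ n) * En l n := by
    unfold En
    rw [Finset.mul_sum]
    refine Finset.sum_congr rfl fun u _ => ?_
    rw [Finset.mul_sum]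
    refine Finset.sum_congr rfl fun v _ => ?_
    split_ifs with h
    · rw [div_pow, one_pow]
      field_simp
    · simp
  -- lower bound for the single sum
  have h7 : (A.card : ℝ) * (2 / 5 ^ n) ≤ ∑ u : Fin n → Dg, ρ.real (Bl l n u) := by
    calc (A.card : ℝ) * (2 / 5 ^ n) = ∑ u ∈ A, (2 / 5 ^ n : ℝ) := by
          rw [Finset.sum_const, nsmul_eq_mul]
      _ ≤ ∑ u ∈ A, ρ.real (Bl l n u) := by
          refine Finset.sum_le_sum fun u hu => ?_
          rw [← Bl_vol l n u, measureReal_def, measureReal_def, hρ,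
            Measure.restrict_apply (hmB u), inter_eq_left.mpr (hA u hu)]
      _ ≤ ∑ u : Fin n → Dg, ρ.real (Bl l n u) :=
          Finset.sum_le_sum_of_subset_of_nonneg (Finset.subset_univ _)
            (fun _ _ _ => measureReal_nonneg)
  have hC : (2 / 5 ^ n) * (81 ^ n / 5 ^ n) * En l n ≤ (2 / 5 ^ n) * (81 ^ n / 5 ^ n) * C :=
    mul_le_mul_of_nonneg_left hE (by positivity)
  have h8 : s * x ^ 2 * (∑ u : Fin n → Dg, ∑ v : Fin n → Dg, ρ.real (Bl l n u ∩ Bl l n v)) ≤
      s * x ^ 2 * ((2 / 5 ^ n) * (81 ^ n / 5 ^ n) * C) :=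
    mul_le_mul_of_nonneg_left ((h5.trans h6.le).trans hC) (by positivity)
  have h9 : 2 * x * ((A.card : ℝ) * (2 / 5 ^ n)) ≤
      2 * x * ∑ u : Fin n → Dg, ρ.real (Bl l n u) :=
    mul_le_mul_of_nonneg_left h7 (by positivity)
  have h10 : 2 * x * ((A.card : ℝ) * (2 / 5 ^ n)) ≤
      s * x ^ 2 * ((2 / 5 ^ n) * (81 ^ n / 5 ^ n) * C) + (volume : Measure ℝ).real U * (1 / s) := by
    linarith
  have h81 : (81 : ℝ) ^ n = 9 ^ n * 9 ^ n := by rw [← mul_pow]; norm_num
  have e1 : s * x ^ 2 * ((2 / 5 ^ n) * (81 ^ n / 5 ^ n) * C) = (1 / 5 ^ n) * (2 * σ * C) := by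
    rw [hs, hx, h81]
    field_simp
  have e2 : (volume : Measure ℝ).real U * (1 / s) =
      (1 / 5 ^ n) * ((volume : Measure ℝ).real U / σ) := by
    rw [hs]
    field_simp
  have e3 : 2 * x * ((A.card : ℝ) * (2 / 5 ^ n)) = (1 / 5 ^ n) * (4 * ((A.card : ℝ) / 9 ^ n)) := by
    rw [hx]
    field_simp
    ring
  rw [e1, e2, e3, ← mul_add] at h10
  have h11 := le_of_mul_le_mul_left h10 (by positivity)
  linarith

theorem stepn (hB : S_BAS) (μ : Measure Om) (hμ : IsUnif μ) (l : ℝ) (hl : 1 / 2 ≤ l) (hl1 : l ≤ 1)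
    (n : ℕ) (U : Set ℝ) (hU : MeasurableSet U) (hV : volume U ≠ ⊤)
    (C σ : ℝ) (hσ : 0 < σ) (hE : En l n ≤ C) :
    μ {ω | closedBall (F l ω) (4 / 5 ^ n) ⊆ U} ≤
      ENNReal.ofReal ((2 * σ * C + (volume : Measure ℝ).real U / σ) / 4) := by
  obtain ⟨hT, hF, -, -, -⟩ := hB
  set A : Finset (Fin n → Dg) := Finset.univ.filter (fun u => Bl l n u ⊆ U) with hA
  have hsub : {ω | closedBall (F l ω) (4 / 5 ^ n) ⊆ U} ⊆ ⋃ u ∈ A, cyl (List.ofFn u) := by
    intro ω hω
    have hω' : closedBall (F l ω) (4 / 5 ^ n) ⊆ U := hω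
    rw [mem_iUnion₂]
    refine ⟨fun i : Fin n => ω i, ?_, ?_⟩
    · rw [hA, Finset.mem_filter]
      refine ⟨Finset.mem_univ _, ?_⟩
      have h1 := hT l ω n
      have h2 := hF l (shf n ω) (by linarith)
      unfold T at h1
      have hlen : (pre ω n).length = n := by simp [pre]
      rw [hlen] at h1
      rw [← h1] at h2
      have h5 : (0 : ℝ) < 5 ^ n := by positivity
      have h3 : 0 ≤ F l ω - lft l (pre ω n) := by
        by_contra hcon
        push Not at hcon
        nlinarith [h2.1]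
      have h4 : F l ω - lft l (pre ω n) ≤ 2 / 5 ^ n := by
        rw [le_div_iff₀ h5]
        nlinarith [h2.2]
      unfold Bl
      rw [ofFn_pre]
      refine Subset.trans ?_ hω'
      apply closedBall_subset_closedBall'
      rw [Real.dist_eq, abs_sub_comm, abs_of_nonneg h3]
      have : (4 : ℝ) / 5 ^ n = 1 / 5 ^ n + 2 / 5 ^ n + 1 / 5 ^ n := by ring
      have h6 : (0 : ℝ) < 1 / 5 ^ n := by positivity
      linarith
    · rw [ofFn_pre]
      show pre ω (pre ω n).length = pre ω n
      have hlen : (pre ω n).length = n := by simp [pre]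
      rw [hlen]
  calc μ {ω | closedBall (F l ω) (4 / 5 ^ n) ⊆ U} ≤ μ (⋃ u ∈ A, cyl (List.ofFn u)) :=
        measure_mono hsub
    _ ≤ ∑ u ∈ A, μ (cyl (List.ofFn u)) := measure_biUnion_finset_le _ _
    _ = ∑ u ∈ A, (9⁻¹ : ℝ≥0∞) ^ n := by
        refine Finset.sum_congr rfl fun u _ => ?_
        rw [hμ.2, List.length_ofFn]
    _ = ENNReal.ofReal ((A.card : ℝ) / 9 ^ n) := by
        rw [Finset.sum_const, nsmul_eq_mul, ENNReal.ofReal_div_of_pos (by positivity),
          ENNReal.ofReal_natCast, div_eq_mul_inv, ENNReal.ofReal_pow (by norm_num),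
          ENNReal.inv_pow]
        norm_num
    _ ≤ _ := ENNReal.ofReal_le_ofReal
        (count l n U hU hV C σ hσ hE A (fun u hu => (Finset.mem_filter.mp hu).2))

end AC2aux

open AC2aux in
theorem t_AC2 (hB : S_BAS) : S_AC2 := by
  intro μ hμ l hl hl1 ⟨C, hC⟩
  have hFc : Continuous (F l) := hB.2.2.2.2 l
  have hFm : Measurable (F l) := hFc.measurable
  -- bound on open sets of finite measure
  have hopen : ∀ U : Set ℝ, IsOpen U → volume U ≠ ⊤ → ∀ σ : ℝ, 0 < σ →
      μ.map (F l) U ≤ ENNReal.ofReal ((2 * σ * C + (volume : Measure ℝ).real U / σ) / 4) := by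
    intro U hU hV σ hσ
    rw [Measure.map_apply hFm hU.measurableSet]
    set E : ℕ → Set Om := fun n => {ω | closedBall (F l ω) (4 / 5 ^ n) ⊆ U} with hE
    have hmono : Monotone E := by
      intro m n hmn ω hω
      have hω' : closedBall (F l ω) (4 / 5 ^ m) ⊆ U := hω
      refine Subset.trans (closedBall_subset_closedBall ?_) hω'
      apply div_le_div_of_nonneg_left (by norm_num) (by positivity)
      exact pow_le_pow_right₀ (by norm_num) hmn
    have hun : (⋃ n, E n) = F l ⁻¹' U := by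
      ext ω
      rw [mem_iUnion, mem_preimage]
      constructor
      · rintro ⟨n, hn⟩
        have hn' : closedBall (F l ω) (4 / 5 ^ n) ⊆ U := hn
        exact hn' (mem_closedBall_self (by positivity))
      · intro h
        obtain ⟨ε, hε, hεU⟩ := Metric.isOpen_iff.mp hU _ h
        have hlim : Tendsto (fun n : ℕ => (4 : ℝ) / 5 ^ n) atTop (𝓝 0) := by
          have h1 : Tendsto (fun n : ℕ => ((1 : ℝ) / 5) ^ n) atTop (𝓝 0) :=
            tendsto_pow_atTop_nhds_zero_of_lt_one (by norm_num) (by norm_num)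
          have h2 := h1.const_mul 4
          rw [mul_zero] at h2
          refine h2.congr fun n => ?_
          rw [div_pow, one_pow]
          ring
        obtain ⟨n, hn⟩ := (hlim.eventually (gt_mem_nhds hε)).exists
        refine ⟨n, ?_⟩
        show closedBall (F l ω) (4 / 5 ^ n) ⊆ U
        exact (closedBall_subset_ball hn).trans hεU
    have hlim := tendsto_measure_iUnion_atTop (μ := μ) hmono
    rw [hun] at hlim
    refine le_of_tendsto_of_frequently hlim ?_
    exact hC.mono fun n hn =>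
      stepn hB μ hμ l hl hl1 n U hU.measurableSet hV C σ hσ hn
  refine Measure.AbsolutelyContinuous.mk fun N hN hN0 => ?_
  refine le_antisymm ?_ bot_le
  refine ENNReal.le_of_forall_pos_le_add ?_
  intro ε hε _
  have hε' : (0 : ℝ) < ε := by exact_mod_cast hε
  set C' : ℝ := |C| + 1 with hC'
  have hC'0 : 0 < C' := by positivity
  set σ : ℝ := ε / C' with hσ
  have hσ0 : 0 < σ := by positivity
  have hpos : (volume : Measure ℝ) N < ENNReal.ofReal (ε * σ) := by
    rw [hN0, ENNReal.ofReal_pos]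
    positivity
  obtain ⟨U, hNU, hUo, hUlt⟩ := Set.exists_isOpen_lt_of_lt N _ hpos
  have hUtop : volume U ≠ ⊤ := (hUlt.trans ENNReal.ofReal_lt_top).ne
  have h1 := hopen U hUo hUtop σ hσ0
  have h2 : (volume : Measure ℝ).real U ≤ ε * σ := by
    rw [measureReal_def]
    exact ENNReal.toReal_le_of_le_ofReal (by positivity) hUlt.le
  have h3 : (2 * σ * C + (volume : Measure ℝ).real U / σ) / 4 ≤ ε := by
    have h4 : (volume : Measure ℝ).real U / σ ≤ ε := by
      rw [div_le_iff₀ hσ0]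
      exact h2
    have h5 : σ * C ≤ ε := by
      have h6 : σ * C' = ε := by rw [hσ]; field_simp
      have h7 : C ≤ C' := by rw [hC']; linarith [le_abs_self C]
      nlinarith
    linarith
  rw [zero_add]
  calc μ.map (F l) N ≤ μ.map (F l) U := measure_mono hNU
    _ ≤ _ := h1
    _ ≤ ENNReal.ofReal ε := ENNReal.ofReal_le_ofReal h3
    _ = ε := ENNReal.ofReal_coe_nnreal

end Pool.Agent.R244.PS
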