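import Pool.Agent.R244.PS.Stm

/-!
# Piece PS-BAIRE (helper310): Baire category in the direction
-/

set_option autoImplicit false

namespace Pool.Agent.R244.PS

open MeasureTheory Set Metric Topology Filter
open scoped ENNReal NNReal

namespace BAIRE

theorem lft_cont (I : List Dg) : Continuous fun l : ℝ => lft l I := by
  induction I with
  | nil =>
    have : (fun l : ℝ => lft l []) = fun _ => 0 := by funext l; simp [lft]
    rw [this]; exact continuous_const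
  | cons i I ih =>
    have : (fun l : ℝ => lft l (i :: I)) = fun l => ((dg i.1 + l * dg i.2) + lft l I) / 5 := by
      funext l; simp [lft, off]
    rw [this]
    exact ((continuous_const.add (continuous_id.mul continuous_const)).add ih).div_const _

theorem T_cont (I : List Dg) : Continuous fun p : ℝ × ℝ => T p.1 I p.2 := by
  unfold T
  exact continuous_const.mul (continuous_snd.sub ((lft_cont I).comp continuous_fst))

/-- richness is an open condition -/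
theorem open_rich (M : ℝ) (k₀ : ℕ) :
    IsOpen {p : ℝ × ℝ | 0 < p.2 ∧ p.2 < 1 + p.1 ∧ Rich p.1 M k₀ p.2} := by
  rw [isOpen_iff_mem_nhds]
  rintro p ⟨h1, h2, Q, hQ, hanti, hM⟩
  have e1 : ∀ᶠ z : ℝ × ℝ in 𝓝 p, 0 < z.2 :=
    (isOpen_lt continuous_const continuous_snd).mem_nhds h1
  have e2 : ∀ᶠ z : ℝ × ℝ in 𝓝 p, z.2 < 1 + z.1 :=
    (isOpen_lt continuous_snd (continuous_const.add continuous_fst)).mem_nhds h2
  have e3 : ∀ᶠ z : ℝ × ℝ in 𝓝 p, ∀ I ∈ Q, 0 < T z.1 I z.2 ∧ T z.1 I z.2 < 1 + z.1 := by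
    rw [Filter.eventually_all_finset]
    intro I hI
    obtain ⟨_, g1, g2⟩ := hQ I hI
    have e4 : ∀ᶠ z : ℝ × ℝ in 𝓝 p, 0 < T z.1 I z.2 :=
      (isOpen_lt continuous_const (T_cont I)).mem_nhds g1
    have e5 : ∀ᶠ z : ℝ × ℝ in 𝓝 p, T z.1 I z.2 < 1 + z.1 :=
      (isOpen_lt (T_cont I) (continuous_const.add continuous_fst)).mem_nhds g2
    exact e4.and e5
  filter_upwards [e1, e2, e3] with z z1 z2 z3
  exact ⟨z1, z2, Q, fun I hI => ⟨(hQ I hI).1, z3 I hI⟩, hanti, hM⟩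

/-- first family -/
def G1 (M : ℝ) (k₀ j : ℕ) : Set ℝ :=
  {l | ∃ C : Set ℝ, IsCompact C ∧ (∀ t ∈ C, 0 < t ∧ t < 1 + l ∧ Rich l M k₀ t) ∧
    ENNReal.ofReal (1 + l - (1 / 2) ^ j) < volume C}

theorem open_G1 (M : ℝ) (k₀ j : ℕ) : IsOpen (G1 M k₀ j) := by
  rw [isOpen_iff_mem_nhds]
  rintro l0 ⟨C, hC, h1, h2⟩
  have e1 : ∀ᶠ l in 𝓝 l0, ∀ t ∈ C, 0 < t ∧ t < 1 + l ∧ Rich l M k₀ t := by
    apply hC.eventually_forall_of_forall_eventually
      (P := fun l t => 0 < t ∧ t < 1 + l ∧ Rich l M k₀ t)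
    intro t ht
    exact (open_rich M k₀).mem_nhds (show (l0, t) ∈ {p : ℝ × ℝ | _} from h1 t ht)
  have e2 : ∀ᶠ l in 𝓝 l0, ENNReal.ofReal (1 + l - (1 / 2) ^ j) < volume C := by
    have hc : Continuous fun l : ℝ => ENNReal.ofReal (1 + l - (1 / 2) ^ j) :=
      ENNReal.continuous_ofReal.comp (by fun_prop)
    exact (isOpen_lt hc continuous_const).mem_nhds h2
  filter_upwards [e1, e2] with l g1 g2
  exact ⟨C, hC, g1, g2⟩

/-- second family -/
def G2 (μ : Measure Om) (j : ℕ) : Set ℝ :=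
  {l | ∃ U : Set ℝ, IsOpen U ∧ volume U < ENNReal.ofReal ((1 / 2) ^ j) ∧
    (μ.map (F l)) Uᶜ < ENNReal.ofReal ((1 / 2) ^ j)}

theorem open_G2 (hB : S_BAS) (μ : Measure Om) [IsProbabilityMeasure μ] (j : ℕ) :
    IsOpen (G2 μ j) := by
  have hF : ∀ l, Measurable (F l) := fun l => (hB.2.2.2.2 l).measurable
  rw [isOpen_iff_mem_nhds]
  rintro l0 ⟨U, hU, h1, h2⟩
  have : IsProbabilityMeasure (μ.map (F l0)) :=
    Measure.isProbabilityMeasure_map (hF l0).aemeasurable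
  have h3 : Tendsto (fun r => (μ.map (F l0)) (cthickening r Uᶜ)) (𝓝 0)
      (𝓝 ((μ.map (F l0)) Uᶜ)) :=
    tendsto_measure_cthickening_of_isClosed ⟨1, one_pos, measure_ne_top _ _⟩ hU.isClosed_compl
  have h4 : Tendsto (fun l : ℝ => |l - l0|) (𝓝 l0) (𝓝 0) := by
    have : Continuous fun l : ℝ => |l - l0| := by fun_prop
    have h5 := this.tendsto l0
    simpa using h5
  have h5 : ∀ᶠ l in 𝓝 l0, (μ.map (F l0)) (cthickening |l - l0| Uᶜ)
      < ENNReal.ofReal ((1 / 2) ^ j) := (h3.comp h4).eventually_lt_const h2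
  filter_upwards [h5] with l hl
  refine ⟨U, hU, h1, lt_of_le_of_lt ?_ hl⟩
  rw [Measure.map_apply (hF l) hU.isClosed_compl.measurableSet,
    Measure.map_apply (hF l0) isClosed_cthickening.measurableSet]
  apply measure_mono
  intro ω hω
  have h6 : F l ω ∈ Uᶜ := hω
  apply mem_cthickening_of_dist_le (F l0 ω) (F l ω) _ _ h6
  rw [Real.dist_eq]
  have := hB.2.2.1 l0 l ω
  rwa [abs_sub_comm l0 l] at this

/-- density criterion -/
theorem dense_ext (G : Set ℝ) (h : ∀ a b : ℝ, 1 / 2 ≤ a → a < b → b ≤ 1 → ∃ l ∈ Ioo a b, l ∈ G) :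
    Dense (G ∪ (Iio (1 / 2) ∪ Ioi 1)) := by
  rw [dense_iff_inter_open]
  rintro V hV ⟨x, hx⟩
  obtain ⟨ε, hε, hball⟩ := Metric.isOpen_iff.1 hV x hx
  by_cases hx1 : x < 1 / 2
  · exact ⟨x, hx, Or.inr (Or.inl hx1)⟩
  by_cases hx2 : 1 < x
  · exact ⟨x, hx, Or.inr (Or.inr hx2)⟩
  push Not at hx1 hx2
  have hab : max (x - ε) (1 / 2) < min (x + ε) 1 := by
    rw [max_lt_iff, lt_min_iff, lt_min_iff]
    refine ⟨⟨by linarith, by linarith⟩, by linarith, by norm_num⟩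
  obtain ⟨l, ⟨hl1, hl2⟩, hlG⟩ := h _ _ (le_max_right _ _) hab (min_le_right _ _)
  refine ⟨l, hball ?_, Or.inl hlG⟩
  rw [Metric.mem_ball, Real.dist_eq, abs_lt]
  have h1 := (max_lt_iff.1 hl1).1
  have h2 := (lt_min_iff.1 hl2).1
  constructor <;> linarith

theorem rich_mono {l M M' : ℝ} {k₀ : ℕ} {t : ℝ} (h : M ≤ M') (hR : Rich l M' k₀ t) :
    Rich l M k₀ t := by
  obtain ⟨Q, h1, h2, h3⟩ := hR
  exact ⟨Q, h1, h2, lt_of_le_of_lt h h3⟩

theorem open_sec (l M : ℝ) (k₀ : ℕ) : IsOpen {t : ℝ | 0 < t ∧ t < 1 + l ∧ Rich l M k₀ t} :=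
  (open_rich M k₀).preimage (continuous_const.prodMk continuous_id :
    Continuous fun t : ℝ => (l, t))

theorem dense_G1 (hD : S_DENR) (M : ℝ) (k₀ j : ℕ) : ∀ a b : ℝ, 1 / 2 ≤ a → a < b → b ≤ 1 →
    ∃ l ∈ Ioo a b, l ∈ G1 M k₀ j := by
  intro a b ha hab hb
  obtain ⟨l, hl, hR⟩ := hD a b ha hab hb
  refine ⟨l, hl, ?_⟩
  have hl0 : 1 / 2 < l := lt_of_le_of_lt ha hl.1
  have hvol : volume {t : ℝ | 0 < t ∧ t < 1 + l ∧ Rich l M k₀ t} = ENNReal.ofReal (1 + l) := by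
    have h1 : volume (Ioo 0 (1 + l)) = ENNReal.ofReal (1 + l) := by
      rw [Real.volume_Ioo, sub_zero]
    rw [← h1]
    apply measure_congr
    filter_upwards [hR M k₀] with t ht
    apply propext
    constructor
    · rintro ⟨h2, h3, _⟩
      exact ⟨h2, h3⟩
    · rintro ⟨h2, h3⟩
      exact ⟨h2, h3, ht h2 h3⟩
  have hlt : ENNReal.ofReal (1 + l - (1 / 2) ^ j)
      < volume {t : ℝ | 0 < t ∧ t < 1 + l ∧ Rich l M k₀ t} := by
    rw [hvol]
    apply (ENNReal.ofReal_lt_ofReal_iff (by linarith)).2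
    have : (0 : ℝ) < (1 / 2) ^ j := by positivity
    linarith
  obtain ⟨C, hCsub, hC, hCv⟩ := (open_sec l M k₀).exists_lt_isCompact hlt
  exact ⟨C, hC, fun t ht => hCsub ht, hCv⟩

theorem dense_G2 (hS : S_SING) (μ : Measure Om) (hμ : IsUnif μ) (j : ℕ) :
    ∀ a b : ℝ, 1 / 2 ≤ a → a < b → b ≤ 1 → ∃ l ∈ Ioo a b, l ∈ G2 μ j := by
  intro a b ha hab hb
  obtain ⟨l, hl, s, hs, h1, h2⟩ := hS μ hμ a b ha hab hb
  refine ⟨l, hl, ?_⟩
  have hpos : (0 : ℝ≥0∞) < ENNReal.ofReal ((1 / 2) ^ j) := by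
    rw [ENNReal.ofReal_pos]; positivity
  obtain ⟨U, hsub, hU, hUv⟩ := sᶜ.exists_isOpen_lt_of_lt (μ := volume) _ (h2 ▸ hpos)
  refine ⟨U, hU, hUv, ?_⟩
  have h3 : Uᶜ ⊆ s := by
    intro x hx
    by_contra hxs
    exact hx (hsub hxs)
  rw [measure_mono_null h3 h1]
  exact hpos

end BAIRE

open BAIRE

/-- Piece PS-BAIRE. -/
theorem t_BAIRE (hB : S_BAS) (hD : S_DENR) (hS : S_SING) : S_GEN := by
  intro μ hμ
  have : IsProbabilityMeasure μ := hμ.1
  have hout : IsOpen (Iio (1 / 2 : ℝ) ∪ Ioi 1) := isOpen_Iio.union isOpen_Ioi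
  have hd1 : Dense (⋂ i : ℕ × ℕ × ℕ, ((G1 (i.1 : ℝ) i.2.1 i.2.2 ∩ G1 (i.1 : ℝ) i.2.1 i.2.2) ∪
      (Iio (1 / 2 : ℝ) ∪ Ioi 1)) ∩ (G2 μ i.2.2 ∪ (Iio (1 / 2 : ℝ) ∪ Ioi 1))) := by
    apply dense_iInter_of_isOpen
    · intro i
      rw [Set.inter_self]
      exact ((open_G1 _ _ _).union hout).inter ((open_G2 hB μ _).union hout)
    · intro i
      rw [Set.inter_self]
      exact (dense_ext _ (dense_G1 hD _ _ _)).inter_of_isOpen_left (dense_ext _ (dense_G2 hS μ hμ _))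
        ((open_G1 _ _ _).union hout)
  obtain ⟨l, hl, hl1, hl2⟩ := hd1.exists_between (show (1 / 2 : ℝ) < 1 by norm_num)
  have hnot : l ∉ Iio (1 / 2 : ℝ) ∪ Ioi 1 := by
    rintro (h | h)
    · exact absurd hl1 (not_lt.2 (le_of_lt h))
    · exact absurd hl2 (not_lt.2 (le_of_lt h))
  have hG1 : ∀ M k₀ j : ℕ, l ∈ G1 (M : ℝ) k₀ j := by
    intro M k₀ j
    have h := (Set.mem_iInter.1 hl (M, k₀, j)).1
    rcases h with h | h
    · exact h.1
    · exact absurd h hnot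
  have hG2 : ∀ j : ℕ, l ∈ G2 μ j := by
    intro j
    have h := (Set.mem_iInter.1 hl (0, 0, j)).2
    rcases h with h | h
    · exact h
    · exact absurd h hnot
  refine ⟨l, hl1, hl2, ?_, ?_⟩
  · -- singular
    choose U hUo hUv hUc using hG2
    have hsum : ∑' j : ℕ, ENNReal.ofReal ((1 / 2 : ℝ) ^ j) ≠ ⊤ := by
      have e : ∀ j : ℕ, ENNReal.ofReal ((1 / 2 : ℝ) ^ j) = (2⁻¹ : ℝ≥0∞) ^ j := by
        intro j
        rw [ENNReal.ofReal_pow (by norm_num), one_div,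
          ENNReal.ofReal_inv_of_pos (by norm_num)]
        norm_num
      simp only [e]
      rw [ENNReal.tsum_geometric]
      simp
    have h1 : volume {x : ℝ | ∃ᶠ n in atTop, x ∈ U n} = 0 := by
      apply measure_setOfPred_frequently_eq_zero (p := fun n x => x ∈ U n)
      apply ne_top_of_le_ne_top hsum
      apply ENNReal.tsum_le_tsum
      intro j
      exact (hUv j).le
    have h2 : (μ.map (F l)) {x : ℝ | ∀ᶠ n in atTop, x ∉ U n} = 0 := by
      have hsub : {x : ℝ | ∀ᶠ n in atTop, x ∉ U n} ⊆ ⋃ n : ℕ, {x : ℝ | ∀ k, n ≤ k → x ∉ U k} := by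
        intro x hx
        obtain ⟨n, hn⟩ := Filter.eventually_atTop.1 hx
        exact Set.mem_iUnion.2 ⟨n, hn⟩
      apply measure_mono_null hsub
      rw [measure_iUnion_null_iff]
      intro n
      have h3 : ∀ k, n ≤ k → (μ.map (F l)) {x : ℝ | ∀ k, n ≤ k → x ∉ U k}
          ≤ ENNReal.ofReal ((1 / 2) ^ k) := by
        intro k hk
        have hs : {x : ℝ | ∀ k, n ≤ k → x ∉ U k} ⊆ (U k)ᶜ := by
          intro x hx
          have hx' : ∀ k, n ≤ k → x ∉ U k := hx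
          exact hx' k hk
        exact (measure_mono hs).trans (hUc k).le
      have h4 : Tendsto (fun k : ℕ => ENNReal.ofReal ((1 / 2 : ℝ) ^ k)) atTop (𝓝 0) := by
        have h5 := (ENNReal.continuous_ofReal.tendsto 0).comp
          (tendsto_pow_atTop_nhds_zero_of_lt_one (by norm_num : (0 : ℝ) ≤ 1 / 2) (by norm_num))
        rw [ENNReal.ofReal_zero] at h5
        exact h5
      have h5 := ge_of_tendsto h4 (Filter.eventually_atTop.2 ⟨n, h3⟩)
      exact le_antisymm h5 zero_le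
    refine Measure.MutuallySingular.mk h2 h1 ?_
    intro x _
    by_cases hx : ∃ᶠ n in atTop, x ∈ U n
    · exact Or.inr hx
    · left
      rw [Filter.not_frequently] at hx
      exact hx
  · intro M k₀
    obtain ⟨M', hM'⟩ := exists_nat_ge M
    have hvol : ENNReal.ofReal (1 + l)
        ≤ volume {t : ℝ | 0 < t ∧ t < 1 + l ∧ Rich l (M' : ℝ) k₀ t} := by
      have h3 : ∀ j : ℕ, ENNReal.ofReal (1 + l - (1 / 2) ^ j)
          ≤ volume {t : ℝ | 0 < t ∧ t < 1 + l ∧ Rich l (M' : ℝ) k₀ t} := by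
        intro j
        obtain ⟨C, _, hC2, hC3⟩ := hG1 M' k₀ j
        exact hC3.le.trans (measure_mono (fun t ht => hC2 t ht))
      have h4 : Tendsto (fun j : ℕ => ENNReal.ofReal (1 + l - (1 / 2 : ℝ) ^ j)) atTop
          (𝓝 (ENNReal.ofReal (1 + l))) := by
        have h5 : Tendsto (fun j : ℕ => 1 + l - (1 / 2 : ℝ) ^ j) atTop (𝓝 (1 + l - 0)) :=
          tendsto_const_nhds.sub
            (tendsto_pow_atTop_nhds_zero_of_lt_one (by norm_num : (0 : ℝ) ≤ 1 / 2) (by norm_num))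
        rw [sub_zero] at h5
        exact (ENNReal.continuous_ofReal.tendsto _).comp h5
      exact le_of_tendsto h4 (Eventually.of_forall h3)
    have hsub : {t : ℝ | 0 < t ∧ t < 1 + l ∧ Rich l (M' : ℝ) k₀ t} ⊆ Ioo 0 (1 + l) :=
      fun t ht => ⟨ht.1, ht.2.1⟩
    have hdiff : volume (Ioo 0 (1 + l) \ {t : ℝ | 0 < t ∧ t < 1 + l ∧ Rich l (M' : ℝ) k₀ t})
        = 0 := by
      rw [measure_sdiff hsub (open_sec l M' k₀).measurableSet.nullMeasurableSet
        (ne_top_of_le_ne_top (by rw [Real.volume_Ioo]; exact ENNReal.ofReal_ne_top)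
          (measure_mono hsub)), Real.volume_Ioo, sub_zero]
      exact tsub_eq_zero_of_le hvol
    rw [ae_iff]
    apply measure_mono_null _ hdiff
    intro t ht
    have ht' : ¬(0 < t → t < 1 + l → Rich l M k₀ t) := ht
    push Not at ht'
    obtain ⟨g1, g2, g3⟩ := ht'
    refine ⟨⟨g1, g2⟩, fun hr => g3 (rich_mono hM' hr.2.2)⟩

end Pool.Agent.R244.PS
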