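import Pool.Agent.R244.PS.Stm

set_option autoImplicit false

namespace Pool.Agent.R244.PS

open MeasureTheory Set Metric Topology Filter

namespace BasAux

theorem dg_nonneg (i : Fin 3) : 0 ≤ dg i := by
  unfold dg
  positivity

theorem dg_le (i : Fin 3) : dg i ≤ 4 := by
  unfold dg
  have h : (i : ℕ) ≤ 2 := by omega
  have h' : ((i : ℕ) : ℝ) ≤ 2 := by exact_mod_cast h
  linarith

theorem off_abs (l : ℝ) (i : Dg) : |off l i| ≤ 4 + 4 * |l| := by
  unfold off
  have h1 := dg_nonneg i.1
  have h2 := dg_le i.1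
  have h3 := dg_nonneg i.2
  have h4 := dg_le i.2
  calc |dg i.1 + l * dg i.2| ≤ |dg i.1| + |l * dg i.2| := abs_add_le _ _
    _ = dg i.1 + |l| * dg i.2 := by rw [abs_mul, abs_of_nonneg h1, abs_of_nonneg h3]
    _ ≤ 4 + 4 * |l| := by nlinarith [abs_nonneg l]

theorem hasSum_four : HasSum (fun k : ℕ => (4 : ℝ) / 5 ^ (k + 1)) 1 := by
  have h := (hasSum_geometric_of_lt_one (r := (1 / 5 : ℝ)) (by norm_num) (by norm_num)).mul_left
    (4 / 5 : ℝ)
  have e1 : (4 / 5 : ℝ) * (1 - 1 / 5)⁻¹ = 1 := by norm_num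
  rw [e1] at h
  have e2 : (fun k : ℕ => (4 / 5 : ℝ) * (1 / 5) ^ k) = fun k : ℕ => (4 : ℝ) / 5 ^ (k + 1) := by
    funext k
    rw [pow_succ, div_pow, one_pow]
    field_simp
  rwa [e2] at h

theorem norm_le (l : ℝ) (ω : Om) (k : ℕ) :
    ‖off l (ω k) / 5 ^ (k + 1)‖ ≤ (1 + |l|) * (4 / 5 ^ (k + 1)) := by
  rw [norm_div, Real.norm_eq_abs, norm_pow, Real.norm_ofNat]
  have h := off_abs l (ω k)
  rw [div_le_iff₀ (by positivity)]
  have e : (1 + |l|) * (4 / 5 ^ (k + 1)) * 5 ^ (k + 1) = 4 + 4 * |l| := by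
    field_simp
  rw [e]
  exact h

theorem summ (l : ℝ) (ω : Om) : Summable (fun k : ℕ => off l (ω k) / 5 ^ (k + 1)) :=
  Summable.of_norm_bounded (hasSum_four.summable.mul_left (1 + |l|)) (norm_le l ω)

theorem F_eq (l : ℝ) (ω : Om) : F l ω = (off l (ω 0) + F l (shf 1 ω)) / 5 := by
  unfold F
  rw [(summ l ω).tsum_eq_zero_add, add_div, ← tsum_div_const]
  congr 1
  · norm_num
  · congr 1
    funext k
    unfold shf
    rw [add_comm 1 k, pow_succ _ (k + 1)]
    field_simp

theorem pre_succ (ω : Om) (n : ℕ) : pre ω (n + 1) = ω 0 :: pre (shf 1 ω) n := by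
  unfold pre shf
  rw [List.range_succ_eq_map, List.map_cons, List.map_map]
  congr 1
  apply List.map_congr_left
  intro k _
  show ω (k + 1) = ω (1 + k)
  rw [add_comm]

theorem T_nil (l t : ℝ) : T l [] t = t := by
  unfold T lft
  simp

theorem T_cons (l t : ℝ) (i : Dg) (I : List Dg) : T l (i :: I) t = T l I (5 * t - off l i) := by
  unfold T
  rw [List.length_cons, pow_succ]
  show 5 ^ I.length * 5 * (t - (off l i + lft l I) / 5) = _
  ring

theorem T_append (l : ℝ) (I J : List Dg) (t : ℝ) : T l (I ++ J) t = T l J (T l I t) := by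
  induction I generalizing t with
  | nil => rw [List.nil_append, T_nil]
  | cons i I ih => rw [List.cons_append, T_cons, T_cons, ih]

theorem T_pre (l : ℝ) (n : ℕ) : ∀ ω : Om, T l (pre ω n) (F l ω) = F l (shf n ω) := by
  induction n with
  | zero =>
    intro ω
    have h1 : pre ω 0 = [] := rfl
    have h2 : shf 0 ω = ω := by
      funext k
      unfold shf
      rw [zero_add]
    rw [h1, h2, T_nil]
  | succ n ih =>
    intro ω
    rw [pre_succ, T_cons]
    have h1 : 5 * F l ω - off l (ω 0) = F l (shf 1 ω) := by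
      rw [F_eq l ω]
      ring
    have h2 : shf (n + 1) ω = shf n (shf 1 ω) := by
      funext k
      unfold shf
      congr 1
      ring
    rw [h1, ih, h2]

end BasAux

open BasAux in
theorem t_BAS : S_BAS := by
  refine ⟨fun l ω n => T_pre l n ω, ?_, ?_, T_append, ?_⟩
  · intro l ω hl
    constructor
    · unfold F
      apply tsum_nonneg
      intro k
      unfold off
      have h1 := dg_nonneg (ω k).1
      have h3 := dg_nonneg (ω k).2
      positivity
    · have h1 := (hasSum_four.mul_left (1 + l))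
      rw [mul_one] at h1
      unfold F
      refine hasSum_le ?_ (summ l ω).hasSum h1
      intro k
      have h2 := (le_abs_self _).trans (norm_le l ω k)
      rwa [abs_of_nonneg hl] at h2
  · intro l l' ω
    have h1 : F l ω - F l' ω = ∑' k, (off l (ω k) / 5 ^ (k + 1) - off l' (ω k) / 5 ^ (k + 1)) := by
      unfold F
      rw [(summ l ω).tsum_sub (summ l' ω)]
    rw [h1]
    have h2 := hasSum_four.mul_left |l - l'|
    rw [mul_one] at h2
    rw [← Real.norm_eq_abs]
    refine tsum_of_norm_bounded h2 ?_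
    intro k
    have h3 : off l (ω k) / 5 ^ (k + 1) - off l' (ω k) / 5 ^ (k + 1) =
        (l - l') * (dg (ω k).2 / 5 ^ (k + 1)) := by
      unfold off
      ring
    rw [h3, norm_mul, Real.norm_eq_abs]
    apply mul_le_mul_of_nonneg_left _ (abs_nonneg _)
    rw [Real.norm_eq_abs, abs_of_nonneg (div_nonneg (dg_nonneg _) (by positivity))]
    exact div_le_div_of_nonneg_right (dg_le _) (by positivity)
  · intro l
    unfold F
    refine continuous_tsum (u := fun k : ℕ => (1 + |l|) * (4 / 5 ^ (k + 1))) ?_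
      (hasSum_four.summable.mul_left (1 + |l|)) ?_
    · intro k
      exact ((continuous_of_discreteTopology (f := fun i : Dg => off l i)).comp
        (continuous_apply k)).div_const _
    · intro k ω
      exact norm_le l ω k

end Pool.Agent.R244.PS
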