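import Pool.Agent.R244.PS.Stm

namespace Pool.Agent.R244.PS

open MeasureTheory Set Metric Topology Filter
open scoped ENNReal NNReal

namespace HDaux

lemma pre_length (ω : Om) (n : ℕ) : (pre ω n).length = n := by simp [pre]

lemma pre_take (ω : Om) (n k : ℕ) (h : k ≤ n) : (pre ω n).take k = pre ω k := by
  simp only [pre, ← List.map_take, List.take_range]
  rw [min_eq_left h]

lemma pre_eq_iff (ω ω' : Om) (n : ℕ) : pre ω n = pre ω' n ↔ ∀ k < n, ω k = ω' k := by
  simp [pre]

lemma mem_cyl (ω : Om) (n : ℕ) : ω ∈ cyl (pre ω n) := by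
  change pre ω (pre ω n).length = pre ω n
  rw [pre_length]

lemma mem_cyl_iff (ω : Om) (I : List Dg) : ω ∈ cyl I ↔ ∀ (k : ℕ) (h : k < I.length), ω k = I[k] := by
  change pre ω I.length = I ↔ _
  constructor
  · intro h k hk
    have h1 : I[k] = (pre ω I.length)[k]'(by rw [pre_length]; exact hk) := by
      simp only [h]
    rw [h1]
    simp [pre]
  · intro h
    apply List.ext_getElem
    · simp [pre]
    · intro k h1 h2
      rw [← h k h2]
      simp [pre]

lemma cyl_meas (I : List Dg) : MeasurableSet (cyl I) := by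
  have : cyl I = ⋂ (k : Fin I.length), {ω : Om | ω k = I[k]} := by
    ext ω
    rw [mem_cyl_iff]
    simp only [mem_iInter]
    constructor
    · intro h k; exact h k k.2
    · intro h k hk; exact h ⟨k, hk⟩
  rw [this]
  refine MeasurableSet.iInter fun k => ?_
  exact measurable_pi_apply (k : ℕ) (measurableSet_singleton _)

lemma sd_pos : 0 < sd := by
  unfold sd
  exact div_pos (Real.log_pos (by norm_num)) (Real.log_pos (by norm_num))

lemma rp5 : ((1 / 5 : ℝ)) ^ sd = 9⁻¹ := by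
  rw [Real.rpow_def_of_pos (by norm_num)]
  have h5 : Real.log 5 ≠ 0 := (Real.log_pos (by norm_num)).ne'
  have : Real.log (1 / 5) * sd = - Real.log 9 := by
    unfold sd
    rw [one_div, Real.log_inv]
    field_simp
  rw [this, Real.exp_neg, Real.exp_log (by norm_num)]

lemma h5 (k : ℕ) : (ENNReal.ofReal ((1 / 5 : ℝ) ^ k)) ^ sd = (9⁻¹ : ℝ≥0∞) ^ k := by
  rw [ENNReal.ofReal_rpow_of_nonneg (by positivity) sd_pos.le]
  have : ((1 / 5 : ℝ) ^ k) ^ sd = (9⁻¹ : ℝ) ^ k := by
    rw [← Real.rpow_natCast, ← Real.rpow_mul (by norm_num), mul_comm, Real.rpow_mul (by norm_num),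
      rp5, Real.rpow_natCast]
  rw [this, ENNReal.ofReal_pow (by norm_num), ENNReal.ofReal_inv_of_pos (by norm_num)]
  norm_num

lemma h25 (k : ℕ) : (ENNReal.ofReal (2 * (1 / 5 : ℝ) ^ k)) ^ sd =
    (2 : ℝ≥0∞) ^ sd * (9⁻¹ : ℝ≥0∞) ^ k := by
  rw [ENNReal.ofReal_mul (by norm_num), ENNReal.mul_rpow_of_nonneg _ _ sd_pos.le, h5]
  norm_num

lemma diam_cyl (hSep : S_SEP) (I : List Dg) :
    ediam (pt '' cyl I) ≤ ENNReal.ofReal (2 * (1 / 5 : ℝ) ^ I.length) := by
  apply ediam_le
  rintro _ ⟨ω, hω, rfl⟩ _ ⟨ω', hω', rfl⟩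
  rw [edist_dist]
  apply ENNReal.ofReal_le_ofReal
  exact hSep.2.1 ω ω' I.length (hω.trans hω'.symm)

/-- minimal words inside `V` -/
def Sn (V : Set E2) (n : ℕ) : Set (List Dg) :=
  {I | n ≤ I.length ∧ pt '' cyl I ⊆ V ∧ ∀ k, n ≤ k → k < I.length → ¬ pt '' cyl (I.take k) ⊆ V}

lemma Sn_disj (V : Set E2) (n : ℕ) (I J : List Dg) (hI : I ∈ Sn V n) (hJ : J ∈ Sn V n)
    (ω : Om) (h1 : ω ∈ cyl I) (h2 : ω ∈ cyl J) : I = J := by
  have h1' : pre ω I.length = I := h1
  have h2' : pre ω J.length = J := h2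
  rcases lt_trichotomy I.length J.length with h | h | h
  · exfalso
    apply hJ.2.2 I.length hI.1 h
    have : J.take I.length = I := by
      rw [← h2', pre_take ω _ _ h.le, h1']
    rw [this]
    exact hI.2.1
  · rw [← h1', ← h2', h]
  · exfalso
    apply hI.2.2 J.length hJ.1 h
    have : I.take J.length = J := by
      rw [← h1', pre_take ω _ _ h.le, h2']
    rw [this]
    exact hJ.2.1

lemma pow_tendsto : Tendsto (fun n : ℕ => ENNReal.ofReal (2 * (1 / 5 : ℝ) ^ n)) atTop (𝓝 0) := by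
  have h1 : Tendsto (fun n : ℕ => 2 * (1 / 5 : ℝ) ^ n) atTop (𝓝 (2 * 0)) :=
    (tendsto_pow_atTop_nhds_zero_of_lt_one (by norm_num) (by norm_num)).const_mul 2
  rw [mul_zero] at h1
  have := ENNReal.tendsto_ofReal h1
  rwa [ENNReal.ofReal_zero] at this

lemma cover (hSep : S_SEP) (V : Set E2) (hV : IsOpen V) (n : ℕ) :
    V ∩ K ⊆ ⋃ i : Sn V n, pt '' cyl i.1 := by
  classical
  rintro _ ⟨hxV, ω, rfl⟩
  obtain ⟨ε, hε, hball⟩ := Metric.isOpen_iff.mp hV _ hxV
  have h1 : Tendsto (fun n : ℕ => 2 * (1 / 5 : ℝ) ^ n) atTop (𝓝 (2 * 0)) :=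
    (tendsto_pow_atTop_nhds_zero_of_lt_one (by norm_num) (by norm_num)).const_mul 2
  rw [mul_zero] at h1
  have h2 : ∃ k, n ≤ k ∧ pt '' cyl (pre ω k) ⊆ V := by
    have h3 := (h1.eventually (gt_mem_nhds hε)).and (eventually_ge_atTop n)
    obtain ⟨k, hk, hnk⟩ := h3.exists
    refine ⟨k, hnk, ?_⟩
    rintro _ ⟨ω', hω', rfl⟩
    apply hball
    rw [Metric.mem_ball]
    have h4 : pre ω' (pre ω k).length = pre ω k := hω'
    rw [pre_length] at h4
    exact (hSep.2.1 ω' ω k h4).trans_lt hk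
  have hmin := Nat.find_spec h2
  set k := Nat.find h2 with hkdef
  rw [mem_iUnion]
  refine ⟨⟨pre ω k, ?_, hmin.2, ?_⟩, ⟨ω, mem_cyl ω k, rfl⟩⟩
  · rw [pre_length]; exact hmin.1
  · intro j hj hjk hsub
    rw [pre_length] at hjk
    rw [pre_take ω k j hjk.le] at hsub
    exact Nat.find_min h2 hjk ⟨hj, hsub⟩

lemma upper_open (hSep : S_SEP) (μ : Measure Om) (hμ : IsUnif μ) (V : Set E2) (hV : IsOpen V) :
    (Measure.hausdorffMeasure sd : Measure E2) (V ∩ K) ≤ (2 : ℝ≥0∞) ^ sd * (μ.map pt) V := by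
  have hpt : Measurable pt := hSep.2.2.2.measurable
  have hb : ∀ n, ∑' i : Sn V n, ediam (pt '' cyl i.1) ^ sd ≤ (2 : ℝ≥0∞) ^ sd * (μ.map pt) V := by
    intro n
    calc ∑' i : Sn V n, ediam (pt '' cyl i.1) ^ sd
        ≤ ∑' i : Sn V n, (2 : ℝ≥0∞) ^ sd * μ (cyl i.1) := by
          apply ENNReal.tsum_le_tsum
          intro i
          rw [hμ.2, ← h25]
          exact ENNReal.rpow_le_rpow (diam_cyl hSep i.1) sd_pos.le
      _ = (2 : ℝ≥0∞) ^ sd * ∑' i : Sn V n, μ (cyl i.1) := ENNReal.tsum_mul_left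
      _ = (2 : ℝ≥0∞) ^ sd * μ (⋃ i : Sn V n, cyl i.1) := by
          rw [measure_iUnion]
          · intro i j hij
            rw [Function.onFun, Set.disjoint_left]
            intro ω h1 h2
            exact hij (Subtype.ext (Sn_disj V n i.1 j.1 i.2 j.2 ω h1 h2))
          · intro i
            exact cyl_meas i.1
      _ ≤ (2 : ℝ≥0∞) ^ sd * (μ.map pt) V := by
          rw [Measure.map_apply hpt hV.measurableSet]
          gcongr
          apply iUnion_subset
          intro i ω hω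
          exact i.2.2.1 ⟨ω, hω, rfl⟩
  refine (Measure.hausdorffMeasure_le_liminf_tsum (β := ℕ) (ι := fun n => Sn V n) sd (V ∩ K)
    (l := atTop) (fun n => ENNReal.ofReal (2 * (1 / 5 : ℝ) ^ n)) pow_tendsto
    (fun n i => pt '' cyl i.1) ?_ ?_).trans ?_
  · refine Eventually.of_forall fun n i => ?_
    refine (diam_cyl hSep i.1).trans (ENNReal.ofReal_le_ofReal ?_)
    have := pow_le_pow_of_le_one (a := (1 / 5 : ℝ)) (by norm_num) (by norm_num) i.2.1
    linarith
  · exact Eventually.of_forall fun n => cover hSep V hV n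
  · calc liminf (fun n => ∑' i : Sn V n, ediam (pt '' cyl i.1) ^ sd) atTop
        ≤ liminf (fun _ : ℕ => (2 : ℝ≥0∞) ^ sd * (μ.map pt) V) atTop :=
          liminf_le_liminf (Eventually.of_forall hb)
      _ = _ := liminf_const _

lemma upper (hSep : S_SEP) (μ : Measure Om) (hμ : IsUnif μ) (A : Set E2) :
    (Measure.hausdorffMeasure sd : Measure E2) (A ∩ K) ≤ (2 : ℝ≥0∞) ^ sd * (μ.map pt) A := by
  have hpt : Measurable pt := hSep.2.2.2.measurable
  haveI := hμ.1
  haveI : IsProbabilityMeasure (μ.map pt) := Measure.isProbabilityMeasure_map hpt.aemeasurable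
  have hc : (2 : ℝ≥0∞) ^ sd ≠ ⊤ := ENNReal.rpow_ne_top_of_nonneg sd_pos.le (by norm_num)
  have h1 : ∀ ε : ℝ≥0∞, ε ≠ 0 → (Measure.hausdorffMeasure sd : Measure E2) (A ∩ K) ≤
      (2 : ℝ≥0∞) ^ sd * ((μ.map pt) A + ε) := by
    intro ε hε
    obtain ⟨V, hAV, hV, hle⟩ := A.exists_isOpen_le_add (μ.map pt) hε
    calc (Measure.hausdorffMeasure sd : Measure E2) (A ∩ K)
        ≤ (Measure.hausdorffMeasure sd : Measure E2) (V ∩ K) :=
          measure_mono (inter_subset_inter_left _ hAV)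
      _ ≤ (2 : ℝ≥0∞) ^ sd * (μ.map pt) V := upper_open hSep μ hμ V hV
      _ ≤ _ := by gcongr
  have h2 : Tendsto (fun ε : ℝ≥0∞ => (2 : ℝ≥0∞) ^ sd * ((μ.map pt) A + ε)) (𝓝[≠] 0)
      (𝓝 ((2 : ℝ≥0∞) ^ sd * ((μ.map pt) A + 0))) := by
    apply Tendsto.mono_left _ nhdsWithin_le_nhds
    apply ENNReal.Tendsto.const_mul _ (Or.inr hc)
    exact tendsto_const_nhds.add tendsto_id
  rw [add_zero] at h2
  haveI : (𝓝[≠] (0 : ℝ≥0∞)).NeBot := by
    apply mem_closure_iff_nhdsWithin_neBot.mp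
    rw [mem_closure_iff_nhds]
    intro t ht
    have := ENNReal.tendsto_inv_nat_nhds_zero
    obtain ⟨n, hn⟩ := (this.eventually ht).exists
    exact ⟨_, hn, by simp⟩
  exact ge_of_tendsto h2 (eventually_nhdsWithin_of_forall fun ε hε => h1 ε hε)

/-- small sets have small measure -/
lemma small (hSep : S_SEP) (μ : Measure Om) (hμ : IsUnif μ) (E : Set E2) (n : ℕ)
    (hE : ediam E < ENNReal.ofReal ((1 / 5 : ℝ) ^ n)) : (μ.map pt) E ≤ (9⁻¹ : ℝ≥0∞) ^ n := by
  have hpt : Measurable pt := hSep.2.2.2.measurable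
  calc (μ.map pt) E ≤ (μ.map pt) (closure E) := measure_mono subset_closure
    _ = μ (pt ⁻¹' closure E) := Measure.map_apply hpt isClosed_closure.measurableSet
    _ ≤ (9⁻¹ : ℝ≥0∞) ^ n := by
      rcases (pt ⁻¹' closure E).eq_empty_or_nonempty with h | ⟨ω, hω⟩
      · rw [h]; simp
      · have hsub : pt ⁻¹' closure E ⊆ cyl (pre ω n) := by
          intro ω' hω'
          change pre ω' (pre ω n).length = pre ω n
          rw [pre_length]
          by_contra hne
          rw [pre_eq_iff] at hne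
          push Not at hne
          classical
          have hspec := Nat.find_spec hne
          set j := Nat.find hne
          have hpre : pre ω' j = pre ω j := by
            rw [pre_eq_iff]
            intro k hk
            by_contra hk2
            exact Nat.find_min hne hk ⟨hk.trans hspec.1, hk2⟩
          have h1 := hSep.1 ω' ω j hpre hspec.2
          have h2 : edist (pt ω') (pt ω) ≤ ediam (closure E) := edist_le_ediam_of_mem hω' hω
          rw [ediam_closure] at h2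
          have h3 := h2.trans_lt hE
          rw [edist_dist] at h3
          have h4 := (ENNReal.ofReal_lt_ofReal_iff (by positivity)).mp h3
          have h5 : (1 / 5 : ℝ) ^ n ≤ (1 / 5 : ℝ) ^ (j + 1) :=
            pow_le_pow_of_le_one (by norm_num) (by norm_num) (by omega)
          linarith
        calc μ (pt ⁻¹' closure E) ≤ μ (cyl (pre ω n)) := measure_mono hsub
          _ = _ := by rw [hμ.2, pre_length]

lemma lower_set (hSep : S_SEP) (μ : Measure Om) (hμ : IsUnif μ) (E : Set E2) :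
    (μ.map pt) E ≤ 9 * ediam E ^ sd := by
  have hpt : Measurable pt := hSep.2.2.2.measurable
  haveI := hμ.1
  haveI : IsProbabilityMeasure (μ.map pt) := Measure.isProbabilityMeasure_map hpt.aemeasurable
  by_cases h1 : 1 ≤ ediam E
  · calc (μ.map pt) E ≤ 1 := prob_le_one
      _ ≤ 9 * 1 := by norm_num
      _ ≤ 9 * ediam E ^ sd := by
          gcongr
          exact ENNReal.one_le_rpow h1 sd_pos
  · push Not at h1
    by_cases h0 : ediam E = 0
    · have h2 : ∀ n : ℕ, (μ.map pt) E ≤ (9⁻¹ : ℝ≥0∞) ^ n := by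
        intro n
        apply small hSep μ hμ
        rw [h0]
        exact ENNReal.ofReal_pos.mpr (by positivity)
      have h3 : Tendsto (fun n : ℕ => (9⁻¹ : ℝ≥0∞) ^ n) atTop (𝓝 0) :=
        ENNReal.tendsto_pow_atTop_nhds_zero_of_lt_one (by
          rw [ENNReal.inv_lt_one]; norm_num)
      exact (ge_of_tendsto' h3 h2).trans zero_le
    · -- choose the scale
      classical
      have hex : ∃ n : ℕ, ENNReal.ofReal ((1 / 5 : ℝ) ^ n) ≤ ediam E := by
        have h3 : Tendsto (fun n : ℕ => ENNReal.ofReal ((1 / 5 : ℝ) ^ n)) atTop (𝓝 0) := by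
          have := ENNReal.tendsto_ofReal (tendsto_pow_atTop_nhds_zero_of_lt_one
            (r := (1 / 5 : ℝ)) (by norm_num) (by norm_num))
          rwa [ENNReal.ofReal_zero] at this
        obtain ⟨n, hn⟩ := (h3.eventually (gt_mem_nhds (pos_iff_ne_zero.mpr h0))).exists
        exact ⟨n, hn.le⟩
      have hspec := Nat.find_spec hex
      have hmin := fun m => Nat.find_min hex (m := m)
      set n := Nat.find hex
      have hn0 : n ≠ 0 := by
        intro h
        rw [h, pow_zero, ENNReal.ofReal_one] at hspec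
        exact absurd hspec (not_le.mpr h1)
      obtain ⟨k, hk⟩ := Nat.exists_eq_succ_of_ne_zero hn0
      have h2 : ediam E < ENNReal.ofReal ((1 / 5 : ℝ) ^ k) := by
        have := hmin k (by omega)
        exact not_le.mp this
      calc (μ.map pt) E ≤ (9⁻¹ : ℝ≥0∞) ^ k := small hSep μ hμ E k h2
        _ = 9 * (9⁻¹ : ℝ≥0∞) ^ (k + 1) := by
            rw [pow_succ, mul_comm ((9⁻¹ : ℝ≥0∞) ^ k), ← mul_assoc,
              ENNReal.mul_inv_cancel (by norm_num) (by norm_num), one_mul]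
        _ = 9 * (ENNReal.ofReal ((1 / 5 : ℝ) ^ (k + 1))) ^ sd := by rw [h5]
        _ ≤ 9 * ediam E ^ sd := by
            rw [hk] at hspec
            exact mul_le_mul_right (ENNReal.rpow_le_rpow hspec sd_pos.le) 9

lemma lower (hSep : S_SEP) (μ : Measure Om) (hμ : IsUnif μ) :
    (9⁻¹ : ℝ≥0∞) • (μ.map pt) ≤ (Measure.hausdorffMeasure sd : Measure E2) := by
  apply Measure.le_hausdorffMeasure sd _ 1 one_pos
  intro s _
  rw [Measure.smul_apply, smul_eq_mul]
  calc (9⁻¹ : ℝ≥0∞) * (μ.map pt) s ≤ 9⁻¹ * (9 * ediam s ^ sd) := by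
        gcongr
        exact lower_set hSep μ hμ s
    _ = ediam s ^ sd := by
        rw [← mul_assoc, ENNReal.inv_mul_cancel (by norm_num) (by norm_num), one_mul]

end HDaux

open HDaux in
theorem t_HD (hSep : S_SEP) (hU : S_UNIF) : S_HD := by
  have hpt : Measurable pt := hSep.2.2.2.measurable
  refine ⟨?_, ?_⟩
  · obtain ⟨μ, hμ⟩ := hU
    haveI := hμ.1
    haveI : IsProbabilityMeasure (μ.map pt) := Measure.isProbabilityMeasure_map hpt.aemeasurable
    have hc : (2 : ℝ≥0∞) ^ sd ≠ ⊤ := ENNReal.rpow_ne_top_of_nonneg sd_pos.le (by norm_num)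
    have hcoe : ((sd.toNNReal : ℝ≥0) : ℝ) = sd := Real.coe_toNNReal sd sd_pos.le
    have htop : (Measure.hausdorffMeasure ((sd.toNNReal : ℝ≥0) : ℝ) : Measure E2) K ≠ ⊤ := by
      rw [hcoe]
      have h := upper hSep μ hμ univ
      rw [univ_inter, measure_univ, mul_one] at h
      exact ne_top_of_le_ne_top hc h
    have hne : (Measure.hausdorffMeasure ((sd.toNNReal : ℝ≥0) : ℝ) : Measure E2) K ≠ 0 := by
      rw [hcoe]
      have h1 : (1 : ℝ≥0∞) ≤ (μ.map pt) K := by
        have h2 := Measure.le_map_apply hpt.aemeasurable (μ := μ) K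
        have h3 : pt ⁻¹' K = univ := by
          ext ω; simp [K]
        rwa [h3, measure_univ] at h2
      have h4 := lower hSep μ hμ K
      rw [Measure.smul_apply, smul_eq_mul] at h4
      have h5 : (0 : ℝ≥0∞) < 9⁻¹ * (μ.map pt) K := by
        apply ENNReal.mul_pos
        · simp
        · exact (lt_of_lt_of_le one_pos h1).ne'
      exact (lt_of_lt_of_le h5 h4).ne'
    exact dimH_of_hausdorffMeasure_ne_zero_ne_top hne htop
  · intro μ hμ
    refine ⟨(2 : ℝ≥0) ^ sd, fun A _ => ?_⟩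
    rw [ENNReal.coe_rpow_of_nonneg _ sd_pos.le]
    exact upper hSep μ hμ A

end Pool.Agent.R244.PS
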