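import Pool.Agent.R244.PS.Stm

namespace Pool.Agent.R244.PS

open MeasureTheory Set Metric Topology Filter
open scoped ENNReal NNReal Classical

theorem MARK_pre_length (ω : Om) (n : ℕ) : (pre ω n).length = n := by simp [pre]

theorem MARK_mem_cyl (ω : Om) (I : List Dg) :
    ω ∈ cyl I ↔ ∀ k (h : k < I.length), ω k = I[k] := by
  unfold cyl
  rw [mem_setOf_eq]
  constructor
  · intro h k hk
    have h1 : (pre ω I.length)[k]'(by rw [MARK_pre_length]; exact hk) = I[k] := by
      simp only [h]
    rw [← h1]
    simp [pre]
  · intro h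
    apply List.ext_getElem
    · exact MARK_pre_length _ _
    · intro k h1 h2
      rw [← h k h2]
      simp [pre]

theorem MARK_meas_cyl (I : List Dg) : MeasurableSet (cyl I) := by
  have h : cyl I = ⋂ k, ⋂ (h : k < I.length), (fun ω : Om => ω k) ⁻¹' {I[k]} := by
    ext ω
    rw [MARK_mem_cyl]
    simp
  rw [h]
  exact MeasurableSet.iInter fun k => MeasurableSet.iInter fun h =>
    (measurable_pi_apply k) (measurableSet_singleton _)

theorem MARK_pre_add (ω : Om) (m n : ℕ) : pre ω (m + n) = pre ω m ++ pre (shf m ω) n := by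
  unfold pre shf
  rw [List.range_add, List.map_append, List.map_map]
  rfl

theorem MARK_cyl_append (I J : List Dg) :
    cyl I ∩ {ω | shf I.length ω ∈ cyl J} = cyl (I ++ J) := by
  ext ω
  simp only [cyl, mem_inter_iff, mem_setOf_eq, List.length_append, MARK_pre_add]
  constructor
  · rintro ⟨h1, h2⟩
    rw [h1, h2]
  · intro h
    exact List.append_inj h (MARK_pre_length _ _)

theorem MARK_meas_shf (n : ℕ) : Measurable (shf n) :=
  measurable_pi_lambda _ fun k => measurable_pi_apply _

theorem MARK_gen : (inferInstance : MeasurableSpace Om) =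
    MeasurableSpace.generateFrom (Set.range cyl) := by
  apply le_antisymm
  · refine iSup_le fun k => ?_
    rw [← measurable_iff_comap_le]
    refine @measurable_to_countable' _ _ _ _ (MeasurableSpace.generateFrom (Set.range cyl)) _ ?_
    intro i
    have h : (fun ω : Om => ω k) ⁻¹' {i} = ⋃ J : {J : List Dg // J.length = k}, cyl (J.1 ++ [i]) := by
      ext ω
      simp only [mem_preimage, mem_singleton_iff, mem_iUnion]
      constructor
      · intro h
        refine ⟨⟨pre ω k, MARK_pre_length _ _⟩, ?_⟩
        rw [MARK_mem_cyl]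
        intro j hj
        simp only [List.length_append, List.length_singleton, MARK_pre_length] at hj
        by_cases hjk : j < k
        · rw [List.getElem_append_left (by rw [MARK_pre_length]; exact hjk)]
          simp [pre]
        · have hjk2 : j = k := by omega
          subst hjk2
          rw [List.getElem_append_right (by rw [MARK_pre_length])]
          simp [h]
      · rintro ⟨⟨J, hJ⟩, h⟩
        rw [MARK_mem_cyl] at h
        have h1 := h k (by simp [hJ])
        rw [h1]
        simp only
        rw [List.getElem_append_right (by rw [hJ])]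
        simp
    rw [h]
    exact MeasurableSet.iUnion fun J => MeasurableSpace.measurableSet_generateFrom ⟨_, rfl⟩
  · apply MeasurableSpace.generateFrom_le
    rintro _ ⟨I, rfl⟩
    exact MARK_meas_cyl I

theorem MARK_sub {I J : List Dg} (h : I.length ≤ J.length) (hne : (cyl I ∩ cyl J).Nonempty) :
    cyl I ∩ cyl J = cyl J := by
  obtain ⟨ω, h1, h2⟩ := hne
  apply inter_eq_right.2
  intro ω' hω'
  rw [MARK_mem_cyl] at *
  intro k hk
  rw [hω' k (by omega), ← h2 k (by omega), h1 k hk]

theorem MARK_pi : IsPiSystem (Set.range cyl) := by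
  rintro _ ⟨I, rfl⟩ _ ⟨J, rfl⟩ hne
  rcases le_total I.length J.length with h | h
  · exact ⟨J, (MARK_sub h hne).symm⟩
  · rw [inter_comm] at hne ⊢
    exact ⟨I, (MARK_sub h hne).symm⟩

theorem t_MARK : S_MARK := by
  intro μ hμ I E hE
  obtain ⟨hP, hc⟩ := hμ
  have key : (μ.restrict (cyl I)).map (shf I.length) = (9⁻¹ : ℝ≥0∞) ^ I.length • μ := by
    apply ext_of_generate_finite _ MARK_gen MARK_pi
    · rintro _ ⟨J, rfl⟩
      rw [Measure.map_apply (MARK_meas_shf _) (MARK_meas_cyl J),
        Measure.restrict_apply (MARK_meas_shf _ (MARK_meas_cyl J)), inter_comm]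
      have h1 : cyl I ∩ shf I.length ⁻¹' cyl J = cyl (I ++ J) := MARK_cyl_append I J
      rw [h1, hc, Measure.smul_apply, hc, List.length_append, pow_add, smul_eq_mul]
    · rw [Measure.map_apply (MARK_meas_shf _) MeasurableSet.univ, preimage_univ,
        Measure.restrict_apply_univ, hc, Measure.smul_apply, measure_univ, smul_eq_mul, mul_one]
  have h2 : (μ.restrict (cyl I)).map (shf I.length) E = ((9⁻¹ : ℝ≥0∞) ^ I.length • μ) E := by
    rw [key]
  rw [Measure.map_apply (MARK_meas_shf _) hE, Measure.restrict_apply (MARK_meas_shf _ hE),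
    inter_comm, Measure.smul_apply, smul_eq_mul] at h2
  exact h2

end Pool.Agent.R244.PS
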