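import Pool.Agent.R244.PS.Stm

/-! Piece PACK: rich slices have infinite packing measure. -/

namespace Pool.Agent.R244.PS

open MeasureTheory Set Metric Topology Filter
open scoped ENNReal NNReal

namespace PackX

/-- concatenation of a finite and an infinite word -/
def cat (I : List Dg) (ω : Om) : Om := fun k => I.getD k (ω (k - I.length))

theorem shf_cat (I : List Dg) (ω : Om) : shf I.length (cat I ω) = ω := by
  funext k
  show I.getD (I.length + k) (ω (I.length + k - I.length)) = ω k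
  rw [List.getD_eq_default _ _ (by omega)]
  congr 1
  omega

theorem pre_length (ω : Om) (n : ℕ) : (pre ω n).length = n := by
  unfold pre
  simp

theorem pre_get (ω : Om) (n k : ℕ) (h : k < (pre ω n).length) : (pre ω n)[k] = ω k := by
  unfold pre at h ⊢
  simp

theorem pre_cat (I : List Dg) (ω : Om) : pre (cat I ω) I.length = I := by
  refine List.ext_getElem (pre_length _ _) fun k h1 h2 => ?_
  rw [pre_get]
  exact List.getD_eq_getElem _ _ h2

theorem pre_take (ω : Om) {k m : ℕ} (h : k ≤ m) : (pre ω m).take k = pre ω k := by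
  refine List.ext_getElem ?_ fun j h1 h2 => ?_
  · rw [List.length_take, pre_length, pre_length, min_eq_left h]
  · rw [List.getElem_take, pre_get, pre_get]

theorem pre_eq {ω ω' : Om} {n : ℕ} (h : ∀ k < n, ω k = ω' k) : pre ω n = pre ω' n := by
  refine List.ext_getElem (by rw [pre_length, pre_length]) fun k h1 h2 => ?_
  rw [pre_get, pre_get]
  rw [pre_length] at h1
  exact h k h1

/-- the first difference -/
theorem first_diff {ω ω' : Om} {I J J' : List Dg} (h : pre ω (I.length + J.length) = I ++ J)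
    (h' : pre ω' (I.length + J'.length) = I ++ J') (h1 : ¬ J <+: J') (h2 : ¬ J' <+: J) :
    ∃ j, j < I.length + J.length ∧ j < I.length + J'.length ∧ pre ω j = pre ω' j ∧
      ω j ≠ ω' j := by
  classical
  have key : ∃ k, k < I.length + J.length ∧ k < I.length + J'.length ∧ ω k ≠ ω' k := by
    by_contra hcon
    push Not at hcon
    rcases le_total J.length J'.length with hl | hl
    · apply h1
      have h3 : pre ω (I.length + J.length) = pre ω' (I.length + J.length) :=
        pre_eq fun k hk => hcon k hk (by omega)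
      rw [← pre_take ω' (show I.length + J.length ≤ I.length + J'.length by omega), h, h',
        List.take_length_add_append] at h3
      have h4 := List.append_cancel_left h3
      rw [h4]
      exact List.take_prefix _ _
    · apply h2
      have h3 : pre ω' (I.length + J'.length) = pre ω (I.length + J'.length) :=
        pre_eq fun k hk => (hcon k (by omega) hk).symm
      rw [← pre_take ω (show I.length + J'.length ≤ I.length + J.length by omega), h, h',
        List.take_length_add_append] at h3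
      have h4 := List.append_cancel_left h3
      rw [h4]
      exact List.take_prefix _ _
  obtain ⟨k, hk1, hk2, hk3⟩ := key
  have hex : ∃ k, ω k ≠ ω' k := ⟨k, hk3⟩
  refine ⟨Nat.find hex, lt_of_le_of_lt (Nat.find_min' hex hk3) hk1,
    lt_of_le_of_lt (Nat.find_min' hex hk3) hk2, ?_, Nat.find_spec hex⟩
  refine pre_eq fun j hj => ?_
  by_contra hne
  exact Nat.find_min hex hj hne

theorem rpow_fifth : (1 / 5 : ℝ) ^ (sd - 1) = 5 / 9 := by
  have h5 : Real.log 5 ≠ 0 := (Real.log_pos (by norm_num)).ne'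
  have h1 : (1 / 5 : ℝ) ^ sd = 1 / 9 := by
    rw [Real.rpow_def_of_pos (by norm_num)]
    have h2 : Real.log (1 / 5) * sd = Real.log (1 / 9) := by
      unfold sd
      rw [Real.log_div one_ne_zero (by norm_num), Real.log_div one_ne_zero (by norm_num),
        Real.log_one, zero_sub, zero_sub]
      field_simp
    rw [h2, Real.exp_log (by norm_num)]
  rw [Real.rpow_sub (by norm_num), h1, Real.rpow_one]
  norm_num

theorem weight (m : ℕ) : (ENNReal.ofReal (2 * (3 / 10 * (1 / 5 : ℝ) ^ m))) ^ (sd - 1) =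
    ENNReal.ofReal ((3 / 5 : ℝ) ^ (sd - 1) * (5 / 9) ^ m) := by
  rw [ENNReal.ofReal_rpow_of_pos (by positivity)]
  congr 1
  have h1 : 2 * (3 / 10 * (1 / 5 : ℝ) ^ m) = 3 / 5 * (1 / 5 : ℝ) ^ m := by ring
  rw [h1, Real.mul_rpow (by norm_num) (by positivity), ← Real.rpow_natCast,
    ← Real.rpow_mul (by norm_num), mul_comm (m : ℝ), Real.rpow_mul (by norm_num), rpow_fifth,
    Real.rpow_natCast]

end PackX

open PackX in
theorem t_PACK (hB : S_BAS) (hP : S_PROJ) (hSep : S_SEP) : S_PACK := by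
  classical
  intro l hl1 hl2 t ht1 ht2 H1 H2
  obtain ⟨b1, b2, -, b4, -⟩ := hB
  obtain ⟨s1, s2, s3, s4⟩ := hSep
  have hl0 : 0 ≤ l := by linarith
  obtain ⟨A, hA⟩ : ∃ A : Set E2, A = K ∩ {x : E2 | x 0 + l * x 1 = t} := ⟨_, rfl⟩
  rw [← hA]
  have hAc : IsCompact A := by
    rw [hA]
    refine IsCompact.inter_right (isCompact_range s4) ?_
    exact isClosed_eq (by fun_prop) continuous_const
  have hAmem : ∀ ω, F l ω = t → pt ω ∈ A := by
    intro ω hω
    rw [hA]
    refine ⟨⟨ω, rfl⟩, ?_⟩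
    show (pt ω) 0 + l * (pt ω) 1 = t
    rw [s3, hω]
  have hAne : A.Nonempty := by
    obtain ⟨ω, hω⟩ := hP l hl1 hl2 t ht1.le ht2.le
    exact ⟨_, hAmem ω hω⟩
  have hcpt : CompactSpace A := isCompact_iff_compactSpace.1 hAc
  have hne : Nonempty A := hAne.to_subtype
  unfold packM
  rw [eq_top_iff]
  refine le_iInf₂ fun B hAB => ?_
  -- Baire
  obtain ⟨i, x, hx⟩ := nonempty_interior_of_iUnion_of_closed
    (f := fun i => closure ((Subtype.val : A → E2) ⁻¹' (B i))) (fun i => isClosed_closure) (by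
      rw [eq_univ_iff_forall]
      intro a
      obtain ⟨i, hi⟩ := mem_iUnion.1 (hAB a.2)
      exact mem_iUnion.2 ⟨i, subset_closure hi⟩)
  rw [mem_interior_iff_mem_nhds, Metric.mem_nhds_iff] at hx
  obtain ⟨r, hr, hball⟩ := hx
  have happ : ∀ ω, F l ω = t → dist (pt ω) x < r → ∀ η : ℝ, 0 < η →
      ∃ b ∈ B i, dist (pt ω) b < η := by
    intro ω hω hd η hη
    have h1 : (⟨pt ω, hAmem ω hω⟩ : A) ∈ closure ((Subtype.val : A → E2) ⁻¹' (B i)) := hball hd
    obtain ⟨b, hb, hdb⟩ := Metric.mem_closure_iff.1 h1 η hη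
    exact ⟨b, hb, hdb⟩
  obtain ⟨w, hw⟩ : ∃ w, pt w = (x : E2) ∧ F l w = t := by
    have hsub : ∀ a, a ∈ A → a ∈ K ∩ {x : E2 | x 0 + l * x 1 = t} := by
      intro a ha
      rw [← hA]
      exact ha
    obtain ⟨⟨w, hw⟩, h2⟩ := hsub _ x.2
    refine ⟨w, hw, ?_⟩
    rw [← s3, hw]
    exact h2
  obtain ⟨hwx, hwt⟩ := hw
  obtain ⟨n, hn⟩ := exists_pow_lt_of_lt_one (show 0 < r / 2 by positivity)
    (by norm_num : (1 / 5 : ℝ) < 1)
  have hT0 : T l (pre w n) t = F l (shf n w) := by
    rw [← hwt]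
    exact b1 l w n
  have hT1 : 0 < T l (pre w n) t ∧ T l (pre w n) t < 1 + l := by
    have h1 := b2 l (shf n w) hl0
    rw [← hT0] at h1
    exact H1 _ h1.1 h1.2
  have hrich := H2 _ hT1.1 hT1.2
  have hlen : (pre w n).length = n := pre_length w n
  have hc : (0 : ℝ) < (3 / 5 : ℝ) ^ (sd - 1) * (5 / 9) ^ n := by positivity
  -- the packing premeasure
  have hpre : ∀ δ : ℝ, 0 < δ → packPre (sd - 1) δ (B i) = ⊤ := by
    intro δ hδ
    refine ENNReal.eq_top_of_forall_nnreal_le fun R => ?_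
    obtain ⟨k₀, hk₀⟩ := exists_pow_lt_of_lt_one hδ (by norm_num : (1 / 5 : ℝ) < 1)
    obtain ⟨Qs, hQ1, hQ2, hQ3⟩ := hrich ((R : ℝ) / ((3 / 5 : ℝ) ^ (sd - 1) * (5 / 9) ^ n)) k₀
    -- the words
    have hword : ∀ J ∈ Qs, ∃ ω, F l ω = t ∧ pre ω (n + J.length) = pre w n ++ J := by
      intro J hJ
      obtain ⟨-, h1, h2⟩ := hQ1 J hJ
      rw [← b4] at h1 h2
      obtain ⟨v, hv⟩ := hP l hl1 hl2 _ h1.le h2.le
      have hlen2 : (pre w n ++ J).length = n + J.length := by
        rw [List.length_append, hlen]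
      refine ⟨cat (pre w n ++ J) v, ?_, ?_⟩
      · have h3 := b1 l (cat (pre w n ++ J) v) (pre w n ++ J).length
        rw [shf_cat, pre_cat, hv] at h3
        unfold T at h3
        have h4 : (5 : ℝ) ^ (pre w n ++ J).length ≠ 0 := by positivity
        have h5 := mul_left_cancel₀ h4 h3
        linarith
      · rw [← hlen2]
        exact pre_cat _ _
    have hpt : ∀ J : List Dg, ∃ (ω : Om) (b : E2), J ∈ Qs → F l ω = t ∧
        pre ω (n + J.length) = pre w n ++ J ∧ b ∈ B i ∧
        dist (pt ω) b < 1 / 10 * (1 / 5 : ℝ) ^ (n + J.length) := by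
      intro J
      by_cases hJ : J ∈ Qs
      · obtain ⟨ω, hω1, hω2⟩ := hword J hJ
        have h1 : pre ω n = pre w n := by
          rw [← pre_take ω (Nat.le_add_right n J.length), hω2, List.take_append_of_le_length
            (by rw [hlen]), List.take_of_length_le (by rw [hlen])]
        have h2 : dist (pt ω) x < r := by
          rw [← hwx]
          have h3 := s2 ω w n h1
          linarith
        obtain ⟨b, hb, hd⟩ := happ ω hω1 h2 (1 / 10 * (1 / 5 : ℝ) ^ (n + J.length)) (by positivity)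
        exact ⟨ω, b, fun _ => ⟨hω1, hω2, hb, hd⟩⟩
      · exact ⟨w, x, fun h => absurd h hJ⟩
    choose ω b hωb using hpt
    have hdisj : ∀ J ∈ Qs, ∀ J' ∈ Qs, J ≠ J' →
        Disjoint (closedBall (b J) (3 / 10 * (1 / 5 : ℝ) ^ (n + J.length)))
          (closedBall (b J') (3 / 10 * (1 / 5 : ℝ) ^ (n + J'.length))) := by
      intro J hJ J' hJ' hne
      obtain ⟨-, g2, -, g4⟩ := hωb J hJ
      obtain ⟨-, g2', -, g4'⟩ := hωb J' hJ'
      have g2a : pre (ω J) ((pre w n).length + J.length) = pre w n ++ J := by rw [hlen]; exact g2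
      have g2b : pre (ω J') ((pre w n).length + J'.length) = pre w n ++ J' := by
        rw [hlen]; exact g2'
      obtain ⟨j, hj1, hj2, hj3, hj4⟩ := first_diff g2a g2b (hQ2 J hJ J' hJ' hne)
        (hQ2 J' hJ' J hJ hne.symm)
      rw [hlen] at hj1 hj2
      have h5 := s1 _ _ j hj3 hj4
      have h6 : (1 / 5 : ℝ) ^ (n + J.length) ≤ (1 / 5) ^ (j + 1) :=
        pow_le_pow_of_le_one (by norm_num) (by norm_num) hj1
      have h7 : (1 / 5 : ℝ) ^ (n + J'.length) ≤ (1 / 5) ^ (j + 1) :=
        pow_le_pow_of_le_one (by norm_num) (by norm_num) hj2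
      refine Metric.closedBall_disjoint_closedBall ?_
      have h8 : dist (pt (ω J)) (pt (ω J')) ≤ dist (pt (ω J)) (b J) + dist (b J) (b J') +
          dist (b J') (pt (ω J')) := dist_triangle4 _ _ _ _
      rw [dist_comm (b J') (pt (ω J'))] at h8
      have h9 : (0 : ℝ) < (1 / 5) ^ (j + 1) := by positivity
      linarith
    have hinj : ∀ J ∈ Qs, ∀ J' ∈ Qs,
        ((b J, 3 / 10 * (1 / 5 : ℝ) ^ (n + J.length)) : E2 × ℝ) =
          (b J', 3 / 10 * (1 / 5 : ℝ) ^ (n + J'.length)) → J = J' := by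
      intro J hJ J' hJ' he
      by_contra hne
      have h1 := hdisj J hJ J' hJ' hne
      rw [Prod.mk.injEq] at he
      rw [← he.1, ← he.2, disjoint_self] at h1
      have h2 : b J ∈ closedBall (b J) (3 / 10 * (1 / 5 : ℝ) ^ (n + J.length)) :=
        mem_closedBall_self (by positivity)
      rw [h1] at h2
      exact h2
    unfold packPre
    refine le_iSup₂_of_le (Qs.image fun J => ((b J, 3 / 10 * (1 / 5 : ℝ) ^ (n + J.length)) :
      E2 × ℝ)) ⟨?_, ?_⟩ ?_
    · intro p hp
      obtain ⟨J, hJ, rfl⟩ := Finset.mem_image.1 hp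
      refine ⟨(hωb J hJ).2.2.1, by positivity, ?_⟩
      show 3 / 10 * (1 / 5 : ℝ) ^ (n + J.length) ≤ δ
      have h1 : (1 / 5 : ℝ) ^ (n + J.length) ≤ (1 / 5) ^ k₀ :=
        pow_le_pow_of_le_one (by norm_num) (by norm_num) ((hQ1 J hJ).1.trans (by omega))
      have h2 : (0 : ℝ) < (1 / 5) ^ k₀ := by positivity
      linarith
    · intro p hp q hq hpq
      obtain ⟨J, hJ, rfl⟩ := Finset.mem_image.1 hp
      obtain ⟨J', hJ', rfl⟩ := Finset.mem_image.1 hq
      exact hdisj J hJ J' hJ' fun h => hpq (by rw [h])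
    · rw [Finset.sum_image hinj]
      simp only [weight]
      rw [← ENNReal.ofReal_sum_of_nonneg (fun J _ => by positivity)]
      have h1 : ∑ J ∈ Qs, (3 / 5 : ℝ) ^ (sd - 1) * (5 / 9) ^ (n + J.length) =
          (3 / 5 : ℝ) ^ (sd - 1) * (5 / 9) ^ n * ∑ J ∈ Qs, (5 / 9 : ℝ) ^ J.length := by
        rw [Finset.mul_sum]
        refine Finset.sum_congr rfl fun J _ => ?_
        rw [pow_add]
        ring
      rw [h1]
      rw [div_lt_iff₀ hc] at hQ3
      have h2 : (R : ℝ) ≤ (3 / 5 : ℝ) ^ (sd - 1) * (5 / 9) ^ n *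
          ∑ J ∈ Qs, (5 / 9 : ℝ) ^ J.length := by
        rw [mul_comm]
        exact hQ3.le
      calc (R : ℝ≥0∞) = ENNReal.ofReal (R : ℝ) := by rw [ENNReal.ofReal_coe_nnreal]
        _ ≤ _ := ENNReal.ofReal_le_ofReal h2
  have hpack : pack0 (sd - 1) (B i) = ⊤ := by
    unfold pack0
    rw [eq_top_iff]
    exact le_iInf₂ fun δ hδ => (hpre δ hδ).ge
  exact (ENNReal.tsum_eq_top_of_eq_top ⟨i, hpack⟩).ge

end Pool.Agent.R244.PS
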