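import Pool.Agent.R244.PS.Stm

/-!
# POSH: positivity of the density
-/

namespace Pool.Agent.R244.PS

open MeasureTheory Set Metric Topology Filter
open scoped ENNReal NNReal Classical

namespace POSH

lemma pre_eq (ω : Om) (n : ℕ) : pre ω n = List.ofFn (fun i : Fin n => ω i) := by
  unfold pre
  apply List.ext_getElem
  · simp
  · intro k h1 h2
    simp

lemma pre_length (ω : Om) (n : ℕ) : (pre ω n).length = n := by
  unfold pre; simp

lemma vol_T (l : ℝ) (I : List Dg) (N : Set ℝ) :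
    volume (T l I ⁻¹' N) = ENNReal.ofReal ((5 ^ I.length)⁻¹) * volume N := by
  have h1 : T l I ⁻¹' N = (fun t : ℝ => t + (-lft l I)) ⁻¹' ((fun t : ℝ => 5 ^ I.length * t) ⁻¹' N) := by
    ext t
    simp only [mem_preimage, T]
    rw [← sub_eq_add_neg]
  rw [h1, measure_preimage_add_right, Real.volume_preimage_mul_left (by positivity)]
  rw [abs_of_pos (by positivity)]

end POSH

open POSH in
theorem t_POSH (hSt : S_SELFH) (hB : S_BAS) (hP : S_PROJ) : S_POSH := by
  intro μ hμ l hl hl1 hac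
  have := hμ.1
  obtain ⟨hs1, hs2, -⟩ := hSt μ hμ l hl hl1 hac
  obtain ⟨b1, b2, -, -, b5⟩ := hB
  set ν := μ.map (F l) with hν
  have hFm : Measurable (F l) := (b5 l).measurable
  have : IsProbabilityMeasure ν := Measure.isProbabilityMeasure_map hFm.aemeasurable
  set h := ν.rnDeriv volume with hh
  have hm : Measurable h := Measure.measurable_rnDeriv _ _
  set Z : Set ℝ := Ioo 0 (1 + l) ∩ h ⁻¹' {0} with hZ
  set N : Set ℝ := Ioo 0 (1 + l) ∩ h ⁻¹' {0}ᶜ with hN
  have hZm : MeasurableSet Z := measurableSet_Ioo.inter (hm (MeasurableSet.singleton _))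
  have hNm : MeasurableSet N := measurableSet_Ioo.inter (hm (MeasurableSet.singleton _).compl)
  -- the good points
  have hgood : ∀ᵐ t : ℝ, ∀ n : ℕ, h t = 0 → ∀ u : Fin n → Dg, h (T l (List.ofFn u) t) = 0 := by
    rw [ae_all_iff]
    intro n
    filter_upwards [hs1 n] with t ht h0 u
    rw [h0] at ht
    have h1 := (Finset.sum_eq_zero_iff.1 ht.symm) u (Finset.mem_univ _)
    rcases mul_eq_zero.1 h1 with h2 | h2
    · exfalso
      have h3 : (5 / 9 : ℝ≥0∞) ≠ 0 := by
        rw [Ne, ENNReal.div_eq_zero_iff]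
        push Not
        exact ⟨by norm_num, by norm_num⟩
      exact h3 (eq_zero_of_pow_eq_zero h2)
    · exact h2
  by_contra hcon
  have hZ0 : volume Z ≠ 0 := by
    intro h0
    apply hcon
    have h1 : ∀ᵐ t : ℝ, t ∉ Z := measure_eq_zero_iff_ae_notMem.1 h0
    filter_upwards [h1] with t ht h2 h3 h4
    exact ht ⟨⟨h2, h3⟩, h4⟩
  have hden := Besicovitch.ae_tendsto_measure_inter_div_of_measurableSet
    (volume : Measure ℝ) hZm.compl
  obtain ⟨x, hxZ, hx⟩ : ∃ x, x ∈ Z ∧ Tendsto (fun r => volume (Zᶜ ∩ closedBall x r) /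
      volume (closedBall x r)) (𝓝[>] 0) (𝓝 (Zᶜ.indicator 1 x)) := by
    by_contra hc
    push Not at hc
    exact hZ0 (measure_mono_null (fun x hx => hc x hx) (ae_iff.1 hden))
  rw [indicator_of_notMem (by simpa using hxZ)] at hx
  obtain ⟨ω, hω⟩ := hP l hl hl1 x hxZ.1.1.le hxZ.1.2.le
  have hr : Tendsto (fun n : ℕ => 2 * ((5 : ℝ) ^ n)⁻¹) atTop (𝓝[>] 0) := by
    rw [tendsto_nhdsWithin_iff]
    constructor
    · have : Tendsto (fun n : ℕ => ((5 : ℝ) ^ n)⁻¹) atTop (𝓝 0) := by
        simp_rw [← inv_pow]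
        exact tendsto_pow_atTop_nhds_zero_of_lt_one (by norm_num) (by norm_num)
      simpa using this.const_mul 2
    · refine Eventually.of_forall fun n => ?_
      simp only [mem_Ioi]
      positivity
  have hlim := hx.comp hr
  have hkey : ∀ n : ℕ, volume N ≤ 4 * (volume (Zᶜ ∩ closedBall x (2 * ((5 : ℝ) ^ n)⁻¹)) /
      volume (closedBall x (2 * ((5 : ℝ) ^ n)⁻¹))) := by
    intro n
    set I := pre ω n with hI
    have hlen : I.length = n := pre_length ω n
    have hTx : T l I x = F l (shf n ω) := by rw [← hω]; exact b1 l ω n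
    have hb := b2 l (shf n ω) (by linarith)
    rw [← hTx] at hb
    have h5 : (0 : ℝ) < 5 ^ n := by positivity
    have hsub : T l I ⁻¹' N ⊆ (Zᶜ ∩ closedBall x (2 * ((5 : ℝ) ^ n)⁻¹)) ∪
        {t | ¬ ∀ n : ℕ, h t = 0 → ∀ u : Fin n → Dg, h (T l (List.ofFn u) t) = 0} := by
      intro y hy
      by_cases hg : ∀ n : ℕ, h y = 0 → ∀ u : Fin n → Dg, h (T l (List.ofFn u) y) = 0
      · left
        constructor
        · intro hyZ
          have h1 := hg n hyZ.2 (fun i : Fin n => ω i)
          rw [← pre_eq] at h1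
          exact hy.2 h1
        · have h1 := hy.1
          rw [mem_closedBall, Real.dist_eq]
          have h2 : |T l I y - T l I x| ≤ 2 := by
            rw [abs_le]
            constructor
            · have := h1.1; linarith [hb.2]
            · have := h1.2; linarith [hb.1]
          have h3 : T l I y - T l I x = 5 ^ n * (y - x) := by
            unfold T
            rw [hlen]
            ring
          rw [h3, abs_mul, abs_of_pos h5] at h2
          rw [← div_eq_mul_inv, le_div_iff₀ h5]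
          linarith
      · exact Or.inr hg
    have hvol : volume (T l I ⁻¹' N) ≤ volume (Zᶜ ∩ closedBall x (2 * ((5 : ℝ) ^ n)⁻¹)) := by
      refine (measure_mono hsub).trans ((measure_union_le _ _).trans ?_)
      rw [ae_iff.1 hgood, add_zero]
    rw [vol_T, hlen] at hvol
    have hcb : volume (closedBall x (2 * ((5 : ℝ) ^ n)⁻¹)) = 4 * ENNReal.ofReal ((5 ^ n)⁻¹) := by
      rw [Real.volume_closedBall]
      rw [show 2 * (2 * ((5 : ℝ) ^ n)⁻¹) = 4 * ((5 : ℝ) ^ n)⁻¹ by ring,
        ENNReal.ofReal_mul (by norm_num)]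
      norm_num
    have hc0 : ENNReal.ofReal (((5 : ℝ) ^ n)⁻¹) ≠ 0 := by
      rw [Ne, ENNReal.ofReal_eq_zero, not_le]
      positivity
    have hct : ENNReal.ofReal (((5 : ℝ) ^ n)⁻¹) ≠ ⊤ := ENNReal.ofReal_ne_top
    rw [hcb]
    set c := ENNReal.ofReal (((5 : ℝ) ^ n)⁻¹) with hc
    set V := volume (Zᶜ ∩ closedBall x (2 * ((5 : ℝ) ^ n)⁻¹)) with hV
    have h1 : volume N ≤ V / c := by
      rw [ENNReal.le_div_iff_mul_le (Or.inl hc0) (Or.inl hct), mul_comm]
      exact hvol
    refine h1.trans (le_of_eq ?_)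
    rw [ENNReal.div_eq_inv_mul, ENNReal.div_eq_inv_mul, ENNReal.mul_inv (Or.inl (by norm_num))
      (Or.inl (by norm_num)), ← mul_assoc, ← mul_assoc, ENNReal.mul_inv_cancel (by norm_num)
      (by norm_num), one_mul]
  have hN0 : volume N = 0 := by
    have hl4 : Tendsto (fun n : ℕ => 4 * (volume (Zᶜ ∩ closedBall x (2 * ((5 : ℝ) ^ n)⁻¹)) /
      volume (closedBall x (2 * ((5 : ℝ) ^ n)⁻¹)))) atTop (𝓝 (4 * 0)) :=
      ENNReal.Tendsto.const_mul hlim (Or.inr (by norm_num))
    rw [mul_zero] at hl4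
    exact le_antisymm (ge_of_tendsto' hl4 hkey) bot_le
  have hh0 : h =ᵐ[volume] 0 := by
    have e1 : ∀ᵐ t : ℝ, t ∉ N := measure_eq_zero_iff_ae_notMem.1 hN0
    have e2 : ∀ᵐ t : ℝ, t ≠ 0 := by
      rw [ae_iff]; simp
    have e3 : ∀ᵐ t : ℝ, t ≠ 1 + l := by
      rw [ae_iff]; simp
    filter_upwards [e1, e2, e3, hs2] with t h1 h2 h3 h4
    by_contra hne
    rcases lt_or_gt_of_ne h2 with h5 | h5
    · exact hne (h4 (Or.inl h5))
    · rcases lt_or_gt_of_ne h3 with h6 | h6
      · exact h1 ⟨⟨h5, h6⟩, hne⟩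
      · exact hne (h4 (Or.inr h6))
  have hν0 : ν = 0 := by
    rw [← Measure.withDensity_rnDeriv_eq ν volume hac, withDensity_congr_ae hh0]
    exact withDensity_zero
  have h1 : ν univ = 1 := measure_univ
  rw [hν0] at h1
  simp at h1

end Pool.Agent.R244.PS
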