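import Pool.Agent.R244.PS.P_BAS

set_option autoImplicit false

namespace Pool.Agent.R244.PS

open MeasureTheory Set Metric Topology Filter

namespace ProjAux

theorem step {l t : ℝ} (h1 : 1 / 2 ≤ l) (h2 : l ≤ 1) (h3 : 0 ≤ t) (h4 : t ≤ 1 + l) :
    ∃ i : Dg, 0 ≤ 5 * t - off l i ∧ 5 * t - off l i ≤ 1 + l := by
  have e : ∀ i j : Fin 3, off l (i, j) = 2 * ((i : ℕ) : ℝ) + l * (2 * ((j : ℕ) : ℝ)) :=
    fun i j => rfl
  by_cases c1 : 5 * t ≤ 1 + l
  · refine ⟨(0, 0), ?_⟩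
    rw [e]
    norm_num
    constructor <;> linarith
  by_cases c2 : 5 * t ≤ 1 + 3 * l
  · refine ⟨(0, 1), ?_⟩
    rw [e]
    norm_num
    constructor <;> linarith
  by_cases c3 : 5 * t ≤ 3 + l
  · refine ⟨(1, 0), ?_⟩
    rw [e]
    norm_num
    constructor <;> linarith
  by_cases c4 : 5 * t ≤ 3 + 3 * l
  · refine ⟨(1, 1), ?_⟩
    rw [e]
    norm_num
    constructor <;> linarith
  by_cases c5 : 5 * t ≤ 5 + l
  · refine ⟨(2, 0), ?_⟩
    rw [e]
    norm_num
    constructor <;> linarith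
  by_cases c6 : 5 * t ≤ 5 + 3 * l
  · refine ⟨(2, 1), ?_⟩
    rw [e]
    norm_num
    constructor <;> linarith
  · refine ⟨(2, 2), ?_⟩
    rw [e]
    norm_num
    constructor <;> linarith

end ProjAux

open ProjAux BasAux in
theorem t_PROJ : S_PROJ := by
  intro l h1 h2 t h3 h4
  have hex : ∀ s : ℝ, ∃ i : Dg, 0 ≤ s → s ≤ 1 + l → 0 ≤ 5 * s - off l i ∧ 5 * s - off l i ≤ 1 + l := by
    intro s
    by_cases hs : 0 ≤ s ∧ s ≤ 1 + l
    · obtain ⟨i, hi⟩ := step h1 h2 hs.1 hs.2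
      exact ⟨i, fun _ _ => hi⟩
    · exact ⟨(0, 0), fun a b => absurd ⟨a, b⟩ hs⟩
  choose d hd using hex
  obtain ⟨u, hu0, hu⟩ : ∃ u : ℕ → ℝ, u 0 = t ∧ ∀ n, u (n + 1) = 5 * u n - off l (d (u n)) :=
    ⟨fun n => Nat.rec t (fun _ s => 5 * s - off l (d s)) n, rfl, fun n => rfl⟩
  have hb : ∀ n, 0 ≤ u n ∧ u n ≤ 1 + l := by
    intro n
    induction n with
    | zero => rw [hu0]; exact ⟨h3, h4⟩
    | succ n ih => rw [hu n]; exact hd (u n) ih.1 ih.2
  refine ⟨fun n => d (u n), ?_⟩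
  have hs : ∀ n, ∑ k ∈ Finset.range n, off l (d (u k)) / 5 ^ (k + 1) = t - u n / 5 ^ n := by
    intro n
    induction n with
    | zero => simp [hu0]
    | succ n ih =>
      rw [Finset.sum_range_succ, ih, hu n, pow_succ]
      field_simp
      ring
  have hlim : Tendsto (fun n => ∑ k ∈ Finset.range n, off l (d (u k)) / 5 ^ (k + 1)) atTop (𝓝 t) := by
    have h5 : Tendsto (fun n : ℕ => u n / 5 ^ n) atTop (𝓝 0) := by
      refine squeeze_zero (g := fun n : ℕ => (1 + l) * (1 / 5 : ℝ) ^ n) ?_ ?_ ?_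
      · intro n
        exact div_nonneg (hb n).1 (by positivity)
      · intro n
        rw [div_pow, one_pow, mul_one_div]
        exact div_le_div_of_nonneg_right (hb n).2 (by positivity)
      · have := (tendsto_pow_atTop_nhds_zero_of_lt_one (r := (1 / 5 : ℝ)) (by norm_num)
          (by norm_num)).const_mul (1 + l)
        rwa [mul_zero] at this
    have h6 := h5.const_sub t
    rw [sub_zero] at h6
    refine h6.congr fun n => ?_
    rw [hs n]
  exact tendsto_nhds_unique (summ l (fun n => d (u n))).hasSum.tendsto_sum_nat hlim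

end Pool.Agent.R244.PS
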