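import Pool.Agent.R244.PS.Stm

/-!
# REC: recurrence
-/

namespace Pool.Agent.R244.PS

open MeasureTheory Set Metric Topology Filter
open scoped ENNReal NNReal Classical

namespace REC

lemma mem_cyl {I : List Dg} {ω : Om} : ω ∈ cyl I ↔ ∀ k (hk : k < I.length), ω k = I[k] := by
  unfold cyl pre
  simp only [mem_ofPred_eq]
  constructor
  · intro h k hk
    have h1 : ((List.range I.length).map ω)[k]'(by simpa using hk) = ω k := by simp
    rw [← h1]
    congr 1
  · intro h
    apply List.ext_getElem
    · simp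
    · intro k h1 h2
      simp only [List.getElem_map, List.getElem_range]
      exact h k h2

lemma meas_cyl (I : List Dg) : MeasurableSet (cyl I) := by
  have : cyl I = ⋂ (k : ℕ) (hk : k < I.length), (fun ω : Om => ω k) ⁻¹' {I[k]} := by
    ext ω
    rw [mem_cyl]
    simp
  rw [this]
  apply MeasurableSet.iInter
  intro k
  apply MeasurableSet.iInter
  intro hk
  exact (measurable_pi_apply k) (MeasurableSet.singleton _)

lemma meas_shf (n : ℕ) : Measurable (shf n) := by
  apply measurable_pi_lambda
  intro k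
  exact measurable_pi_apply _

lemma gen : (inferInstance : MeasurableSpace Om) = MeasurableSpace.generateFrom (range cyl) := by
  apply le_antisymm
  · show (⨆ i, MeasurableSpace.comap (fun ω : Om => ω i) inferInstance) ≤ _
    apply iSup_le
    intro i
    rintro s ⟨S, hS, rfl⟩
    have : (fun ω : Om => ω i) ⁻¹' S =
        ⋃ (I : List Dg) (_ : ∃ h : i < I.length, I[i] ∈ S), cyl I := by
      ext ω
      simp only [mem_preimage, mem_iUnion, exists_prop]
      constructor
      · intro h
        refine ⟨(List.range (i + 1)).map ω, ⟨by simp, by simpa using h⟩, ?_⟩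
        rw [mem_cyl]
        intro k hk
        simp
      · rintro ⟨I, ⟨h1, h2⟩, h3⟩
        rw [mem_cyl] at h3
        rw [h3 i h1]
        exact h2
    rw [this]
    apply MeasurableSet.iUnion
    intro I
    apply MeasurableSet.iUnion
    intro _
    exact MeasurableSpace.measurableSet_generateFrom ⟨I, rfl⟩
  · apply MeasurableSpace.generateFrom_le
    rintro s ⟨I, rfl⟩
    exact meas_cyl I

lemma sub_of_le {I J : List Dg} (h : I.length ≤ J.length) (hne : (cyl I ∩ cyl J).Nonempty) :
    cyl J ⊆ cyl I := by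
  obtain ⟨ω, h1, h2⟩ := hne
  intro ω' h'
  rw [mem_cyl] at h1 h2 h' ⊢
  intro k hk
  have hk' : k < J.length := by omega
  rw [h' k hk', ← h2 k hk', h1 k hk]

lemma pisys : IsPiSystem (range cyl) := by
  rintro s ⟨I, rfl⟩ t ⟨J, rfl⟩ hne
  rcases le_total I.length J.length with h | h
  · exact ⟨J, (inter_eq_right.2 (sub_of_le h hne)).symm⟩
  · rw [inter_comm] at hne
    exact ⟨I, (inter_eq_left.2 (sub_of_le h hne)).symm⟩

lemma shift_one (hM : S_MARK) (μ : Measure Om) (hμ : IsUnif μ) (E : Set Om)
    (hE : MeasurableSet E) : μ {ω | shf 1 ω ∈ E} = μ E := by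
  have h1 : {ω | shf 1 ω ∈ E} = ⋃ i : Dg, (cyl [i] ∩ {ω | shf 1 ω ∈ E}) := by
    ext ω
    simp only [mem_ofPred_eq, mem_iUnion, mem_inter_iff]
    constructor
    · intro h
      refine ⟨ω 0, ?_, h⟩
      rw [mem_cyl]
      intro k hk
      have : k = 0 := by simpa using hk
      subst this
      simp
    · rintro ⟨i, _, h⟩
      exact h
  have hdis : Pairwise (Function.onFun Disjoint (fun i : Dg => cyl [i] ∩ {ω | shf 1 ω ∈ E})) := by
    intro i j hij
    rw [Function.onFun, Set.disjoint_left]
    rintro ω ⟨ha, _⟩ ⟨hb, _⟩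
    rw [mem_cyl] at ha hb
    have e1 := ha 0 (by simp)
    have e2 := hb 0 (by simp)
    simp only [List.getElem_cons_zero] at e1 e2
    exact hij (e1.symm.trans e2)
  rw [h1, measure_iUnion hdis (fun i => (meas_cyl _).inter ((meas_shf 1) hE))]
  have h2 : ∀ i : Dg, μ (cyl [i] ∩ {ω | shf 1 ω ∈ E}) = 9⁻¹ * μ E := by
    intro i
    have := hM μ hμ [i] E hE
    simpa using this
  simp_rw [h2]
  rw [tsum_fintype, Finset.sum_const, Finset.card_univ]
  have h3 : Fintype.card Dg = 9 := by simp [Dg]
  rw [h3, nsmul_eq_mul, ← mul_assoc]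
  have : ((9 : ℕ) : ℝ≥0∞) * 9⁻¹ = 1 := by
    push_cast
    exact ENNReal.mul_inv_cancel (by norm_num) (by norm_num)
  rw [this, one_mul]

lemma shift_n (hM : S_MARK) (μ : Measure Om) (hμ : IsUnif μ) (n : ℕ) (E : Set Om)
    (hE : MeasurableSet E) : μ {ω | shf n ω ∈ E} = μ E := by
  induction n generalizing E with
  | zero =>
    have : ∀ ω : Om, shf 0 ω = ω := by intro ω; funext k; simp [shf]
    simp [this]
  | succ n ih =>
    have h1 : {ω | shf (n + 1) ω ∈ E} = {ω | shf 1 ω ∈ {ω' | shf n ω' ∈ E}} := by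
      ext ω
      simp only [mem_ofPred_eq]
      have : shf (n + 1) ω = shf n (shf 1 ω) := by
        funext k
        unfold shf
        congr 1
        omega
      rw [this]
    rw [h1]
    exact (shift_one hM μ hμ {ω' | shf n ω' ∈ E} ((meas_shf n) hE)).trans (ih E hE)

end REC

open REC in
theorem t_REC (hM : S_MARK) : S_REC := by
  intro μ hμ V hV hV0
  haveI := hμ.1
  set A : Set Om := {ω | ∀ k, shf k ω ∉ V} with hA
  have hAm : MeasurableSet A := by
    have : A = ⋂ k, (shf k ⁻¹' V)ᶜ := by ext ω; simp [hA]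
    rw [this]
    exact MeasurableSet.iInter fun k => ((meas_shf k) hV).compl
  have hsub : ∀ n, A ⊆ {ω | shf n ω ∈ A} := by
    intro n ω hω k
    have : shf k (shf n ω) = shf (n + k) ω := by
      funext j
      unfold shf
      congr 1
      omega
    rw [this]
    exact hω _
  have hAn : ∀ n, μ {ω | shf n ω ∈ A} = μ A := fun n => shift_n hM μ hμ n A hAm
  have hcyl : ∀ I, μ (cyl I ∩ A) = μ (cyl I) * μ A := by
    intro I
    have h1 := hM μ hμ I A hAm
    rw [hμ.2 I, ← h1]
    apply le_antisymm
    · exact measure_mono (inter_subset_inter_right _ (hsub _))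
    · have hdiff : μ ({ω | shf I.length ω ∈ A} \ A) = 0 := by
        rw [measure_sdiff (hsub _) hAm.nullMeasurableSet (measure_ne_top _ _), hAn, tsub_self]
      calc μ (cyl I ∩ {ω | shf I.length ω ∈ A})
          ≤ μ ((cyl I ∩ A) ∪ ({ω | shf I.length ω ∈ A} \ A)) := by
            apply measure_mono
            rintro ω ⟨h1, h2⟩
            by_cases h3 : ω ∈ A
            · exact Or.inl ⟨h1, h3⟩
            · exact Or.inr ⟨h2, h3⟩
        _ ≤ μ (cyl I ∩ A) + μ ({ω | shf I.length ω ∈ A} \ A) := measure_union_le _ _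
        _ = μ (cyl I ∩ A) := by rw [hdiff, add_zero]
  have hmeas : μ.restrict A = (μ A) • μ := by
    apply MeasureTheory.ext_of_generate_finite (range cyl) gen pisys
    · rintro s ⟨I, rfl⟩
      rw [Measure.restrict_apply (meas_cyl I), hcyl I, Measure.smul_apply, smul_eq_mul, mul_comm]
    · rw [Measure.restrict_apply MeasurableSet.univ, univ_inter, Measure.smul_apply, smul_eq_mul,
        measure_univ, mul_one]
  have hsq : μ A = μ A * μ A := by
    have h := congrArg (fun m : Measure Om => m A) hmeas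
    simp only [Measure.restrict_apply hAm, inter_self, Measure.smul_apply, smul_eq_mul] at h
    exact h
  have hlt : μ A < 1 := by
    have h1 : A ⊆ Vᶜ := by
      intro ω hω hv
      apply hω 0
      have : shf 0 ω = ω := by funext k; simp [shf]
      rw [this]
      exact hv
    calc μ A ≤ μ Vᶜ := measure_mono h1
      _ = 1 - μ V := prob_compl_eq_one_sub hV
      _ < 1 := ENNReal.sub_lt_self ENNReal.one_ne_top one_ne_zero hV0
  have hA0 : μ A = 0 := by
    by_contra h
    have h2 : μ A * 1 = μ A * μ A := by rw [mul_one]; exact hsq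
    have h3 := (ENNReal.mul_right_inj h (measure_ne_top _ _)).1 h2
    rw [← h3] at hlt
    exact lt_irrefl _ hlt
  rw [ae_iff]
  have hU : {ω : Om | ¬ ∀ n, ∃ k, n ≤ k ∧ shf k ω ∈ V} ⊆ ⋃ n, {ω | shf n ω ∈ A} := by
    intro ω hω
    simp only [mem_ofPred_eq, not_forall, not_exists, not_and] at hω
    obtain ⟨n, hn⟩ := hω
    rw [mem_iUnion]
    refine ⟨n, fun k => ?_⟩
    have : shf k (shf n ω) = shf (n + k) ω := by
      funext j
      unfold shf
      congr 1
      omega
    rw [this]
    exact hn _ (by omega)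
  refine measure_mono_null hU (measure_iUnion_null fun n => ?_)
  rw [hAn, hA0]

end Pool.Agent.R244.PS
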