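import Pool.Agent.R244.PS.Stm

/-! Project PS, piece RICHAC: richness in absolutely continuous directions. -/

namespace Pool.Agent.R244.PS

open MeasureTheory Set Metric Topology Filter
open scoped ENNReal NNReal Classical

theorem ra_T_cont (l : ℝ) (I : List Dg) : Continuous (T l I) := by
  unfold T
  fun_prop

theorem ra_lft (l : ℝ) (m : ℕ) : lft l (List.replicate m ((0, 0) : Dg)) = 0 := by
  induction m with
  | zero => rfl
  | succ m ih =>
    rw [List.replicate_succ]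
    change (off l (0, 0) + lft l (List.replicate m ((0, 0) : Dg))) / 5 = 0
    rw [ih]
    unfold off dg
    simp

theorem ra_stop_meas (l : ℝ) {U : Set ℝ} (hU : MeasurableSet U) (k₀ N : ℕ) (I : List Dg) :
    MeasurableSet {t | I ∈ Stop l U k₀ N t} := by
  have h1 : {t | I ∈ Stop l U k₀ N t} = {_t : ℝ | k₀ ≤ I.length} ∩ ({_t : ℝ | I.length ≤ N} ∩
      ((T l I) ⁻¹' U ∩ ⋂ (k : ℕ) (_ : k₀ ≤ k) (_ : k < I.length), ((T l (I.take k)) ⁻¹' U)ᶜ)) := by
    ext t
    simp only [Stop, mem_ofPred_eq, mem_inter_iff, mem_preimage, mem_iInter, mem_compl_iff]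
  rw [h1]
  exact (MeasurableSet.const _).inter ((MeasurableSet.const _).inter
    (((ra_T_cont l I).measurable hU).inter (MeasurableSet.iInter fun k => MeasurableSet.iInter
      fun _ => MeasurableSet.iInter fun _ => ((ra_T_cont l _).measurable hU).compl)))

theorem ra_sum_meas (l : ℝ) {U : Set ℝ} (hU : MeasurableSet U) (k₀ N : ℕ) :
    Measurable (stopSum l U k₀ N) := by
  unfold stopSum
  refine Measurable.ennreal_tsum fun I => ?_
  have h1 : (fun t => (Stop l U k₀ N t).indicator (fun I : List Dg => (5 / 9 : ℝ≥0∞) ^ I.length) I) =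
      {t | I ∈ Stop l U k₀ N t}.indicator fun _ => (5 / 9 : ℝ≥0∞) ^ I.length := by
    funext t
    unfold indicator
    rfl
  rw [h1]
  exact measurable_const.indicator (ra_stop_meas l hU k₀ N I)

/-- A large stopping sum gives richness. -/
theorem ra_rich (l : ℝ) (hl : 0 ≤ l) (M : ℝ) (U : Set ℝ) (hU : ∀ u ∈ U, 0 < u ∧ u < 1)
    (k₀ N : ℕ) (t : ℝ) (h : ENNReal.ofReal M < stopSum l U k₀ N t) : Rich l M k₀ t := by
  have hfin : (Stop l U k₀ N t).Finite :=
    (List.finite_length_le Dg N).subset fun I hI => hI.2.1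
  have hsum : stopSum l U k₀ N t = ∑ I ∈ hfin.toFinset, (5 / 9 : ℝ≥0∞) ^ I.length := by
    unfold stopSum
    rw [tsum_eq_sum (s := hfin.toFinset)]
    · refine Finset.sum_congr rfl fun I hI => ?_
      rw [indicator_of_mem ((Set.Finite.mem_toFinset _).1 hI)]
    · intro I hI
      rw [indicator_of_notMem]
      intro hcon
      exact hI ((Set.Finite.mem_toFinset _).2 hcon)
  refine ⟨hfin.toFinset, fun I hI => ?_, fun I hI J hJ hne hpre => ?_, ?_⟩
  · have h1 := (Set.Finite.mem_toFinset _).1 hI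
    have h2 := hU _ h1.2.2.1
    exact ⟨h1.1, h2.1, by linarith [h2.2]⟩
  · have h1 := (Set.Finite.mem_toFinset _).1 hI
    have h2 := (Set.Finite.mem_toFinset _).1 hJ
    have h3 := List.prefix_iff_eq_take.1 hpre
    have h4 : I.length < J.length := by
      refine lt_of_le_of_ne hpre.length_le fun h5 => hne ?_
      exact hpre.eq_of_length h5
    refine h2.2.2.2 I.length h1.1 h4 ?_
    rw [← h3]
    exact h1.2.2.1
  · rw [hsum] at h
    have h1 : ∑ I ∈ hfin.toFinset, (5 / 9 : ℝ≥0∞) ^ I.length =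
        ENNReal.ofReal (∑ I ∈ hfin.toFinset, (5 / 9 : ℝ) ^ I.length) := by
      rw [ENNReal.ofReal_sum_of_nonneg fun _ _ => by positivity]
      refine Finset.sum_congr rfl fun I _ => ?_
      rw [ENNReal.ofReal_pow (by norm_num), ENNReal.ofReal_div_of_pos (by norm_num)]
      simp
    rw [h1] at h
    exact (ENNReal.ofReal_lt_ofReal_iff').1 h |>.1

theorem t_RICHAC (hB : S_BAS) (hM : S_MARK) (hR : S_REC) (hH : S_SELFH) (hP : S_POSH)
    (hSt : S_STOP) : S_RICHAC := by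
  intro μ hμ l hl0 hl1 hac M' k₀
  -- reduce to `M ≥ 0`
  obtain ⟨M, hMd⟩ : ∃ M : ℝ, M = max M' 0 := ⟨_, rfl⟩
  have hM'M : M' ≤ M := hMd ▸ le_max_left _ _
  suffices h : ∀ᵐ t : ℝ, 0 < t → t < 1 + l → Rich l M k₀ t by
    filter_upwards [h] with t ht h1 h2
    obtain ⟨Q, a, b, c⟩ := ht h1 h2
    exact ⟨Q, a, b, hM'M.trans_lt c⟩
  have hprob := hμ.1
  have hFc : Continuous (F l) := hB.2.2.2.2 l
  have hFm : Measurable (F l) := hFc.measurable
  obtain ⟨ν, hν⟩ : ∃ ν : Measure ℝ, ν = μ.map (F l) := ⟨_, rfl⟩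
  have hνp : IsProbabilityMeasure ν := by
    rw [hν]
    exact Measure.isProbabilityMeasure_map hFm.aemeasurable
  obtain ⟨h, hh⟩ : ∃ h : ℝ → ℝ≥0∞, h = ν.rnDeriv volume := ⟨_, rfl⟩
  have hhm : Measurable h := by rw [hh]; exact Measure.measurable_rnDeriv _ _
  have hwd : volume.withDensity h = ν := by
    rw [hh]
    exact Measure.withDensity_rnDeriv_eq ν volume (by rw [hν]; exact hac)
  have hfin : ∀ᵐ t : ℝ, h t < ∞ := by
    rw [hh]
    exact Measure.rnDeriv_lt_top ν volume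
  have hpos : ∀ᵐ t : ℝ, 0 < t → t < 1 + l → h t ≠ 0 := by
    rw [hh, hν]
    exact hP μ hμ l hl0 hl1 hac
  have hself : ∀ᵐ t : ℝ, 0 < t → t < 1 / 5 → h t = (5 / 9 : ℝ≥0∞) * h (5 * t) := by
    rw [hh, hν]
    exact (hH μ hμ l hl0 hl1 hac).2.2
  have hnull : ∀ s : Set ℝ, ν s = 0 ↔ volume ({x | h x ≠ 0} ∩ s) = 0 := by
    intro s
    rw [← hwd]
    exact withDensity_apply_eq_zero hhm
  -- a set of bounded density
  obtain ⟨V, hV⟩ : ∃ V : ℕ → Set ℝ, ∀ n, V n = Ioo 0 1 ∩ {v | h v ≤ n} := ⟨_, fun _ => rfl⟩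
  have hVm : ∀ n, MeasurableSet (V n) := fun n => by
    rw [hV]
    exact measurableSet_Ioo.inter (measurableSet_le hhm measurable_const)
  obtain ⟨H, hHV⟩ : ∃ H : ℕ, ν (V H) ≠ 0 := by
    by_contra hcon
    push Not at hcon
    have h1 : ν (⋃ n, V n) = 0 := measure_iUnion_null hcon
    rw [hnull] at h1
    have h2 : ∀ᵐ t : ℝ, t ∉ Ioo (0:ℝ) 1 := by
      have h3 : ∀ᵐ t : ℝ, t ∉ {x | h x ≠ 0} ∩ ⋃ n, V n := measure_eq_zero_iff_ae_notMem.1 h1
      filter_upwards [h3, hfin, hpos] with t a1 a2 a3 a4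
      obtain ⟨n, hn⟩ := ENNReal.exists_nat_gt a2.ne
      refine a1 ⟨a3 a4.1 (by linarith [a4.2]), mem_iUnion.2 ⟨n, ?_⟩⟩
      rw [hV]
      exact ⟨a4, hn.le⟩
    have h4 : volume (Ioo (0:ℝ) 1) = 0 := measure_eq_zero_iff_ae_notMem.2 h2
    rw [Real.volume_Ioo] at h4
    norm_num at h4
  -- iterated functional equation
  have hit : ∀ m : ℕ, ∀ᵐ u : ℝ, 0 < u → u < ((5:ℝ) ^ m)⁻¹ → h u = (5 / 9 : ℝ≥0∞) ^ m * h (5 ^ m * u) := by
    intro m
    induction m with
    | zero =>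
      refine Eventually.of_forall fun u _ _ => ?_
      simp
    | succ m ih =>
      have hq : Measure.QuasiMeasurePreserving (fun u : ℝ => (5:ℝ) * u) volume volume := by
        refine ⟨measurable_const_mul 5, ?_⟩
        rw [Real.map_volume_mul_left (by norm_num : (5:ℝ) ≠ 0)]
        exact Measure.smul_absolutelyContinuous
      have h1 := hq.ae ih
      filter_upwards [h1, hself] with u a1 a2 a3 a4
      have h5 : ((5:ℝ) ^ (m + 1))⁻¹ ≤ 1 / 5 := by
        rw [pow_succ, mul_inv, one_div]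
        refine mul_le_of_le_one_left (by norm_num) (inv_le_one_of_one_le₀ (one_le_pow₀ (by norm_num)))
      have h6 : 5 * u < ((5:ℝ) ^ m)⁻¹ := by
        have : ((5:ℝ) ^ m)⁻¹ = 5 * ((5:ℝ) ^ (m + 1))⁻¹ := by
          rw [pow_succ, mul_inv]
          ring
        rw [this]
        linarith
      rw [a2 a3 (by linarith), a1 (by linarith) h6, ← mul_assoc, ← pow_succ', pow_succ (5:ℝ) m,
        ← mul_assoc]
  -- the sets `U m`
  obtain ⟨U, hU⟩ : ∃ U : ℕ → Set ℝ, ∀ m, U m = Ioo 0 ((5:ℝ) ^ m)⁻¹ ∩ (fun u => (5:ℝ) ^ m * u) ⁻¹' V H :=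
    ⟨_, fun _ => rfl⟩
  have hUm : ∀ m, MeasurableSet (U m) := fun m => by
    rw [hU]
    exact measurableSet_Ioo.inter ((measurable_const_mul _) (hVm H))
  have hU01 : ∀ m, ∀ u ∈ U m, 0 < u ∧ u < 1 := by
    intro m u hu
    rw [hU] at hu
    refine ⟨hu.1.1, hu.1.2.trans_le (inv_le_one_of_one_le₀ (one_le_pow₀ (by norm_num)))⟩
  have hUη : ∀ m, ∀ᵐ u : ℝ, u ∈ U m → (μ.map (F l)).rnDeriv volume u ≤ (5 / 9 : ℝ≥0∞) ^ m * H := by
    intro m
    rw [← hν, ← hh]
    filter_upwards [hit m] with u a1 a2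
    rw [hU] at a2
    rw [a1 a2.1.1 a2.1.2]
    have := a2.2
    rw [mem_preimage, hV] at this
    exact mul_le_mul_right this.2 _
  -- positivity
  have hpos' : ∀ m, μ ((F l) ⁻¹' (U m)) ≠ 0 := by
    intro m hcon
    have h1 := hM μ hμ (List.replicate m ((0, 0) : Dg)) ((F l) ⁻¹' (V H)) (hFm (hVm H))
    have h2 : μ ((F l) ⁻¹' (V H)) = ν (V H) := by rw [hν, Measure.map_apply hFm (hVm H)]
    rw [h2] at h1
    have h3 : cyl (List.replicate m ((0, 0) : Dg)) ∩
        {ω | shf (List.replicate m ((0, 0) : Dg)).length ω ∈ (F l) ⁻¹' (V H)} ⊆ (F l) ⁻¹' (U m) := by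
      rintro ω ⟨a1, a2⟩
      have a1' : pre ω (List.replicate m ((0, 0) : Dg)).length = List.replicate m ((0, 0) : Dg) := a1
      have a2' : F l (shf (List.replicate m ((0, 0) : Dg)).length ω) ∈ V H := a2
      rw [List.length_replicate] at a1' a2'
      have h4 := hB.1 l ω m
      rw [a1'] at h4
      unfold T at h4
      rw [ra_lft, sub_zero, List.length_replicate] at h4
      rw [← h4] at a2'
      rw [mem_preimage, hU]
      have h5 : 0 < (5:ℝ) ^ m := by positivity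
      have h6 := a2'
      rw [hV] at h6
      refine ⟨⟨?_, ?_⟩, a2'⟩
      · exact (mul_pos_iff_of_pos_left h5).1 h6.1.1
      · rw [lt_inv_comm₀ (by
          exact (mul_pos_iff_of_pos_left h5).1 h6.1.1) h5]
        have h7 := h6.1.2
        have h8 : 0 < F l ω := (mul_pos_iff_of_pos_left h5).1 h6.1.1
        rw [lt_inv_comm₀ h5 h8, inv_eq_one_div, lt_div_iff₀ h5]
        linarith
    have h4 := measure_mono_null h3 hcon
    rw [h4] at h1
    have h5 : (9⁻¹ : ℝ≥0∞) ^ (List.replicate m ((0, 0) : Dg)).length ≠ 0 :=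
      pow_ne_zero _ (by simp)
    exact (mul_ne_zero h5 hHV) h1.symm
  -- the main estimate
  obtain ⟨B, hBd⟩ : ∃ B : ℕ → Set ℝ, ∀ m, B m = Ioo 0 (1 + l) ∩
    ⋂ N : ℕ, {t | stopSum l (U m) k₀ N t ≤ ENNReal.ofReal M} := ⟨_, fun _ => rfl⟩
  have hBm : ∀ m, MeasurableSet (B m) := fun m => by
    rw [hBd]
    exact measurableSet_Ioo.inter (MeasurableSet.iInter fun N =>
      measurableSet_le (ra_sum_meas l (hUm m) k₀ N) measurable_const)
  have hmain : ∀ m, ν (B m) ≤ (5 / 9 : ℝ≥0∞) ^ m * (H * (ENNReal.ofReal M * ENNReal.ofReal (1 + l))) := by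
    intro m
    obtain ⟨E, hE⟩ : ∃ E : ℕ → Set Om, ∀ N, E N = {ω | F l ω ∈ B m ∧ ∃ k, k₀ ≤ k ∧ k ≤ N ∧
      F l (shf k ω) ∈ U m} := ⟨_, fun _ => rfl⟩
    have hEb : ∀ N, μ (E N) ≤ (5 / 9 : ℝ≥0∞) ^ m * (H * (ENNReal.ofReal M * ENNReal.ofReal (1 + l))) := by
      intro N
      rw [hE]
      refine (hSt μ hμ l hl0 hl1 hac (U m) (B m) k₀ N _ (hUm m) (hBm m) (hUη m)).trans ?_
      rw [mul_assoc]
      refine mul_le_mul_right (mul_le_mul_right ?_ _) _
      calc ∫⁻ t in B m, stopSum l (U m) k₀ N t ≤ ∫⁻ _t in B m, ENNReal.ofReal M := by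
            refine setLIntegral_mono' (hBm m) fun t ht => ?_
            rw [hBd] at ht
            exact mem_iInter.1 ht.2 N
        _ = ENNReal.ofReal M * volume (B m) := by rw [setLIntegral_const]
        _ ≤ ENNReal.ofReal M * ENNReal.ofReal (1 + l) := by
            refine mul_le_mul_right ?_ _
            have : B m ⊆ Ioo 0 (1 + l) := by
              rw [hBd]
              exact inter_subset_left
            refine (measure_mono this).trans ?_
            rw [Real.volume_Ioo, sub_zero]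
    have hmono : Monotone E := by
      intro N N' hNN' ω hω
      rw [hE] at hω ⊢
      obtain ⟨a, k, b, c, d⟩ := hω
      exact ⟨a, k, b, c.trans hNN', d⟩
    have hsup : μ (⋃ N, E N) ≤ (5 / 9 : ℝ≥0∞) ^ m * (H * (ENNReal.ofReal M *
        ENNReal.ofReal (1 + l))) := by
      rw [hmono.measure_iUnion]
      exact iSup_le hEb
    have hrec := hR μ hμ ((F l) ⁻¹' (U m)) (hFm (hUm m)) (hpos' m)
    rw [hν, Measure.map_apply hFm (hBm m)]
    refine (measure_mono_ae ?_).trans hsup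
    filter_upwards [hrec] with ω hω hωB
    obtain ⟨k, hk, hk'⟩ := hω k₀
    refine mem_iUnion.2 ⟨k, ?_⟩
    rw [hE]
    exact ⟨hωB, k, hk, le_rfl, hk'⟩
  -- conclusion
  obtain ⟨W, hW⟩ : ∃ W : Set ℝ, W = {t | 0 < t ∧ t < 1 + l ∧ ¬ Rich l M k₀ t} := ⟨_, rfl⟩
  have hWB : ∀ m, W ⊆ B m := by
    intro m t ht
    rw [hW] at ht
    rw [hBd]
    refine ⟨⟨ht.1, ht.2.1⟩, mem_iInter.2 fun N => ?_⟩
    by_contra hcon
    exact ht.2.2 (ra_rich l (by linarith) M (U m) (hU01 m) k₀ N t (not_le.1 hcon))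
  have hνW : ν W = 0 := by
    have h1 : ∀ m : ℕ, ν W ≤ (5 / 9 : ℝ≥0∞) ^ m * (H * (ENNReal.ofReal M * ENNReal.ofReal (1 + l))) :=
      fun m => (measure_mono (hWB m)).trans (hmain m)
    have h2 : Tendsto (fun m : ℕ => (5 / 9 : ℝ≥0∞) ^ m * (H * (ENNReal.ofReal M *
        ENNReal.ofReal (1 + l)))) atTop (𝓝 (0 * (H * (ENNReal.ofReal M * ENNReal.ofReal (1 + l))))) := by
      refine ENNReal.Tendsto.mul_const ?_ (Or.inr ?_)
      · refine ENNReal.tendsto_pow_atTop_nhds_zero_of_lt_one ?_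
        refine ENNReal.div_lt_of_lt_mul' ?_
        norm_num
      · exact ENNReal.mul_ne_top (ENNReal.natCast_ne_top H)
          (ENNReal.mul_ne_top ENNReal.ofReal_ne_top ENNReal.ofReal_ne_top)
    rw [zero_mul] at h2
    exact le_antisymm (ge_of_tendsto' h2 h1) zero_le
  rw [hnull] at hνW
  have h3 : ∀ᵐ t : ℝ, t ∉ {x | h x ≠ 0} ∩ W := measure_eq_zero_iff_ae_notMem.1 hνW
  filter_upwards [h3, hpos] with t a1 a2 a3 a4
  by_contra hcon
  refine a1 ⟨a2 a3 a4, ?_⟩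
  rw [hW]
  exact ⟨a3, a4, hcon⟩

end Pool.Agent.R244.PS
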