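import Pool.Agent.R244.PS.Stm

namespace Pool.Agent.R244.PS

open MeasureTheory Set Metric Topology Filter
open scoped ENNReal NNReal Classical

theorem dg_abs_SELF (i : Fin 3) : |dg i| ≤ 4 := by
  unfold dg
  have h : (i : ℕ) ≤ 2 := by omega
  have h1 : ((i : ℕ) : ℝ) ≤ 2 := by exact_mod_cast h
  have h0 : (0 : ℝ) ≤ ((i : ℕ) : ℝ) := by positivity
  rw [abs_of_nonneg (by positivity)]
  linarith

theorem summ_SELF (f : ℕ → Fin 3) : Summable fun k => dg (f k) / 5 ^ (k + 1) := by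
  have h1 : Summable fun k : ℕ => 4 * (1 / 5 : ℝ) ^ k :=
    (summable_geometric_of_lt_one (by norm_num) (by norm_num)).mul_left 4
  refine Summable.of_norm_bounded h1 fun k => ?_
  rw [Real.norm_eq_abs, abs_div, abs_of_pos (by positivity : (0 : ℝ) < 5 ^ (k + 1))]
  rw [div_le_iff₀ (by positivity), one_div, inv_pow, pow_succ]
  have h2 : (4 : ℝ) * (5 ^ k)⁻¹ * (5 ^ k * 5) = 20 := by
    field_simp
    norm_num
  rw [h2]
  linarith [dg_abs_SELF (f k)]

theorem coord_SELF (f : ℕ → Fin 3) : (∑' k, dg (f k) / 5 ^ (k + 1) : ℝ) =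
    (1 / 5) * (∑' k, dg (f (1 + k)) / 5 ^ (k + 1)) + dg (f 0) / 5 := by
  rw [(summ_SELF f).tsum_eq_zero_add, ← tsum_mul_left, add_comm]
  congr 1
  · apply tsum_congr
    intro k
    rw [add_comm 1 k, pow_succ _ (k + 1)]
    field_simp
  · simp

theorem pt_SELF (ω : Om) : pt ω = (1 / 5 : ℝ) • pt (shf 1 ω) + vec (ω 0) := by
  ext j
  fin_cases j
  · exact coord_SELF (fun k => (ω k).1)
  · exact coord_SELF (fun k => (ω k).2)

/-- put a digit in front -/
def cons_SELF (i : Dg) (ω : Om) : Om := fun k => if k = 0 then i else ω (k - 1)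

theorem t_SELF (hSep : S_SEP) : S_SELF := by
  obtain ⟨h1, _, _, h4⟩ := hSep
  have hcons : ∀ (i : Dg) (ω : Om), pt (cons_SELF i ω) = (1 / 5 : ℝ) • pt ω + vec i := by
    intro i ω
    rw [pt_SELF]
    have e1 : shf 1 (cons_SELF i ω) = ω := by
      funext k
      unfold shf cons_SELF
      rw [if_neg (by omega)]
      congr 1
      omega
    have e2 : cons_SELF i ω 0 = i := by unfold cons_SELF; rw [if_pos rfl]
    rw [e1, e2]
  refine ⟨isCompact_range h4, range_nonempty _, ?_, ?_⟩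
  · apply Subset.antisymm
    · rintro _ ⟨ω, rfl⟩
      rw [mem_iUnion]
      exact ⟨ω 0, pt (shf 1 ω), ⟨_, rfl⟩, (pt_SELF ω).symm⟩
    · intro x hx
      rw [mem_iUnion] at hx
      obtain ⟨i, _, ⟨ω, rfl⟩, rfl⟩ := hx
      exact ⟨cons_SELF i ω, hcons i ω⟩
  · intro i j hij
    rw [disjoint_left]
    rintro _ ⟨_, ⟨ω, rfl⟩, rfl⟩ ⟨_, ⟨ω', rfl⟩, h⟩
    have h2 := h1 (cons_SELF i ω) (cons_SELF j ω') 0 rfl (by
      unfold cons_SELF; rw [if_pos rfl, if_pos rfl]; exact hij)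
    have h' : (1 / 5 : ℝ) • pt ω' + vec j = (1 / 5 : ℝ) • pt ω + vec i := h
    rw [hcons, hcons, h', dist_self] at h2
    norm_num at h2

end Pool.Agent.R244.PS
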