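import Pool.Agent.R244.PS.Stm

/-! Piece SELFH of project PS (MP_203158_an): the functional equation of the density. -/

namespace Pool.Agent.R244.PS

open MeasureTheory Set Metric Topology Filter
open scoped ENNReal NNReal

namespace SELFHx

theorem map_aff (c : ℝ) : Measure.map (fun t : ℝ => 5 * t - c) volume =
    ENNReal.ofReal (1 / 5) • (volume : Measure ℝ) := by
  have h1 : Measure.map (fun t : ℝ => 5 * t) volume =
      ENNReal.ofReal |(5 : ℝ)⁻¹| • (volume : Measure ℝ) :=
    Real.map_volume_mul_left (by norm_num)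
  have h2 : (fun t : ℝ => 5 * t - c) = (fun s => s - c) ∘ (fun t => 5 * t) := rfl
  have h3 : |(5 : ℝ)⁻¹| = 1 / 5 := by
    rw [abs_of_pos (by norm_num)]; norm_num
  have h4 : Measure.map (fun s : ℝ => s - c) volume = volume := by
    have := measurePreserving_sub_right (volume : Measure ℝ) c
    exact this.map_eq
  rw [h2, ← Measure.map_map (by fun_prop) (by fun_prop), h1, Measure.map_smul, h4, h3]

theorem qmp (c : ℝ) : Measure.QuasiMeasurePreserving (fun t : ℝ => 5 * t - c) volume volume :=
  ⟨by fun_prop, by rw [map_aff]; exact Measure.smul_absolutelyContinuous⟩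

theorem lint_aff (c : ℝ) (f : ℝ → ℝ≥0∞) (hf : Measurable f) :
    ∫⁻ t, f (5 * t - c) = ENNReal.ofReal (1 / 5) * ∫⁻ t, f t := by
  rw [← lintegral_map (f := f) (g := fun t : ℝ => 5 * t - c) hf (by fun_prop), map_aff,
    lintegral_smul_measure, smul_eq_mul]

theorem const_eq : (5 / 9 : ℝ≥0∞) * ENNReal.ofReal (1 / 5) = 9⁻¹ := by
  have h5 : (5 / 9 : ℝ≥0∞) = ENNReal.ofReal (5 / 9) := by
    rw [ENNReal.ofReal_div_of_pos (by norm_num)]
    norm_num
  have h9 : (9⁻¹ : ℝ≥0∞) = ENNReal.ofReal (1 / 9) := by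
    rw [ENNReal.ofReal_div_of_pos (by norm_num)]
    norm_num
  rw [h5, h9, ← ENNReal.ofReal_mul (by norm_num)]
  norm_num

theorem T_single (l : ℝ) (i : Dg) (t : ℝ) : T l [i] t = 5 * t - off l i := by
  simp only [T, lft, List.length_cons, List.length_nil]
  ring

end SELFHx

open SELFHx

theorem t_SELFH (hSt : S_STAT) (hB : S_BAS) : S_SELFH := by
  intro μ hμ l hl hl1 hac
  obtain ⟨-, hB2, -, hB4, hB5⟩ := hB
  have := hμ.1
  set ν : Measure ℝ := μ.map (F l) with hν
  have : IsFiniteMeasure ν := by rw [hν]; infer_instance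
  set h : ℝ → ℝ≥0∞ := ν.rnDeriv volume with hh
  have hmeas : Measurable h := Measure.measurable_rnDeriv ν volume
  have hwd : volume.withDensity h = ν := Measure.withDensity_rnDeriv_eq ν volume hac
  have hint : ∀ B : Set ℝ, MeasurableSet B → ν B = ∫⁻ t in B, h t := by
    intro B hBm
    conv_lhs => rw [← hwd]
    exact withDensity_apply h hBm
  -- one step
  have hone : ∀ᵐ t : ℝ, h t = ∑ i : Dg, (5 / 9 : ℝ≥0∞) * h (5 * t - off l i) := by
    set g : ℝ → ℝ≥0∞ := fun t => ∑ i : Dg, (5 / 9 : ℝ≥0∞) * h (5 * t - off l i) with hg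
    have hgi : ∀ i : Dg, Measurable fun t : ℝ => h (5 * t - off l i) := fun i =>
      hmeas.comp (by fun_prop)
    have hgm : Measurable g :=
      Finset.measurable_sum _ fun i _ => (hgi i).const_mul _
    have hgν : volume.withDensity g = ν := by
      refine Measure.ext fun B hBm => ?_
      rw [withDensity_apply g hBm, hg]
      rw [lintegral_finsetSum _ fun i _ => (hgi i).const_mul _]
      rw [hSt μ hμ l B hBm, Finset.mul_sum]
      refine Finset.sum_congr rfl fun i _ => ?_
      rw [lintegral_const_mul _ (hgi i)]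
      have hSm : Measurable fun t : ℝ => (t + off l i) / 5 := by fun_prop
      have hBi : MeasurableSet ((fun t : ℝ => (t + off l i) / 5) ⁻¹' B) := hSm hBm
      rw [← hν, hint _ hBi, ← lintegral_indicator hBm, ← lintegral_indicator hBi]
      have e1 : (fun t : ℝ => B.indicator (fun t => h (5 * t - off l i)) t) =
          fun t : ℝ => (((fun t : ℝ => (t + off l i) / 5) ⁻¹' B).indicator h) (5 * t - off l i) := by
        funext t
        by_cases ht : t ∈ B
        · rw [indicator_of_mem ht, indicator_of_mem]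
          show (5 * t - off l i + off l i) / 5 ∈ B
          have : (5 * t - off l i + off l i) / 5 = t := by ring
          rwa [this]
        · rw [indicator_of_notMem ht, indicator_of_notMem]
          show ¬ (5 * t - off l i + off l i) / 5 ∈ B
          have : (5 * t - off l i + off l i) / 5 = t := by ring
          rwa [this]
      rw [e1, lint_aff _ _ (hmeas.indicator hBi), ← mul_assoc, const_eq]
    have := Measure.rnDeriv_withDensity (volume : Measure ℝ) hgm
    rw [hgν] at this
    exact this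
  have hall : ∀ n : ℕ, ∀ᵐ t : ℝ, h t =
      ∑ u : Fin n → Dg, (5 / 9 : ℝ≥0∞) ^ n * h (T l (List.ofFn u) t) := by
    intro n
    induction n with
    | zero =>
      refine Eventually.of_forall fun t => ?_
      simp [T, lft]
    | succ n ih =>
      have h2 : ∀ᵐ t : ℝ, ∀ i : Dg, h (5 * t - off l i) =
          ∑ u : Fin n → Dg, (5 / 9 : ℝ≥0∞) ^ n * h (T l (List.ofFn u) (5 * t - off l i)) := by
        rw [ae_all_iff]
        intro i
        exact (qmp (off l i)).ae ih
      filter_upwards [hone, h2] with t h1 h2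
      have h4 : ∀ G : (Fin (n + 1) → Dg) → ℝ≥0∞, ∑ u : Fin (n + 1) → Dg, G u =
          ∑ i : Dg, ∑ u : Fin n → Dg, G ((Fin.consEquiv fun _ : Fin (n + 1) => Dg) (i, u)) := by
        intro G
        rw [← Equiv.sum_comp (Fin.consEquiv fun _ : Fin (n + 1) => Dg) G]
        exact Fintype.sum_prod_type (α₁ := Dg) (α₂ := Fin n → Dg) _
      rw [h1, h4]
      refine Finset.sum_congr rfl fun i _ => ?_
      rw [h2 i, Finset.mul_sum]
      refine Finset.sum_congr rfl fun u _ => ?_
      have h3 : List.ofFn ((Fin.consEquiv fun _ : Fin (n + 1) => Dg) (i, u)) =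
          [i] ++ List.ofFn u := by
        simp [Fin.consEquiv, List.ofFn_succ]
      rw [h3, hB4, T_single, pow_succ', mul_assoc]
  have hout : ∀ᵐ t : ℝ, (t < 0 ∨ 1 + l < t) → h t = 0 := by
    have hS : MeasurableSet {t : ℝ | t < 0 ∨ 1 + l < t} :=
      (measurableSet_lt measurable_id measurable_const).union
        (measurableSet_lt measurable_const measurable_id)
    have h0 : ν {t : ℝ | t < 0 ∨ 1 + l < t} = 0 := by
      rw [hν, Measure.map_apply (hB5 l).measurable hS]
      have : F l ⁻¹' {t : ℝ | t < 0 ∨ 1 + l < t} = ∅ := by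
        ext ω
        simp only [mem_preimage, mem_ofPred_eq, mem_empty_iff_false, iff_false, not_or, not_lt]
        exact hB2 l ω (by linarith)
      rw [this, measure_empty]
    rw [hint _ hS, lintegral_eq_zero_iff hmeas] at h0
    rw [Filter.EventuallyEq, ae_restrict_iff' hS] at h0
    exact h0
  refine ⟨hall, hout, ?_⟩
  have h3 : ∀ᵐ t : ℝ, ∀ i : Dg, (5 * t - off l i < 0 ∨ 1 + l < 5 * t - off l i) →
      h (5 * t - off l i) = 0 := by
    rw [ae_all_iff]
    intro i
    exact (qmp (off l i)).ae hout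
  filter_upwards [hone, h3] with t h1 h3 ht0 ht1
  rw [h1, Finset.sum_eq_single (0, 0)]
  · have : off l (0, 0) = 0 := by simp [off, dg]
    rw [this, sub_zero]
  · intro i _ hi
    rw [h3 i, mul_zero]
    left
    have : 1 ≤ off l i := by
      obtain ⟨i1, i2⟩ := i
      unfold off dg
      have ha : (0 : ℝ) ≤ ((i1 : ℕ) : ℝ) := Nat.cast_nonneg _
      have hb : (0 : ℝ) ≤ ((i2 : ℕ) : ℝ) := Nat.cast_nonneg _
      by_cases h1 : i1 = 0
      · have h2 : i2 ≠ 0 := by
          rintro rfl
          exact hi (by rw [h1])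
        have h2' : 1 ≤ (i2 : ℕ) := Nat.one_le_iff_ne_zero.2 fun h => h2 (Fin.ext h)
        have h2'' : (1 : ℝ) ≤ ((i2 : ℕ) : ℝ) := by exact_mod_cast h2'
        show (1 : ℝ) ≤ 2 * ((i1 : ℕ) : ℝ) + l * (2 * ((i2 : ℕ) : ℝ))
        nlinarith
      · have h1' : 1 ≤ (i1 : ℕ) := Nat.one_le_iff_ne_zero.2 fun h => h1 (Fin.ext h)
        have h1'' : (1 : ℝ) ≤ ((i1 : ℕ) : ℝ) := by exact_mod_cast h1'
        show (1 : ℝ) ≤ 2 * ((i1 : ℕ) : ℝ) + l * (2 * ((i2 : ℕ) : ℝ))
        have : 0 ≤ l * (2 * ((i2 : ℕ) : ℝ)) := by positivity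
        linarith
    linarith
  · intro h; exact absurd (Finset.mem_univ _) h

end Pool.Agent.R244.PS
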