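import Pool.Agent.R244.PS.Stm

namespace Pool.Agent.R244.PS

open MeasureTheory Set Metric Topology Filter
open scoped ENNReal NNReal Classical

/-- one coordinate of the coding -/
noncomputable def SEP_S (a : ℕ → Fin 3) : ℝ := ∑' k, dg (a k) / 5 ^ (k + 1)

theorem SEP_dg (i : Fin 3) : 0 ≤ dg i ∧ dg i ≤ 4 := by
  unfold dg
  have h : (i : ℕ) ≤ 2 := by omega
  have h2 : ((i : ℕ) : ℝ) ≤ 2 := by exact_mod_cast h
  constructor
  · positivity
  · linarith

theorem SEP_geo : HasSum (fun k : ℕ => (4 : ℝ) / 5 ^ (k + 1)) 1 := by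
  have h := (hasSum_geometric_of_lt_one (r := (1 / 5 : ℝ)) (by norm_num) (by norm_num)).mul_left
    (4 / 5 : ℝ)
  have e : (4 / 5 : ℝ) * (1 - 1 / 5)⁻¹ = 1 := by norm_num
  rw [e] at h
  have e2 : (fun i : ℕ => (4 / 5 : ℝ) * (1 / 5) ^ i) = fun k : ℕ => (4 : ℝ) / 5 ^ (k + 1) := by
    funext k
    rw [pow_succ, one_div, inv_pow]
    field_simp
  rw [e2] at h
  exact h

theorem SEP_summable (a : ℕ → Fin 3) : Summable (fun k => dg (a k) / 5 ^ (k + 1)) := by
  refine Summable.of_nonneg_of_le (fun k => ?_) (fun k => ?_) SEP_geo.summable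
  · have := (SEP_dg (a k)).1
    positivity
  · exact div_le_div_of_nonneg_right (SEP_dg (a k)).2 (by positivity)

theorem SEP_S_bd (a : ℕ → Fin 3) : 0 ≤ SEP_S a ∧ SEP_S a ≤ 1 := by
  constructor
  · refine tsum_nonneg fun k => ?_
    have := (SEP_dg (a k)).1
    positivity
  · have h : SEP_S a ≤ ∑' k : ℕ, (4 : ℝ) / 5 ^ (k + 1) := by
      refine Summable.tsum_le_tsum (fun k => ?_) (SEP_summable a) SEP_geo.summable
      exact div_le_div_of_nonneg_right (SEP_dg (a k)).2 (by positivity)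
    rw [SEP_geo.tsum_eq] at h
    exact h

theorem SEP_S_split (a : ℕ → Fin 3) (n : ℕ) : SEP_S a =
    (∑ k ∈ Finset.range n, dg (a k) / 5 ^ (k + 1)) + (1 / 5) ^ n * SEP_S (fun k => a (n + k)) := by
  unfold SEP_S
  rw [← Summable.sum_add_tsum_nat_add n (SEP_summable a), ← tsum_mul_left]
  congr 1
  apply tsum_congr
  intro k
  rw [Nat.add_comm k n, show n + k + 1 = n + (k + 1) by ring, pow_add, one_div, inv_pow]
  field_simp

theorem SEP_S_up {a b : ℕ → Fin 3} {n : ℕ} (h : ∀ k < n, a k = b k) :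
    |SEP_S a - SEP_S b| ≤ (1 / 5) ^ n := by
  rw [SEP_S_split a n, SEP_S_split b n]
  have e : (∑ k ∈ Finset.range n, dg (a k) / 5 ^ (k + 1)) =
      ∑ k ∈ Finset.range n, dg (b k) / 5 ^ (k + 1) :=
    Finset.sum_congr rfl fun k hk => by rw [h k (Finset.mem_range.1 hk)]
  rw [e]
  have h1 := SEP_S_bd (fun k => a (n + k))
  have h2 := SEP_S_bd (fun k => b (n + k))
  have h3 : (0:ℝ) < (1 / 5) ^ n := by positivity
  rw [abs_le]
  constructor <;> nlinarith

theorem SEP_S_lo {a b : ℕ → Fin 3} {n : ℕ} (h : ∀ k < n, a k = b k) (hne : a n ≠ b n) :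
    (1 / 5 : ℝ) ^ (n + 1) ≤ |SEP_S a - SEP_S b| := by
  rw [SEP_S_split a (n + 1), SEP_S_split b (n + 1), Finset.sum_range_succ, Finset.sum_range_succ]
  have e : (∑ k ∈ Finset.range n, dg (a k) / 5 ^ (k + 1)) =
      ∑ k ∈ Finset.range n, dg (b k) / 5 ^ (k + 1) :=
    Finset.sum_congr rfl fun k hk => by rw [h k (Finset.mem_range.1 hk)]
  rw [e]
  have h1 := SEP_S_bd (fun k => a (n + 1 + k))
  have h2 := SEP_S_bd (fun k => b (n + 1 + k))
  have h3 : (0:ℝ) < (1 / 5) ^ (n + 1) := by positivity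
  have e5 : ∀ x : ℝ, x / 5 ^ (n + 1) = (1 / 5) ^ (n + 1) * x := by
    intro x
    rw [one_div, inv_pow]
    field_simp
  rw [e5, e5]
  set p := (1 / 5 : ℝ) ^ (n + 1) with hp
  set A := SEP_S (fun k => a (n + 1 + k)) with hA
  set B := SEP_S (fun k => b (n + 1 + k)) with hB
  have hd : dg (a n) + 2 ≤ dg (b n) ∨ dg (b n) + 2 ≤ dg (a n) := by
    have hne2 : (a n : ℕ) ≠ (b n : ℕ) := fun h => hne (Fin.ext h)
    unfold dg
    rcases lt_or_gt_of_ne hne2 with h | h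
    · left
      have h4 : ((a n : ℕ) : ℝ) + 1 ≤ ((b n : ℕ) : ℝ) := by exact_mod_cast h
      linarith
    · right
      have h4 : ((b n : ℕ) : ℝ) + 1 ≤ ((a n : ℕ) : ℝ) := by exact_mod_cast h
      linarith
  rcases hd with h | h
  · rw [abs_sub_comm]
    refine le_trans ?_ (le_abs_self _)
    nlinarith [mul_le_mul_of_nonneg_left h h3.le, mul_le_mul_of_nonneg_left h1.2 h3.le,
      mul_nonneg h3.le h2.1]
  · refine le_trans ?_ (le_abs_self _)
    nlinarith [mul_le_mul_of_nonneg_left h h3.le, mul_le_mul_of_nonneg_left h2.2 h3.le,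
      mul_nonneg h3.le h1.1]

theorem SEP_pt0 (ω : Om) : (pt ω) 0 = SEP_S (fun k => (ω k).1) := by
  simp [pt, SEP_S]

theorem SEP_pt1 (ω : Om) : (pt ω) 1 = SEP_S (fun k => (ω k).2) := by
  simp [pt, SEP_S]

theorem SEP_pre {ω ω' : Om} {n : ℕ} (h : pre ω n = pre ω' n) : ∀ k < n, ω k = ω' k := by
  intro k hk
  unfold pre at h
  exact (List.map_inj_left.1 h) k (List.mem_range.2 hk)

theorem SEP_dist (x y : E2) : dist x y = √((x 0 - y 0) ^ 2 + (x 1 - y 1) ^ 2) := by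
  rw [EuclideanSpace.dist_eq, Fin.sum_univ_two, Real.dist_eq, Real.dist_eq, sq_abs, sq_abs]

theorem SEP_lo (ω ω' : Om) (n : ℕ) (h : pre ω n = pre ω' n) (hne : ω n ≠ ω' n) :
    (1 / 5 : ℝ) ^ (n + 1) ≤ dist (pt ω) (pt ω') := by
  have h1 := SEP_pre h
  rw [SEP_dist, SEP_pt0, SEP_pt0, SEP_pt1, SEP_pt1]
  by_cases hc : (ω n).1 = (ω' n).1
  · have hc2 : (ω n).2 ≠ (ω' n).2 := fun h2 => hne (Prod.ext hc h2)
    have h2 := SEP_S_lo (a := fun k => (ω k).2) (b := fun k => (ω' k).2) (n := n)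
      (fun k hk => by rw [h1 k hk]) hc2
    refine h2.trans ?_
    rw [← Real.sqrt_sq_eq_abs]
    apply Real.sqrt_le_sqrt
    linarith [sq_nonneg (SEP_S (fun k => (ω k).1) - SEP_S (fun k => (ω' k).1))]
  · have h2 := SEP_S_lo (a := fun k => (ω k).1) (b := fun k => (ω' k).1) (n := n)
      (fun k hk => by rw [h1 k hk]) hc
    refine h2.trans ?_
    rw [← Real.sqrt_sq_eq_abs]
    apply Real.sqrt_le_sqrt
    linarith [sq_nonneg (SEP_S (fun k => (ω k).2) - SEP_S (fun k => (ω' k).2))]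

theorem SEP_up (ω ω' : Om) (n : ℕ) (h : pre ω n = pre ω' n) :
    dist (pt ω) (pt ω') ≤ 2 * (1 / 5 : ℝ) ^ n := by
  have h1 := SEP_pre h
  rw [SEP_dist, SEP_pt0, SEP_pt0, SEP_pt1, SEP_pt1]
  have h2 := SEP_S_up (a := fun k => (ω k).1) (b := fun k => (ω' k).1) (n := n)
    (fun k hk => by rw [h1 k hk])
  have h3 := SEP_S_up (a := fun k => (ω k).2) (b := fun k => (ω' k).2) (n := n)
    (fun k hk => by rw [h1 k hk])
  apply Real.sqrt_le_iff.2
  refine ⟨by positivity, ?_⟩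
  have h4 : (0:ℝ) < (1 / 5) ^ n := by positivity
  have h5 := sq_le_sq' (by linarith [neg_abs_le (SEP_S (fun k => (ω k).1) - SEP_S (fun k => (ω' k).1))])
    ((le_abs_self _).trans h2)
  have h6 := sq_le_sq' (by linarith [neg_abs_le (SEP_S (fun k => (ω k).2) - SEP_S (fun k => (ω' k).2))])
    ((le_abs_self _).trans h3)
  nlinarith

theorem SEP_F (l : ℝ) (ω : Om) : (pt ω) 0 + l * (pt ω) 1 = F l ω := by
  rw [SEP_pt0, SEP_pt1]
  unfold SEP_S F off
  rw [← tsum_mul_left, ← Summable.tsum_add (SEP_summable _) ((SEP_summable _).mul_left l)]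
  apply tsum_congr
  intro k
  ring

theorem SEP_cont : Continuous pt := by
  rw [Metric.continuous_iff']
  intro ω ε hε
  obtain ⟨n, hn⟩ := exists_pow_lt_of_lt_one (show (0:ℝ) < ε / 2 by linarith)
    (show (1 / 5 : ℝ) < 1 by norm_num)
  have h1 : ∀ᶠ ω' : Om in 𝓝 ω, ∀ k ∈ Finset.range n, ω' k = ω k := by
    rw [Filter.eventually_all_finset]
    intro k _
    have h2 : Filter.Tendsto (fun ω' : Om => ω' k) (𝓝 ω) (𝓝 (ω k)) :=
      (continuous_apply k).tendsto ω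
    rw [nhds_discrete Dg] at h2
    exact Filter.tendsto_pure.1 h2
  filter_upwards [h1] with ω' hω'
  have h3 : pre ω' n = pre ω n := by
    unfold pre
    apply List.map_congr_left
    intro k hk
    exact hω' k (Finset.mem_range.2 (List.mem_range.1 hk))
  have h4 := SEP_up ω' ω n h3
  linarith

theorem t_SEP : S_SEP := ⟨SEP_lo, SEP_up, SEP_F, SEP_cont⟩

end Pool.Agent.R244.PS
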