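import Pool.Agent.R244.PS.Stm

namespace Pool.Agent.R244.PS

open MeasureTheory Set Metric Topology Filter
open scoped ENNReal NNReal Classical

noncomputable def SING_A (y : ℝ) : ℂ :=
  (1 + Complex.exp (2 * y * Complex.I) + Complex.exp (4 * y * Complex.I)) / 3

noncomputable def SING_P (l y : ℝ) : ℂ :=
  9⁻¹ * ∑ i : Dg, Complex.exp (y * off l i * Complex.I)

theorem SING_P_eq (l y : ℝ) : SING_P l y = SING_A y * SING_A (l * y) := by
  have key : ∀ a b : ℕ, Complex.exp (y * ((2 * (a : ℝ) + l * (2 * (b : ℝ)) : ℝ) : ℂ) * Complex.I)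
      = Complex.exp (2 * y * Complex.I) ^ a * Complex.exp (2 * ((l * y : ℝ) : ℂ) * Complex.I) ^ b := by
    intro a b
    rw [← Complex.exp_nat_mul, ← Complex.exp_nat_mul, ← Complex.exp_add]
    congr 1
    push_cast
    ring
  have h4 : ∀ z : ℝ, Complex.exp (4 * z * Complex.I) = Complex.exp (2 * z * Complex.I) ^ 2 := by
    intro z
    rw [← Complex.exp_nat_mul]
    congr 1
    push_cast
    ring
  unfold SING_P SING_A off dg
  rw [Fintype.sum_prod_type]
  simp only [key, h4]
  simp only [Fin.sum_univ_three]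
  simp only [Fin.val_zero, Fin.val_one, Fin.val_two, pow_zero, pow_one]
  ring

theorem SING_A_one (k : ℤ) : SING_A (2 * Real.pi * k) = 1 := by
  unfold SING_A
  have h1 : Complex.exp (2 * ((2 * Real.pi * k : ℝ) : ℂ) * Complex.I) = 1 := by
    rw [Complex.exp_eq_one_iff]
    exact ⟨2 * k, by push_cast; ring⟩
  have h2 : Complex.exp (4 * ((2 * Real.pi * k : ℝ) : ℂ) * Complex.I) = 1 := by
    rw [Complex.exp_eq_one_iff]
    exact ⟨4 * k, by push_cast; ring⟩
  rw [h1, h2]
  norm_num

theorem SING_A_ne (k : ℤ) (j : ℕ) : SING_A (2 * Real.pi * k / 5 ^ j) ≠ 0 := by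
  intro h
  unfold SING_A at h
  set z := Complex.exp (2 * ((2 * Real.pi * k / 5 ^ j : ℝ) : ℂ) * Complex.I) with hz
  have h4 : Complex.exp (4 * ((2 * Real.pi * k / 5 ^ j : ℝ) : ℂ) * Complex.I) = z ^ 2 := by
    rw [hz, ← Complex.exp_nat_mul]
    congr 1
    push_cast
    ring
  rw [h4] at h
  have h0 : 1 + z + z ^ 2 = 0 := by
    have h3 : (3 : ℂ) ≠ 0 := by norm_num
    rcases div_eq_zero_iff.mp h with h' | h'
    · exact h'
    · exact absurd h' h3
  have hz3 : z ^ 3 = 1 := by linear_combination (z - 1) * h0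
  have hz3' : Complex.exp (((3 : ℕ) : ℂ) * (2 * ((2 * Real.pi * k / 5 ^ j : ℝ) : ℂ) * Complex.I))
      = 1 := by
    rw [Complex.exp_nat_mul, ← hz, hz3]
  rw [Complex.exp_eq_one_iff] at hz3'
  obtain ⟨n, hn⟩ := hz3'
  have hpi : (Real.pi : ℂ) ≠ 0 := by exact_mod_cast Real.pi_ne_zero
  have h5 : (5 : ℂ) ^ j ≠ 0 := pow_ne_zero _ (by norm_num)
  have hn2 : (6 * k : ℂ) = n * 5 ^ j := by
    push_cast at hn
    field_simp at hn
    linear_combination hn
  have hn3 : 6 * k = n * 5 ^ j := by exact_mod_cast hn2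
  have hdvd : (5 : ℤ) ^ j ∣ 6 * k := ⟨n, by rw [hn3]; ring⟩
  have hcop : IsCoprime ((5 : ℤ) ^ j) 6 := IsCoprime.pow_left ⟨-1, 1, by norm_num⟩
  obtain ⟨m, hm⟩ := hcop.dvd_of_dvd_mul_left hdvd
  have hz1 : z = 1 := by
    rw [hz, Complex.exp_eq_one_iff]
    refine ⟨2 * m, ?_⟩
    rw [hm]
    push_cast
    field_simp
  rw [hz1] at h0
  norm_num at h0

theorem SING_quasi (c : ℝ) (B : Set ℝ) (hB : MeasurableSet B) (h0 : volume B = 0) :
    volume ((fun t : ℝ => (t + c) / 5) ⁻¹' B) = 0 := by
  have h1 : (fun t : ℝ => (t + c) / 5) = (fun t => t * (1 / 5)) ∘ (fun t => t + c) := by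
    funext t
    simp [div_eq_mul_inv]
  have hm : Measurable (fun t : ℝ => (t + c) / 5) := by fun_prop
  rw [← Measure.map_apply hm hB, h1, ← Measure.map_map (by fun_prop) (by fun_prop),
    map_add_right_eq_self, Real.map_volume_mul_right (by norm_num), Measure.smul_apply, h0,
    smul_zero]

theorem SING_quasi' (c : ℝ) (B : Set ℝ) (hB : MeasurableSet B) (h0 : volume B = 0) :
    volume ((fun t : ℝ => 5 * t - c) ⁻¹' B) = 0 := by
  have h1 : (fun t : ℝ => 5 * t - c) = (fun t => t + (-c)) ∘ (fun t => t * 5) := by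
    funext t
    simp only [Function.comp_def]
    ring
  have hm : Measurable (fun t : ℝ => 5 * t - c) := by fun_prop
  rw [← Measure.map_apply hm hB, h1, ← Measure.map_map (by fun_prop) (by fun_prop),
    Real.map_volume_mul_right (by norm_num), Measure.map_smul, map_add_right_eq_self,
    Measure.smul_apply, h0, smul_zero]

theorem SING_decomp (l : ℝ) (ν : Measure ℝ) [IsFiniteMeasure ν]
    (h : ν = (9⁻¹ : ℝ≥0∞) • Measure.sum (fun i : Dg => ν.map (fun t => (t + off l i) / 5))) :
    volume.withDensity (ν.rnDeriv volume) = (9⁻¹ : ℝ≥0∞) • Measure.sum (fun i : Dg =>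
      (volume.withDensity (ν.rnDeriv volume)).map (fun t => (t + off l i) / 5)) := by
  set ρ := volume.withDensity (ν.rnDeriv volume) with hρ
  set s := ν.singularPart volume with hs
  have hν : ν = s + ρ := (Measure.singularPart_add_rnDeriv ν volume).symm
  have hmeas : ∀ i : Dg, Measurable (fun t : ℝ => (t + off l i) / 5) := fun i => by fun_prop
  set Lρ := (9⁻¹ : ℝ≥0∞) • Measure.sum (fun i : Dg => ρ.map (fun t => (t + off l i) / 5)) with hLρ
  set Ls := (9⁻¹ : ℝ≥0∞) • Measure.sum (fun i : Dg => s.map (fun t => (t + off l i) / 5)) with hLs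
  have hL : ν = Ls + Lρ := by
    conv_lhs => rw [h]
    rw [hLs, hLρ, ← smul_add]
    congr 1
    rw [Measure.sum_add_sum]
    congr 1
    funext i
    rw [← Measure.map_add _ _ (hmeas i), ← hν]
  have hsing : Ls ⟂ₘ volume := by
    refine Measure.MutuallySingular.smul _ ?_
    rw [Measure.MutuallySingular.sum_left]
    intro i
    obtain ⟨A, hA, hsA, hvA⟩ := Measure.mutuallySingular_singularPart ν volume
    refine ⟨(fun t : ℝ => 5 * t - off l i) ⁻¹' A, ?_, ?_, ?_⟩
    · exact (by fun_prop : Measurable (fun t : ℝ => 5 * t - off l i)) hA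
    · rw [Measure.map_apply (hmeas i)
        ((by fun_prop : Measurable (fun t : ℝ => 5 * t - off l i)) hA)]
      have : (fun t : ℝ => (t + off l i) / 5) ⁻¹' ((fun t : ℝ => 5 * t - off l i) ⁻¹' A) = A := by
        ext t
        simp only [Set.mem_preimage]
        have : 5 * ((t + off l i) / 5) - off l i = t := by ring
        rw [this]
      rw [this]
      exact hsA
    · rw [← Set.preimage_compl]
      exact SING_quasi' _ _ hA.compl hvA
  have hac : Lρ ≪ volume := by
    refine Measure.AbsolutelyContinuous.smul_left ?_ _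
    refine Measure.absolutelyContinuous_sum_left ?_
    intro i
    refine Measure.AbsolutelyContinuous.mk ?_
    intro B hB h0
    rw [Measure.map_apply (hmeas i) hB]
    exact withDensity_absolutelyContinuous _ _ (SING_quasi _ _ hB h0)
  have : IsFiniteMeasure Lρ := by
    refine isFiniteMeasure_of_le ν ?_
    rw [hL]
    exact Measure.le_add_left le_rfl
  have h1 : Lρ = volume.withDensity (Lρ.rnDeriv volume) :=
    (Measure.withDensity_rnDeriv_eq Lρ volume hac).symm
  have h2 := Measure.eq_withDensity_rnDeriv (μ := ν) (ν := volume) (s := Ls)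
    (f := Lρ.rnDeriv volume) (Measure.measurable_rnDeriv _ _) hsing (by rw [← h1]; exact hL)
  rw [← h1] at h2
  exact h2.symm

theorem SING_charfun (l : ℝ) (ρ : Measure ℝ) [IsFiniteMeasure ρ]
    (h : ρ = (9⁻¹ : ℝ≥0∞) • Measure.sum (fun i : Dg => ρ.map (fun t => (t + off l i) / 5)))
    (x : ℝ) : (∫ t, Complex.exp (x * t * Complex.I) ∂ρ)
      = SING_P l (x / 5) * ∫ t, Complex.exp ((x / 5 : ℝ) * t * Complex.I) ∂ρ := by
  have hmeas : ∀ i : Dg, Measurable (fun t : ℝ => (t + off l i) / 5) := fun i => by fun_prop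
  have hint : ∀ (ρ' : Measure ℝ) [IsFiniteMeasure ρ'] (y : ℝ),
      Integrable (fun t : ℝ => Complex.exp (y * t * Complex.I)) ρ' := by
    intro ρ' _ y
    refine Integrable.of_bound (C := 1) (by fun_prop) ?_
    filter_upwards with t
    have : (y * t * Complex.I : ℂ) = ((y * t : ℝ) : ℂ) * Complex.I := by push_cast; ring
    rw [this, Complex.norm_exp_ofReal_mul_I]
  have hfin : ∀ i : Dg, IsFiniteMeasure (ρ.map (fun t => (t + off l i) / 5)) := by
    intro i; infer_instance
  conv_lhs => rw [h]
  rw [integral_smul_measure, Measure.sum_fintype, integral_finsetSum_measure]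
  · have h9 : ((9⁻¹ : ℝ≥0∞).toReal) = (9⁻¹ : ℝ) := by simp
    rw [h9]
    have hterm : ∀ i : Dg, ∫ t, Complex.exp (x * t * Complex.I) ∂(ρ.map (fun t => (t + off l i) / 5))
        = Complex.exp ((x / 5 : ℝ) * off l i * Complex.I) *
          ∫ t, Complex.exp ((x / 5 : ℝ) * t * Complex.I) ∂ρ := by
      intro i
      rw [integral_map (hmeas i).aemeasurable (by fun_prop), ← integral_const_mul]
      congr 1
      funext t
      rw [← Complex.exp_add]
      congr 1
      push_cast
      ring
    rw [Finset.sum_congr rfl (fun i _ => hterm i), ← Finset.sum_mul]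
    unfold SING_P
    rw [Complex.real_smul]
    push_cast
    ring
  · intro i _
    exact hint _ x

theorem SING_RL (ν : Measure ℝ) [IsFiniteMeasure ν] :
    Tendsto (fun x : ℝ => ∫ t, Complex.exp (x * t * Complex.I)
      ∂(volume.withDensity (ν.rnDeriv volume))) (cocompact ℝ) (𝓝 0) := by
  have h := Real.tendsto_integral_exp_smul_cocompact
    (fun v : ℝ => (((ν.rnDeriv volume v).toReal : ℝ) : ℂ))
  have hc : Tendsto (fun x : ℝ => x * (-(2 * Real.pi)⁻¹)) (cocompact ℝ) (cocompact ℝ) := by
    apply tendsto_cocompact_mul_right₀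
    have := Real.pi_ne_zero
    exact neg_ne_zero.mpr (inv_ne_zero (by positivity))
  have h2 := h.comp hc
  refine h2.congr ?_
  intro x
  simp only [Function.comp_def]
  rw [integral_withDensity_eq_integral_toReal_smul (Measure.measurable_rnDeriv _ _)
    (Measure.rnDeriv_lt_top _ _)]
  congr 1
  funext t
  rw [Circle.smul_def, Real.fourierChar_apply, smul_eq_mul, Complex.real_smul, mul_comm]
  congr 2
  have hpi : (Real.pi : ℂ) ≠ 0 := by exact_mod_cast Real.pi_ne_zero
  push_cast
  field_simp

theorem t_SING (hSt : S_STAT) (_hB : S_BAS) : S_SING := by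
  intro μ hμ a b ha hab hb
  obtain ⟨r, hr1, hr2⟩ := exists_rat_btwn hab
  refine ⟨r, ⟨hr1, hr2⟩, ?_⟩
  set l : ℝ := (r : ℝ) with hl
  have := hμ.1
  set ν := μ.map (F l) with hν
  have hmeas : ∀ i : Dg, Measurable (fun t : ℝ => (t + off l i) / 5) := fun i => by fun_prop
  have hst : ν = (9⁻¹ : ℝ≥0∞) • Measure.sum (fun i : Dg =>
      ν.map (fun t => (t + off l i) / 5)) := by
    refine Measure.ext ?_
    intro B hB
    rw [Measure.smul_apply, Measure.sum_fintype, Measure.finsetSum_apply, smul_eq_mul]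
    rw [hν, hSt μ hμ l B hB]
    congr 1
    refine Finset.sum_congr rfl ?_
    intro i _
    rw [Measure.map_apply (hmeas i) hB]
  have hdec := SING_decomp l ν hst
  set ρ := volume.withDensity (ν.rnDeriv volume) with hρ
  have : IsFiniteMeasure ρ := by
    rw [hρ]
    exact isFiniteMeasure_of_le ν (Measure.withDensity_rnDeriv_le ν volume)
  set φ : ℝ → ℂ := fun x => ∫ t, Complex.exp (x * t * Complex.I) ∂ρ with hφ
  have hrec : ∀ x, φ x = SING_P l (x / 5) * φ (x / 5) := fun x => SING_charfun l ρ hdec x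
  have hq0 : (r.den : ℝ) ≠ 0 := by exact_mod_cast r.den_ne_zero
  have hlq : l * r.den = r.num := by
    rw [hl]
    exact_mod_cast Rat.mul_den_eq_num r
  -- the values at the integers
  have hconst : ∀ n : ℕ, φ (2 * Real.pi * ((r.den * 5 ^ n : ℕ) : ℝ)) = φ (2 * Real.pi * r.den) := by
    intro n
    induction n with
    | zero => simp
    | succ n ih =>
      rw [hrec]
      have h1 : 2 * Real.pi * ((r.den * 5 ^ (n + 1) : ℕ) : ℝ) / 5
          = 2 * Real.pi * ((r.den * 5 ^ n : ℕ) : ℝ) := by
        push_cast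
        ring
      rw [h1, ih, SING_P_eq]
      have h2 : SING_A (2 * Real.pi * ((r.den * 5 ^ n : ℕ) : ℝ)) = 1 := by
        have := SING_A_one ((r.den * 5 ^ n : ℕ) : ℤ)
        rwa [Int.cast_natCast] at this
      have h3 : SING_A (l * (2 * Real.pi * ((r.den * 5 ^ n : ℕ) : ℝ))) = 1 := by
        have := SING_A_one (r.num * 5 ^ n)
        have h4 : l * (2 * Real.pi * ((r.den * 5 ^ n : ℕ) : ℝ))
            = 2 * Real.pi * ((r.num * 5 ^ n : ℤ) : ℝ) := by
          push_cast
          rw [← hlq]
          ring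
        rw [h4]
        exact this
      rw [h2, h3, one_mul, one_mul]
  have hzero : φ (2 * Real.pi * r.den) = 0 := by
    have hto : Tendsto (fun n : ℕ => 2 * Real.pi * ((r.den * 5 ^ n : ℕ) : ℝ)) atTop
        (cocompact ℝ) := by
      have h1 : Tendsto (fun n : ℕ => 2 * Real.pi * ((r.den * 5 ^ n : ℕ) : ℝ)) atTop atTop := by
        apply Tendsto.const_mul_atTop (by positivity)
        have h2 : Tendsto (fun n : ℕ => (5 : ℝ) ^ n) atTop atTop :=
          tendsto_pow_atTop_atTop_of_one_lt (by norm_num)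
        refine tendsto_atTop_mono ?_ h2
        intro n
        push_cast
        have : (1 : ℝ) ≤ r.den := by exact_mod_cast r.den_pos
        nlinarith [pow_pos (show (0 : ℝ) < 5 by norm_num) n]
      exact h1.mono_right atTop_le_cocompact
    have h1 := (SING_RL ν).comp hto
    have h2 : Tendsto (fun n : ℕ => φ (2 * Real.pi * ((r.den * 5 ^ n : ℕ) : ℝ))) atTop (𝓝 0) := h1
    simp only [hconst] at h2
    exact tendsto_nhds_unique tendsto_const_nhds h2
  have hdown : ∀ m : ℕ, φ (2 * Real.pi * r.den / 5 ^ m) = 0 := by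
    intro m
    induction m with
    | zero => simpa using hzero
    | succ m ih =>
      rw [hrec] at ih
      have h1 : 2 * Real.pi * r.den / 5 ^ m / 5 = 2 * Real.pi * r.den / 5 ^ (m + 1) := by
        rw [pow_succ]
        field_simp
      rw [h1, SING_P_eq] at ih
      have h2 : SING_A (2 * Real.pi * r.den / 5 ^ (m + 1)) ≠ 0 := by
        have := SING_A_ne (r.den : ℤ) (m + 1)
        rwa [Int.cast_natCast] at this
      have h3 : SING_A (l * (2 * Real.pi * r.den / 5 ^ (m + 1))) ≠ 0 := by
        have := SING_A_ne r.num (m + 1)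
        have h4 : l * (2 * Real.pi * r.den / 5 ^ (m + 1))
            = 2 * Real.pi * r.num / 5 ^ (m + 1) := by
          rw [← hlq]
          ring
        rw [h4]
        exact this
      rcases mul_eq_zero.mp ih with h | h
      · exact absurd h (mul_ne_zero h2 h3)
      · exact h
  have hcont : Continuous φ := by
    rw [hφ]
    refine continuous_of_dominated (bound := fun _ => 1) ?_ ?_ (integrable_const _) ?_
    · intro x
      fun_prop
    · intro x
      filter_upwards with t
      have : (x * t * Complex.I : ℂ) = ((x * t : ℝ) : ℂ) * Complex.I := by push_cast; ring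
      rw [this, Complex.norm_exp_ofReal_mul_I]
    · filter_upwards with t
      fun_prop
  have h0 : φ 0 = 0 := by
    have hto : Tendsto (fun m : ℕ => 2 * Real.pi * r.den / 5 ^ m) atTop (𝓝 0) := by
      have h1 : Tendsto (fun m : ℕ => 2 * Real.pi * r.den * (1 / 5 : ℝ) ^ m) atTop
          (𝓝 (2 * Real.pi * r.den * 0)) :=
        (tendsto_pow_atTop_nhds_zero_of_lt_one (by norm_num) (by norm_num)).const_mul _
      rw [mul_zero] at h1
      refine h1.congr ?_
      intro m
      rw [one_div, inv_pow, div_eq_mul_inv]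
    have h2 := (hcont.tendsto 0).comp hto
    simp only [Function.comp_def, hdown] at h2
    exact (tendsto_nhds_unique tendsto_const_nhds h2).symm
  have hρ0 : ρ = 0 := by
    have h1 : φ 0 = ((ρ.real univ : ℝ) : ℂ) := by
      simp [hφ]
    rw [h1] at h0
    have h2 : ρ.real univ = 0 := by exact_mod_cast h0
    rw [Measure.real, ENNReal.toReal_eq_zero_iff] at h2
    rcases h2 with h2 | h2
    · exact Measure.measure_univ_eq_zero.mp h2
    · exact absurd h2 (measure_ne_top ρ univ)
  exact (Measure.withDensity_rnDeriv_eq_zero ν volume).mp hρ0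

end Pool.Agent.R244.PS
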