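import Pool.Agent.R244.PS.Stm

namespace Pool.Agent.R244.PS

open MeasureTheory Set Metric Topology Filter
open scoped ENNReal NNReal Classical

theorem t_STAT (hM : S_MARK) (hB : S_BAS) : S_STAT := by
  obtain ⟨b1, _, _, _, b5⟩ := hB
  intro μ hμ l B hBm
  have hF : Measurable (F l) := (b5 l).measurable
  have hrec : ∀ ω : Om, F l ω = (F l (shf 1 ω) + off l (ω 0)) / 5 := by
    intro ω
    have h := b1 l ω 1
    have h2 : pre ω 1 = [ω 0] := by simp [pre, List.range_succ]
    rw [h2] at h
    unfold T at h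
    simp only [lft, List.length_singleton, pow_one, add_zero] at h
    linarith
  rw [Measure.map_apply hF hBm]
  have hf : Measurable fun ω : Om => ω 0 := measurable_pi_apply 0
  have h1 : μ (F l ⁻¹' B) = ∑ i : Dg, μ ((fun ω : Om => ω 0) ⁻¹' {i} ∩ F l ⁻¹' B) := by
    have h2 := sum_measure_preimage_singleton (μ := μ.restrict (F l ⁻¹' B)) (Finset.univ : Finset Dg)
      (f := fun ω : Om => ω 0) (fun y _ => hf (measurableSet_singleton y))
    simp only [Finset.coe_univ, preimage_univ, Measure.restrict_apply_univ] at h2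
    rw [← h2]
    apply Finset.sum_congr rfl
    intro i _
    rw [Measure.restrict_apply (hf (measurableSet_singleton i))]
  rw [h1, Finset.mul_sum]
  apply Finset.sum_congr rfl
  intro i _
  have hm : Measurable fun t : ℝ => (t + off l i) / 5 := by fun_prop
  rw [Measure.map_apply hF (hm hBm)]
  have h3 := hM μ hμ [i] (F l ⁻¹' ((fun t : ℝ => (t + off l i) / 5) ⁻¹' B)) (hF (hm hBm))
  simp only [List.length_singleton, pow_one] at h3
  rw [← h3]
  congr 1
  ext ω
  simp only [mem_inter_iff, mem_preimage, mem_singleton_iff, cyl, mem_ofPred_eq]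
  have h2 : pre ω [i].length = [ω 0] := by simp [pre, List.range_succ]
  rw [h2, hrec ω]
  constructor
  · rintro ⟨h4, h5⟩
    rw [h4] at h5
    exact ⟨by rw [h4], h5⟩
  · rintro ⟨h4, h5⟩
    have h6 : ω 0 = i := by simpa using h4
    exact ⟨h6, by rw [h6]; exact h5⟩

end Pool.Agent.R244.PS
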