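import Pool.Agent.R244.PS.Stm

namespace Pool.Agent.R244.PS

open MeasureTheory Set Metric Topology Filter
open scoped ENNReal NNReal Classical

theorem STOP_pre_length (ω : Om) (n : ℕ) : (pre ω n).length = n := by simp [pre]

theorem STOP_take (ω : Om) {j k : ℕ} (h : j ≤ k) : (pre ω k).take j = pre ω j := by
  unfold pre
  rw [← List.map_take, List.take_range, min_eq_left h]

theorem STOP_measT (l : ℝ) (I : List Dg) : Measurable (fun t : ℝ => T l I t) := by
  unfold T
  exact (measurable_id.sub_const _).const_mul _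

/-- the set of heights with `I` in the stopping antichain -/
theorem STOP_meas (l : ℝ) {U : Set ℝ} (hU : MeasurableSet U) (k₀ N : ℕ) (I : List Dg) :
    MeasurableSet {t : ℝ | I ∈ Stop l U k₀ N t} := by
  have e : {t : ℝ | I ∈ Stop l U k₀ N t} = {t | k₀ ≤ I.length} ∩ ({t | I.length ≤ N} ∩
      ((fun t => T l I t) ⁻¹' U ∩ ⋂ k, ⋂ (_ : k₀ ≤ k), ⋂ (_ : k < I.length),
        ((fun t => T l (I.take k) t) ⁻¹' U)ᶜ)) := by
    ext t
    simp [Stop]
  rw [e]
  refine (MeasurableSet.const _).inter ((MeasurableSet.const _).inter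
    (((STOP_measT l I) hU).inter ?_))
  exact MeasurableSet.iInter fun k => MeasurableSet.iInter fun _ => MeasurableSet.iInter fun _ =>
    ((STOP_measT l (I.take k)) hU).compl

theorem STOP_piece (hM : S_MARK) (hB : S_BAS) (μ : Measure Om) (hμ : IsUnif μ) (l : ℝ)
    (hac : μ.map (F l) ≪ volume) (U B : Set ℝ) (k₀ N : ℕ) (η : ℝ≥0∞) (hU : MeasurableSet U)
    (hBm : MeasurableSet B)
    (hη : ∀ᵐ u : ℝ, u ∈ U → (μ.map (F l)).rnDeriv volume u ≤ η) (I : List Dg) :
    μ (cyl I ∩ {ω | F l ω ∈ B ∩ {t : ℝ | I ∈ Stop l U k₀ N t}}) ≤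
      η * ∫⁻ t in B, (Stop l U k₀ N t).indicator (fun I => (5 / 9 : ℝ≥0∞) ^ I.length) I := by
  obtain ⟨hB1, -, -, -, hB5⟩ := hB
  haveI := hμ.1
  have hFm : Measurable (F l) := (hB5 l).measurable
  haveI : IsProbabilityMeasure (μ.map (F l)) := Measure.isProbabilityMeasure_map hFm.aemeasurable
  set BI : Set ℝ := B ∩ {t : ℝ | I ∈ Stop l U k₀ N t} with hBI
  have hBIm : MeasurableSet BI := hBm.inter (STOP_meas l hU k₀ N I)
  set n := I.length with hn
  have h5 : (0:ℝ) < 5 ^ n := by positivity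
  set g : ℝ → ℝ := fun v => lft l I + v / 5 ^ n with hg
  have hgm : Measurable g := (measurable_id.div_const _).const_add _
  -- rewrite the event
  have e1 : cyl I ∩ {ω | F l ω ∈ BI} = cyl I ∩ {ω | shf I.length ω ∈ F l ⁻¹' (g ⁻¹' BI)} := by
    ext ω
    constructor
    · rintro ⟨h1, h2⟩
      refine ⟨h1, ?_⟩
      have h3 := hB1 l ω n
      have h4 : pre ω n = I := h1
      rw [h4] at h3
      have h6 : g (F l (shf n ω)) = F l ω := by
        rw [← h3, hg]
        simp only [T, ← hn]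
        field_simp
        ring
      change g (F l (shf n ω)) ∈ BI
      rw [h6]
      exact h2
    · rintro ⟨h1, h2⟩
      refine ⟨h1, ?_⟩
      have h3 := hB1 l ω n
      have h4 : pre ω n = I := h1
      rw [h4] at h3
      have h6 : g (F l (shf n ω)) = F l ω := by
        rw [← h3, hg]
        simp only [T, ← hn]
        field_simp
        ring
      change g (F l (shf n ω)) ∈ BI at h2
      rw [h6] at h2
      exact h2
  rw [e1, hM μ hμ I _ (hFm (hgm hBIm)), ← hn, ← Measure.map_apply hFm (hgm hBIm)]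
  -- density bound
  have e2 : (μ.map (F l)) (g ⁻¹' BI) ≤ η * volume (g ⁻¹' BI) := by
    have e3 : volume.withDensity ((μ.map (F l)).rnDeriv volume) = μ.map (F l) :=
      Measure.withDensity_rnDeriv_eq _ _ hac
    conv_lhs => rw [← e3]
    rw [withDensity_apply _ (hgm hBIm)]
    calc ∫⁻ a in g ⁻¹' BI, (μ.map (F l)).rnDeriv volume a ≤ ∫⁻ a in g ⁻¹' BI, η := by
          apply lintegral_mono_ae
          rw [ae_restrict_iff' (hgm hBIm)]
          filter_upwards [hη] with u hu hu2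
          apply hu
          have h7 : I ∈ Stop l U k₀ N (g u) := hu2.2
          have h8 : T l I (g u) ∈ U := h7.2.2.1
          have h9 : T l I (g u) = u := by
            simp only [T, hg, ← hn]
            field_simp
            ring
          rw [h9] at h8
          exact h8
      _ = η * volume (g ⁻¹' BI) := by rw [setLIntegral_const]
  have e4 : volume (g ⁻¹' BI) = 5 ^ n * volume BI := by
    have h7 : g ⁻¹' BI = (fun v : ℝ => v * (5 ^ n)⁻¹) ⁻¹' ((fun t => lft l I + t) ⁻¹' BI) := by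
      ext v
      simp [hg, div_eq_mul_inv]
    rw [h7, Real.volume_preimage_mul_right (by positivity), measure_preimage_add]
    congr 1
    rw [inv_inv, abs_of_pos h5, ENNReal.ofReal_pow (by norm_num)]
    norm_num
  have e5 : ∫⁻ t in B, (Stop l U k₀ N t).indicator (fun I => (5 / 9 : ℝ≥0∞) ^ I.length) I =
      (5 / 9 : ℝ≥0∞) ^ n * volume BI := by
    have h7 : ∀ t, (Stop l U k₀ N t).indicator (fun I => (5 / 9 : ℝ≥0∞) ^ I.length) I =
        {t : ℝ | I ∈ Stop l U k₀ N t}.indicator (fun _ => (5 / 9 : ℝ≥0∞) ^ n) t := by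
      intro t
      simp only [indicator_apply, mem_setOf_eq, ← hn]
    simp only [h7]
    rw [lintegral_indicator (STOP_meas l hU k₀ N I), setLIntegral_const,
      Measure.restrict_apply (STOP_meas l hU k₀ N I), inter_comm]
  rw [e5]
  calc (9⁻¹ : ℝ≥0∞) ^ n * (μ.map (F l)) (g ⁻¹' BI) ≤ (9⁻¹ : ℝ≥0∞) ^ n * (η * (5 ^ n * volume BI)) := by
        rw [e4] at e2
        gcongr
    _ = η * (((5 : ℝ≥0∞) * 9⁻¹) ^ n * volume BI) := by rw [mul_pow]; ring
    _ = η * ((5 / 9 : ℝ≥0∞) ^ n * volume BI) := by rw [ENNReal.div_eq_inv_mul, mul_comm 5]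

theorem t_STOP (hM : S_MARK) (hB : S_BAS) : S_STOP := by
  intro μ hμ l hl1 hl2 hac U B k₀ N η hU hBm hη
  have hsub : {ω | F l ω ∈ B ∧ ∃ k, k₀ ≤ k ∧ k ≤ N ∧ F l (shf k ω) ∈ U} ⊆
      ⋃ I : List Dg, cyl I ∩ {ω | F l ω ∈ B ∩ {t : ℝ | I ∈ Stop l U k₀ N t}} := by
    rintro ω ⟨h1, h2⟩
    obtain ⟨h3, h4, h5⟩ := Nat.find_spec h2
    have hmin : ∀ j, j < Nat.find h2 → ¬ (k₀ ≤ j ∧ j ≤ N ∧ F l (shf j ω) ∈ U) :=
      fun j hj => Nat.find_min h2 hj
    set k := Nat.find h2 with hk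
    refine mem_iUnion.2 ⟨pre ω k, ?_, h1, ?_⟩
    · change pre ω (pre ω k).length = pre ω k
      rw [STOP_pre_length]
    · refine ⟨?_, ?_, ?_, ?_⟩
      · rw [STOP_pre_length]; exact h3
      · rw [STOP_pre_length]; exact h4
      · rw [hB.1]; exact h5
      · intro j hj1 hj2 hj3
        rw [STOP_pre_length] at hj2
        rw [STOP_take ω hj2.le, hB.1] at hj3
        exact hmin j hj2 ⟨hj1, by omega, hj3⟩
  calc μ {ω | F l ω ∈ B ∧ ∃ k, k₀ ≤ k ∧ k ≤ N ∧ F l (shf k ω) ∈ U}
      ≤ μ (⋃ I : List Dg, cyl I ∩ {ω | F l ω ∈ B ∩ {t : ℝ | I ∈ Stop l U k₀ N t}}) :=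
        measure_mono hsub
    _ ≤ ∑' I : List Dg, μ (cyl I ∩ {ω | F l ω ∈ B ∩ {t : ℝ | I ∈ Stop l U k₀ N t}}) :=
        measure_iUnion_le _
    _ ≤ ∑' I : List Dg, η * ∫⁻ t in B,
          (Stop l U k₀ N t).indicator (fun I => (5 / 9 : ℝ≥0∞) ^ I.length) I :=
        ENNReal.tsum_le_tsum fun I => STOP_piece hM hB μ hμ l hac U B k₀ N η hU hBm hη I
    _ = η * ∑' I : List Dg, ∫⁻ t in B,
          (Stop l U k₀ N t).indicator (fun I => (5 / 9 : ℝ≥0∞) ^ I.length) I := ENNReal.tsum_mul_left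
    _ = η * ∫⁻ t in B, stopSum l U k₀ N t := by
        congr 1
        unfold stopSum
        rw [lintegral_tsum]
        intro I
        have h7 : (fun t => (Stop l U k₀ N t).indicator (fun I => (5 / 9 : ℝ≥0∞) ^ I.length) I) =
            {t : ℝ | I ∈ Stop l U k₀ N t}.indicator (fun _ => (5 / 9 : ℝ≥0∞) ^ I.length) := by
          funext t
          simp only [indicator_apply, mem_setOf_eq]
        rw [h7]
        exact (measurable_const.indicator (STOP_meas l hU k₀ N I)).aemeasurable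

end Pool.Agent.R244.PS
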