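import Pool.Agent.R244.PS.Stm

namespace Pool.Agent.R244.PS

open MeasureTheory Set Metric Topology Filter
open scoped ENNReal NNReal Classical

theorem mem_cyl_iff_UNIF (I : List Dg) (ω : Om) :
    ω ∈ cyl I ↔ ∀ k (h : k < I.length), ω k = I[k] := by
  unfold cyl pre
  simp only [mem_ofPred_eq]
  constructor
  · intro h k hk
    have h1 : ((List.range I.length).map ω)[k]'(by simpa using hk) = I[k] := by
      simp only [h]
    rw [← h1]
    simp
  · intro h
    apply List.ext_getElem
    · simp
    · intro k h1 h2
      simp only [List.getElem_map, List.getElem_range]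
      exact h k h2

theorem t_UNIF : S_UNIF := by
  let p : Measure Dg := (9⁻¹ : ℝ≥0∞) • Measure.count
  have hp : IsProbabilityMeasure p := by
    constructor
    have h1 : Measure.count (univ : Set Dg) = 9 := by
      rw [Measure.count_univ]
      simp
    show (9⁻¹ : ℝ≥0∞) * Measure.count (univ : Set Dg) = 1
    rw [h1]
    exact ENNReal.inv_mul_cancel (by norm_num) (by norm_num)
  have hps : ∀ i : Dg, p {i} = 9⁻¹ := by
    intro i
    show (9⁻¹ : ℝ≥0∞) * Measure.count ({i} : Set Dg) = 9⁻¹
    rw [Measure.count_singleton, mul_one]
  refine ⟨Measure.infinitePi (fun _ : ℕ => p), inferInstance, fun I => ?_⟩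
  have h : cyl I = Set.pi (↑(Finset.range I.length)) (fun k => {I.getD k 0}) := by
    ext ω
    rw [mem_cyl_iff_UNIF, Set.mem_pi]
    constructor
    · intro h k hk
      have hk' : k < I.length := by simpa using hk
      rw [mem_singleton_iff, h k hk', List.getD_eq_getElem _ _ hk']
    · intro h k hk
      have h1 := h k (by simpa using hk)
      rw [mem_singleton_iff, List.getD_eq_getElem _ _ hk] at h1
      exact h1
  rw [h, Measure.infinitePi_pi _ (fun i _ => measurableSet_singleton _)]
  simp only [hps, Finset.prod_const, Finset.card_range]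

end Pool.Agent.R244.PS
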