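import Pool.Agent.R244.PS.Defs

namespace Pool.Agent.R244.PS

open MeasureTheory Set Metric Topology Filter
open scoped ENNReal NNReal Classical

/-- Existence of the uniform measure. -/
def S_UNIF : Prop := ∃ μ : Measure Om, IsUnif μ

/-- Basic facts on the coding. -/
def S_BAS : Prop :=
  (∀ l ω n, T l (pre ω n) (F l ω) = F l (shf n ω)) ∧
  (∀ l ω, 0 ≤ l → 0 ≤ F l ω ∧ F l ω ≤ 1 + l) ∧
  (∀ l l' ω, |F l ω - F l' ω| ≤ |l - l'|) ∧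
  (∀ l I J t, T l (I ++ J) t = T l J (T l I t)) ∧
  (∀ l, Continuous (F l))

/-- The projection of the set is an interval. -/
def S_PROJ : Prop := ∀ l : ℝ, 1 / 2 ≤ l → l ≤ 1 → ∀ t, 0 ≤ t → t ≤ 1 + l → ∃ ω, F l ω = t

/-- Independence of prefix and future. -/
def S_MARK : Prop := ∀ μ, IsUnif μ → ∀ (I : List Dg) (E : Set Om), MeasurableSet E →
  μ (cyl I ∩ {ω | shf I.length ω ∈ E}) = (9⁻¹ : ℝ≥0∞) ^ I.length * μ E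

/-- Recurrence. -/
def S_REC : Prop := ∀ μ, IsUnif μ → ∀ V : Set Om, MeasurableSet V → μ V ≠ 0 →
  ∀ᵐ ω ∂μ, ∀ n, ∃ k, n ≤ k ∧ shf k ω ∈ V

/-- Discrete energy. -/
noncomputable def En (l : ℝ) (n : ℕ) : ℝ :=
  ∑ u : Fin n → Dg, ∑ v : Fin n → Dg,
    if |lft l (List.ofFn u) - lft l (List.ofFn v)| ≤ 2 / 5 ^ n then (1 / 81 : ℝ) ^ n * 5 ^ n else 0

/-- Transversality: bounded discrete energies for a dense set of directions. -/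
def S_AC1 : Prop := ∀ a b : ℝ, 1 / 2 ≤ a → a < b → b ≤ 1 →
  ∃ l ∈ Ioo a b, ∃ C : ℝ, ∃ᶠ n in atTop, En l n ≤ C

/-- Bounded discrete energies give absolute continuity. -/
def S_AC2 : Prop := ∀ μ, IsUnif μ → ∀ l : ℝ, 1 / 2 ≤ l → l ≤ 1 →
  (∃ C : ℝ, ∃ᶠ n in atTop, En l n ≤ C) → μ.map (F l) ≪ volume

/-- Stationarity of the projected measure. -/
def S_STAT : Prop := ∀ μ, IsUnif μ → ∀ (l : ℝ) (B : Set ℝ), MeasurableSet B →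
  (μ.map (F l)) B = 9⁻¹ * ∑ i : Dg, (μ.map (F l)) ((fun t => (t + off l i) / 5) ⁻¹' B)

/-- Singular projections for a dense set of directions. -/
def S_SING : Prop := ∀ μ, IsUnif μ → ∀ a b : ℝ, 1 / 2 ≤ a → a < b → b ≤ 1 →
  ∃ l ∈ Ioo a b, (μ.map (F l)) ⟂ₘ volume

/-- Functional equation of the density. -/
def S_SELFH : Prop := ∀ μ, IsUnif μ → ∀ l : ℝ, 1 / 2 ≤ l → l ≤ 1 → μ.map (F l) ≪ volume →
  (∀ n : ℕ, ∀ᵐ t : ℝ, (μ.map (F l)).rnDeriv volume t =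
    ∑ u : Fin n → Dg, (5 / 9 : ℝ≥0∞) ^ n * (μ.map (F l)).rnDeriv volume (T l (List.ofFn u) t)) ∧
  (∀ᵐ t : ℝ, (t < 0 ∨ 1 + l < t) → (μ.map (F l)).rnDeriv volume t = 0) ∧
  (∀ᵐ t : ℝ, 0 < t → t < 1 / 5 → (μ.map (F l)).rnDeriv volume t =
    (5 / 9 : ℝ≥0∞) * (μ.map (F l)).rnDeriv volume (5 * t))

/-- Positivity of the density. -/
def S_POSH : Prop := ∀ μ, IsUnif μ → ∀ l : ℝ, 1 / 2 ≤ l → l ≤ 1 → μ.map (F l) ≪ volume →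
  ∀ᵐ t : ℝ, 0 < t → t < 1 + l → (μ.map (F l)).rnDeriv volume t ≠ 0

/-- The stopping inequality. -/
def S_STOP : Prop := ∀ μ, IsUnif μ → ∀ l : ℝ, 1 / 2 ≤ l → l ≤ 1 → μ.map (F l) ≪ volume →
  ∀ (U B : Set ℝ) (k₀ N : ℕ) (η : ℝ≥0∞), MeasurableSet U → MeasurableSet B →
    (∀ᵐ u : ℝ, u ∈ U → (μ.map (F l)).rnDeriv volume u ≤ η) →
    μ {ω | F l ω ∈ B ∧ ∃ k, k₀ ≤ k ∧ k ≤ N ∧ F l (shf k ω) ∈ U} ≤
      η * ∫⁻ t in B, stopSum l U k₀ N t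

/-- Richness in absolutely continuous directions. -/
def S_RICHAC : Prop := ∀ μ, IsUnif μ → ∀ l : ℝ, 1 / 2 ≤ l → l ≤ 1 → μ.map (F l) ≪ volume →
  ∀ (M : ℝ) (k₀ : ℕ), ∀ᵐ t : ℝ, 0 < t → t < 1 + l → Rich l M k₀ t

/-- Dense set of rich directions. -/
def S_DENR : Prop := ∀ a b : ℝ, 1 / 2 ≤ a → a < b → b ≤ 1 →
  ∃ l ∈ Ioo a b, ∀ (M : ℝ) (k₀ : ℕ), ∀ᵐ t : ℝ, 0 < t → t < 1 + l → Rich l M k₀ t

/-- A direction which is singular and rich. -/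
def S_GEN : Prop := ∀ μ, IsUnif μ → ∃ l : ℝ, 1 / 2 < l ∧ l < 1 ∧ (μ.map (F l)) ⟂ₘ volume ∧
  ∀ (M : ℝ) (k₀ : ℕ), ∀ᵐ t : ℝ, 0 < t → t < 1 + l → Rich l M k₀ t

/-- The self-similar set. -/
def S_SELF : Prop := IsCompact K ∧ K.Nonempty ∧
  K = ⋃ i : Dg, (fun x : E2 => (1 / 5 : ℝ) • x + vec i) '' K ∧
  ∀ i j : Dg, i ≠ j → Disjoint ((fun x : E2 => (1 / 5 : ℝ) • x + vec i) '' K)
    ((fun x : E2 => (1 / 5 : ℝ) • x + vec j) '' K)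

/-- Separation and coordinates. -/
def S_SEP : Prop :=
  (∀ ω ω' n, pre ω n = pre ω' n → ω n ≠ ω' n → (1 / 5 : ℝ) ^ (n + 1) ≤ dist (pt ω) (pt ω')) ∧
  (∀ ω ω' n, pre ω n = pre ω' n → dist (pt ω) (pt ω') ≤ 2 * (1 / 5 : ℝ) ^ n) ∧
  (∀ (l : ℝ) ω, (pt ω) 0 + l * (pt ω) 1 = F l ω) ∧ Continuous pt

/-- Dimension of the set and comparison of measures. -/
def S_HD : Prop := dimH K = ENNReal.ofReal sd ∧
  ∀ μ, IsUnif μ → ∃ C : ℝ≥0, ∀ A : Set E2, MeasurableSet A →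
    (Measure.hausdorffMeasure sd : Measure E2) (A ∩ K) ≤ C * (μ.map pt) A

/-- Rich slices have infinite packing measure. -/
def S_PACK : Prop := ∀ l : ℝ, 1 / 2 ≤ l → l ≤ 1 → ∀ t : ℝ, 0 < t → t < 1 + l →
  (∀ I : List Dg, 0 ≤ T l I t → T l I t ≤ 1 + l → 0 < T l I t ∧ T l I t < 1 + l) →
  (∀ I : List Dg, 0 < T l I t → T l I t < 1 + l → ∀ (M : ℝ) (k₀ : ℕ), Rich l M k₀ (T l I t)) →
  packM (sd - 1) (K ∩ {x : E2 | x 0 + l * x 1 = t}) = ⊤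

/-- The main theorem (Q1 of MP_203158_an, answer yes). -/
def S_MAIN : Prop := ∃ (q : ℕ) (r : Fin q → ℝ) (w : Fin q → E2) (A : Set E2) (s : ℝ) (e : E2),
  1 < s ∧ A.Nonempty ∧ IsCompact A ∧ (∀ j, 0 < r j ∧ r j < 1) ∧
  A = (⋃ j, (fun x : E2 => r j • x + w j) '' A) ∧
  (∀ i j, i ≠ j → Disjoint ((fun x : E2 => r i • x + w i) '' A)
    ((fun x : E2 => r j • x + w j) '' A)) ∧
  dimH A = ENNReal.ofReal s ∧ ‖e‖ = 1 ∧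
  0 < volume ((fun x : E2 => (inner ℝ e x : ℝ)) '' A) ∧
  (Measure.map (fun x : E2 => (inner ℝ e x : ℝ))
    ((Measure.hausdorffMeasure s : Measure E2).restrict A)) ⟂ₘ (volume : Measure ℝ) ∧
  ∀ᵐ t : ℝ, t ∈ (fun x : E2 => (inner ℝ e x : ℝ)) '' A →
    packM (s - 1) (A ∩ {x : E2 | (inner ℝ e x : ℝ) = t}) = ⊤

end Pool.Agent.R244.PS
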